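import Mathlib

/-! # Set functions with a symmetric generating function (helper784)

Combinatorial part of the proof for MP_8fe44f_co, after a paper proof by helper859. -/

set_option autoImplicit false

namespace Pool.Agent.R784.SP

open Finset

/-- sum of `d` over the subsets of `E`. -/
def zz (d : Finset ℕ → ℕ) (E : Finset ℕ) : ℕ := ∑ D ∈ E.powerset, d D

/-- the set of the partial sums of a list in `(0, n)`. -/
def psl (n : ℕ) (l : List ℕ) : Finset ℕ :=
  ((l.inits.map List.sum).toFinset).filter fun i => 0 < i ∧ i < n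

lemma mem_psl {n : ℕ} {l : List ℕ} {i : ℕ} :
    i ∈ psl n l ↔ (0 < i ∧ i < n) ∧ ∃ a, a <+: l ∧ a.sum = i := by
  simp only [psl, Finset.mem_filter, List.mem_toFinset, List.mem_map, List.mem_inits]
  tauto

lemma psl_sub (n : ℕ) (l : List ℕ) : psl n l ⊆ Ioo 0 n := by
  intro i hi
  rw [mem_psl] at hi
  exact Finset.mem_Ioo.2 hi.1

/-- `d` is supported on the subsets of `(0,n)` and its sums depend only on the type. -/
structure Sy (n : ℕ) (d : Finset ℕ → ℕ) : Prop where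
  supp : ∀ D, d D ≠ 0 → D ⊆ Ioo 0 n
  symm : ∀ l l' : List ℕ, l.Perm l' → l.sum = n → zz d (psl n l) = zz d (psl n l')

/-- adding one part at the end. -/
lemma psl_snoc {k n x : ℕ} {l : List ℕ} (hl : l.sum = k) (hn : n = k + x) (hk : 0 < k)
    (hx : 0 < x) : psl n (l ++ [x]) = insert k (psl k l) := by
  ext i
  rw [Finset.mem_insert, mem_psl, mem_psl]
  constructor
  · rintro ⟨⟨h1, h2⟩, a, ha, hs⟩
    rw [List.prefix_concat_iff] at ha
    rcases ha with rfl | ha
    · exfalso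
      rw [List.sum_append, hl, List.sum_singleton] at hs
      omega
    · obtain ⟨b, hb⟩ := ha
      have h3 : a.sum + b.sum = k := by rw [← hl, ← hb, List.sum_append]
      by_cases hik : i = k
      · exact Or.inl hik
      · refine Or.inr ⟨⟨h1, by omega⟩, a, ⟨b, hb⟩, hs⟩
  · rintro (rfl | ⟨⟨h1, h2⟩, a, ha, hs⟩)
    · exact ⟨⟨hk, by omega⟩, l, List.prefix_append _ _, hl⟩
    · exact ⟨⟨h1, by omega⟩, a, ha.trans (List.prefix_append _ _), hs⟩

lemma psl_singleton (n : ℕ) : psl n [n] = ∅ := by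
  ext i
  rw [mem_psl]
  constructor
  · rintro ⟨⟨h1, h2⟩, a, ha, hs⟩
    exfalso
    rw [show [n] = [] ++ [n] from rfl, List.prefix_concat_iff] at ha
    rcases ha with rfl | ha
    · simp at hs; omega
    · rw [List.prefix_nil] at ha
      subst ha
      simp at hs
      omega
  · intro h
    simp at h

/-- every set is the set of partial sums of a list. -/
lemma exists_list (n : ℕ) : 0 < n → ∀ E : Finset ℕ, E ⊆ Ioo 0 n →
    ∃ l : List ℕ, l.sum = n ∧ psl n l = E := by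
  induction n using Nat.strong_induction_on with
  | _ n ih =>
    intro hn E hE
    rcases E.eq_empty_or_nonempty with rfl | hne
    · exact ⟨[n], by simp, psl_singleton n⟩
    · have hk := hE (E.max'_mem hne)
      rw [Finset.mem_Ioo] at hk
      obtain ⟨l, hl, hp⟩ := ih (E.max' hne) hk.2 hk.1 (E.erase (E.max' hne)) (by
        intro i hi
        rw [Finset.mem_erase] at hi
        have h1 := E.le_max' i hi.2
        have h2 := Finset.mem_Ioo.1 (hE hi.2)
        rw [Finset.mem_Ioo]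
        omega)
      refine ⟨l ++ [n - E.max' hne], ?_, ?_⟩
      · rw [List.sum_append, hl, List.sum_singleton]; omega
      · rw [psl_snoc hl (by omega) hk.1 (by omega), hp, Finset.insert_erase (E.max'_mem hne)]

/-- reversal of a set. -/
def rv (n : ℕ) (E : Finset ℕ) : Finset ℕ := E.image fun i => n - i

lemma mem_rv {n : ℕ} {E : Finset ℕ} (hE : E ⊆ Ioo 0 n) {i : ℕ} (hi : i ∈ Ioo 0 n) :
    i ∈ rv n E ↔ n - i ∈ E := by
  rw [Finset.mem_Ioo] at hi
  rw [rv, Finset.mem_image]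
  constructor
  · rintro ⟨j, hj, rfl⟩
    have := Finset.mem_Ioo.1 (hE hj)
    rwa [show n - (n - j) = j by omega]
  · intro h
    exact ⟨n - i, h, by omega⟩

lemma rv_sub {n : ℕ} {E : Finset ℕ} (hE : E ⊆ Ioo 0 n) : rv n E ⊆ Ioo 0 n := by
  intro i hi
  rw [rv, Finset.mem_image] at hi
  obtain ⟨j, hj, rfl⟩ := hi
  have := Finset.mem_Ioo.1 (hE hj)
  rw [Finset.mem_Ioo]
  omega

lemma rv_rv {n : ℕ} {E : Finset ℕ} (hE : E ⊆ Ioo 0 n) : rv n (rv n E) = E := by
  ext i
  constructor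
  · intro h
    have h1 := rv_sub (rv_sub hE) h
    rw [mem_rv (rv_sub hE) h1] at h
    have h2 := rv_sub hE h
    rw [mem_rv hE h2] at h
    rw [Finset.mem_Ioo] at h1
    rwa [show n - (n - i) = i by omega] at h
  · intro h
    have h1 := hE h
    have h1' := Finset.mem_Ioo.1 h1
    have h2 : n - i ∈ Ioo 0 n := by rw [Finset.mem_Ioo]; omega
    rw [mem_rv (rv_sub hE) h1, mem_rv hE h2]
    rwa [show n - (n - i) = i by omega]

lemma psl_reverse {n : ℕ} {l : List ℕ} (hl : l.sum = n) : psl n l.reverse = rv n (psl n l) := by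
  have key : ∀ l : List ℕ, l.sum = n → ∀ i ∈ psl n l, n - i ∈ psl n l.reverse := by
    intro l hl i hi
    rw [mem_psl] at hi ⊢
    obtain ⟨⟨h1, h2⟩, a, ⟨b, hb⟩, hs⟩ := hi
    refine ⟨by omega, b.reverse, ⟨a.reverse, ?_⟩, ?_⟩
    · rw [← hb, List.reverse_append]
    · rw [List.sum_reverse]
      have : a.sum + b.sum = n := by rw [← hl, ← hb, List.sum_append]
      omega
  ext i
  constructor
  · intro h
    have h1 := key _ (by rw [List.sum_reverse, hl]) i h
    rw [List.reverse_reverse] at h1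
    rw [mem_rv (psl_sub n l) (psl_sub _ _ h)]
    exact h1
  · intro h
    have hi := rv_sub (psl_sub n l) h
    rw [mem_rv (psl_sub n l) hi] at h
    have h1 := key l hl _ h
    rw [Finset.mem_Ioo] at hi
    rwa [show n - (n - i) = i by omega] at h1

/-- uniqueness in Möbius inversion. -/
lemma eq_of_zz (d d' : Finset ℕ → ℕ) (U : Finset ℕ)
    (h : ∀ E ⊆ U, zz d E = zz d' E) : ∀ D ⊆ U, d D = d' D := by
  intro D
  induction D using Finset.strongInduction with
  | H D ih =>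
    intro hD
    have h1 := h D hD
    rw [zz, zz, ← Finset.sum_erase_add _ _ (Finset.mem_powerset_self D),
      ← Finset.sum_erase_add (a := D) D.powerset d' (Finset.mem_powerset_self D)] at h1
    have h2 : ∑ K ∈ D.powerset.erase D, d K = ∑ K ∈ D.powerset.erase D, d' K := by
      refine Finset.sum_congr rfl fun K hK => ?_
      rw [Finset.mem_erase, Finset.mem_powerset] at hK
      exact ih K (Finset.ssubset_iff_subset_ne.2 ⟨hK.2, hK.1⟩) (hK.2.trans hD)
    omega

lemma Sy.rev {n : ℕ} {d : Finset ℕ → ℕ} (h : Sy n d) (hn : 0 < n) (D : Finset ℕ)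
    (hD : D ⊆ Ioo 0 n) : d (rv n D) = d D := by
  refine eq_of_zz (fun D => d (rv n D)) d (Ioo 0 n) ?_ D hD
  intro E hE
  obtain ⟨l, hl, rfl⟩ := exists_list n hn E hE
  have h1 := h.symm l l.reverse (List.reverse_perm l).symm hl
  rw [psl_reverse hl] at h1
  rw [h1, zz, zz]
  refine Finset.sum_bij' (fun D _ => rv n D) (fun D _ => rv n D) ?_ ?_ ?_ ?_ ?_
  · intro D hD
    rw [Finset.mem_powerset] at hD ⊢
    exact Finset.image_subset_image hD
  · intro D hD
    rw [Finset.mem_powerset] at hD ⊢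
    rw [← rv_rv (psl_sub n l)]
    exact Finset.image_subset_image hD
  · intro D hD
    rw [Finset.mem_powerset] at hD
    exact rv_rv (hD.trans hE)
  · intro D hD
    rw [Finset.mem_powerset] at hD
    exact rv_rv (hD.trans (rv_sub hE))
  · intro D hD
    rfl

/-! ### Special lists -/

lemma mem_psl_snoc {k n x : ℕ} {l : List ℕ} (hl : l.sum = k) (hn : n = k + x)
    (hx : 0 < x) {i : ℕ} : i ∈ psl n (l ++ [x]) ↔ 0 < i ∧ (i = k ∨ i ∈ psl k l) := by
  rw [mem_psl, mem_psl]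
  constructor
  · rintro ⟨⟨h1, h2⟩, a, ha, hs⟩
    rw [List.prefix_concat_iff] at ha
    rcases ha with rfl | ha
    · exfalso
      rw [List.sum_append, hl, List.sum_singleton] at hs
      omega
    · obtain ⟨b, hb⟩ := ha
      have h3 : a.sum + b.sum = k := by rw [← hl, ← hb, List.sum_append]
      refine ⟨h1, ?_⟩
      by_cases hik : i = k
      · exact Or.inl hik
      · refine Or.inr ⟨⟨h1, by omega⟩, a, ⟨b, hb⟩, hs⟩
  · rintro ⟨h0, rfl | ⟨⟨h1, h2⟩, a, ha, hs⟩⟩
    · exact ⟨⟨h0, by omega⟩, l, List.prefix_append _ _, hl⟩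
    · exact ⟨⟨h1, by omega⟩, a, ha.trans (List.prefix_append _ _), hs⟩

lemma mem_psl_rep {k : ℕ} {l : List ℕ} (hl : l.sum = k) (r : ℕ) {i : ℕ} :
    i ∈ psl (k + r) (l ++ List.replicate r 1) ↔ 0 < i ∧ (i ∈ psl k l ∨ (k ≤ i ∧ i < k + r)) := by
  induction r with
  | zero =>
    rw [List.replicate_zero, List.append_nil]
    have : i ∈ psl k l → 0 < i := fun h => (Finset.mem_Ioo.1 (psl_sub _ _ h)).1
    constructor
    · intro h
      exact ⟨this h, Or.inl h⟩
    · rintro ⟨h0, h | h⟩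
      · exact h
      · omega
  | succ r ih =>
    rw [List.replicate_succ', ← List.append_assoc,
      mem_psl_snoc (k := k + r) (by rw [List.sum_append, hl]; simp) (by omega) one_pos, ih]
    constructor
    · rintro ⟨h0, rfl | ⟨h1, h | h⟩⟩
      · exact ⟨h0, Or.inr (by omega)⟩
      · exact ⟨h0, Or.inl h⟩
      · exact ⟨h0, Or.inr (by omega)⟩
    · rintro ⟨h0, h | h⟩
      · exact ⟨h0, Or.inr ⟨h0, Or.inl h⟩⟩
      · refine ⟨h0, ?_⟩
        by_cases hik : i = k + r
        · exact Or.inl hik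
        · exact Or.inr ⟨h0, Or.inr (by omega)⟩

lemma mem_psl_one (a : ℕ) {i : ℕ} : i ∈ psl a (List.replicate a 1) ↔ 0 < i ∧ i < a := by
  have h := mem_psl_rep (k := 0) (l := []) (by simp) a (i := i)
  rw [List.nil_append, Nat.zero_add] at h
  rw [h]
  constructor
  · rintro ⟨h0, h1 | h1⟩
    · have := Finset.mem_Ioo.1 (psl_sub _ _ h1)
      omega
    · omega
  · intro h
    exact ⟨h.1, Or.inr (by omega)⟩

/-- the list `1^a x 1^b`. -/
def L1 (a x b : ℕ) : List ℕ := List.replicate a 1 ++ [x] ++ List.replicate b 1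

lemma L1_sum (a x b : ℕ) : (L1 a x b).sum = a + x + b := by
  simp [L1]; omega

lemma mem_psl_L1 {a x b n : ℕ} (hx : 0 < x) (hn : n = a + x + b) {i : ℕ} :
    i ∈ psl n (L1 a x b) ↔ 0 < i ∧ i < n ∧ (i ≤ a ∨ a + x ≤ i) := by
  subst hn
  rw [L1, mem_psl_rep (by simp), mem_psl_snoc (k := a) (by simp) rfl hx, mem_psl_one]
  omega

lemma psl_L1_2 {n i : ℕ} (hi : i ∈ Ioo 0 n) : psl n (L1 (i - 1) 2 (n - 1 - i)) = Ioo 0 n \ {i} := by
  rw [Finset.mem_Ioo] at hi
  ext k
  rw [mem_psl_L1 (by norm_num) (by omega), Finset.mem_sdiff, Finset.mem_Ioo, Finset.mem_singleton]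
  omega

lemma psl_L1_3 {n i : ℕ} (hi : i ∈ Ioo 0 n) (hi' : i + 1 ∈ Ioo 0 n) :
    psl n (L1 (i - 1) 3 (n - 2 - i)) = Ioo 0 n \ {i, i + 1} := by
  rw [Finset.mem_Ioo] at hi hi'
  ext k
  rw [mem_psl_L1 (by norm_num) (by omega), Finset.mem_sdiff, Finset.mem_Ioo, Finset.mem_insert,
    Finset.mem_singleton]
  omega

/-- the list `1^a 2 1^b 2 1^c`. -/
def L2 (a b c : ℕ) : List ℕ := L1 a 2 b ++ [2] ++ List.replicate c 1

lemma L2_sum (a b c : ℕ) : (L2 a b c).sum = a + 2 + b + 2 + c := by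
  simp [L2, L1_sum]; omega

lemma psl_L2 {n i j : ℕ} (hi : i ∈ Ioo 0 n) (hj : j ∈ Ioo 0 n) (hij : i + 2 ≤ j) :
    psl n (L2 (i - 1) (j - i - 2) (n - 1 - j)) = Ioo 0 n \ {i, j} := by
  rw [Finset.mem_Ioo] at hi hj
  ext k
  have hn : n = (i - 1 + 2 + (j - i - 2) + 2) + (n - 1 - j) := by omega
  rw [L2]
  nth_rewrite 1 [hn]
  rw [mem_psl_rep (by simp [L1_sum]), mem_psl_snoc (L1_sum _ _ _) rfl (by norm_num),
    mem_psl_L1 (by norm_num) rfl, Finset.mem_sdiff, Finset.mem_Ioo, Finset.mem_insert,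
    Finset.mem_singleton]
  omega

lemma L1_perm {a x b a' b' : ℕ} (h : a + b = a' + b') : (L1 a x b).Perm (L1 a' x b') := by
  rw [List.perm_iff_count]
  intro y
  simp only [L1, List.count_append, List.count_replicate]
  split_ifs <;> omega

lemma L2_perm {a b c a' b' c' : ℕ} (h : a + b + c = a' + b' + c') :
    (L2 a b c).Perm (L2 a' b' c') := by
  rw [List.perm_iff_count]
  intro y
  simp only [L2, L1, List.count_append, List.count_replicate]
  split_ifs <;> omega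

section consts

variable {n : ℕ} {d : Finset ℕ → ℕ}

lemma Sy.one (h : Sy n d) {i j : ℕ} (hi : i ∈ Ioo 0 n) (hj : j ∈ Ioo 0 n) :
    zz d (Ioo 0 n \ {i}) = zz d (Ioo 0 n \ {j}) := by
  rw [← psl_L1_2 hi, ← psl_L1_2 hj]
  rw [Finset.mem_Ioo] at hi hj
  refine h.symm _ _ (L1_perm (by omega)) ?_
  rw [L1_sum]; omega

lemma Sy.adj (h : Sy n d) {i j : ℕ} (hi : i ∈ Ioo 0 n) (hi' : i + 1 ∈ Ioo 0 n)
    (hj : j ∈ Ioo 0 n) (hj' : j + 1 ∈ Ioo 0 n) :
    zz d (Ioo 0 n \ {i, i + 1}) = zz d (Ioo 0 n \ {j, j + 1}) := by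
  rw [← psl_L1_3 hi hi', ← psl_L1_3 hj hj']
  rw [Finset.mem_Ioo] at hi hj hi' hj'
  refine h.symm _ _ (L1_perm (by omega)) ?_
  rw [L1_sum]; omega

lemma Sy.far (h : Sy n d) {i j i' j' : ℕ} (hi : i ∈ Ioo 0 n) (hj : j ∈ Ioo 0 n) (hij : i + 2 ≤ j)
    (hi' : i' ∈ Ioo 0 n) (hj' : j' ∈ Ioo 0 n) (hij' : i' + 2 ≤ j') :
    zz d (Ioo 0 n \ {i, j}) = zz d (Ioo 0 n \ {i', j'}) := by
  rw [← psl_L2 hi hj hij, ← psl_L2 hi' hj' hij']
  rw [Finset.mem_Ioo] at hi hj hi' hj'
  refine h.symm _ _ (L2_perm (by omega)) ?_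
  rw [L2_sum]; omega

end consts

end Pool.Agent.R784.SP
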