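import Mathlib
import Pool.Agent.R784.SP.Comb

/-! # Regular set functions (helper784) -/

set_option autoImplicit false

namespace Pool.Agent.R784.SP

open Finset

/-- total weight of the sets with a property. -/
def ct (n : ℕ) (e : Finset ℕ → ℕ) (p : Finset ℕ → Prop) [DecidablePred p] : ℕ :=
  ∑ D ∈ (Ioo 0 n).powerset with p D, e D

lemma ct_eq_zero {n : ℕ} {e : Finset ℕ → ℕ} {p : Finset ℕ → Prop} [DecidablePred p]
    (h : ct n e p = 0) {D : Finset ℕ} (hD : D ⊆ Ioo 0 n) (hp : p D) : e D = 0 :=
  (Finset.sum_eq_zero_iff.1 h) D (Finset.mem_filter.2 ⟨Finset.mem_powerset.2 hD, hp⟩)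

lemma ct_congr {n : ℕ} {e : Finset ℕ → ℕ} {p q : Finset ℕ → Prop} [DecidablePred p]
    [DecidablePred q] (h : ∀ D ⊆ Ioo 0 n, p D ↔ q D) : ct n e p = ct n e q := by
  unfold ct
  congr 1
  refine Finset.filter_congr fun D hD => h D (Finset.mem_powerset.1 hD)

/-- the number of sets with `i` and the number of sets with `i` and `j` do not depend on `i`,
`j`. -/
structure Reg (n : ℕ) (e : Finset ℕ → ℕ) : Prop where
  supp : ∀ D, e D ≠ 0 → D ⊆ Ioo 0 n
  one : ∀ i ∈ Ioo 0 n, ∀ j ∈ Ioo 0 n, ct n e (fun D => i ∈ D) = ct n e (fun D => j ∈ D)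
  adj : ∀ i ∈ Ioo 0 n, ∀ j ∈ Ioo 0 n, i + 1 ∈ Ioo 0 n → j + 1 ∈ Ioo 0 n →
    ct n e (fun D => i ∈ D ∧ i + 1 ∈ D) = ct n e (fun D => j ∈ D ∧ j + 1 ∈ D)
  far : ∀ i ∈ Ioo 0 n, ∀ j ∈ Ioo 0 n, ∀ i' ∈ Ioo 0 n, ∀ j' ∈ Ioo 0 n, i + 2 ≤ j → i' + 2 ≤ j' →
    ct n e (fun D => i ∈ D ∧ j ∈ D) = ct n e (fun D => i' ∈ D ∧ j' ∈ D)

/-- The structure in the case that no set contains two elements at distance at least two. -/
theorem struct_of {n : ℕ} (hn : 4 ≤ n) {e : Finset ℕ → ℕ} (h : Reg n e) (h0 : e ∅ = 0)
    (hp : ct n e (fun D => 1 ∈ D ∧ n - 1 ∈ D) = 0)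
    (ht : ∑ D ∈ (Ioo 0 n).powerset, e D ≤ n - 1) :
    (∀ D, e D = 0) ∨
      (∀ D, e D = if D ∈ (Ioo 0 n).image (fun i => ({i} : Finset ℕ)) then 1 else 0) := by
  classical
  have hm : ∀ {i : ℕ}, i ∈ Ioo 0 n ↔ 0 < i ∧ i < n := Finset.mem_Ioo
  have h1m : 1 ∈ Ioo 0 n := hm.2 (by omega)
  have h2m : 2 ∈ Ioo 0 n := hm.2 (by omega)
  have h3m : 3 ∈ Ioo 0 n := hm.2 (by omega)
  have hnm : n - 1 ∈ Ioo 0 n := hm.2 (by omega)
  -- elements of a set of the support are adjacent
  have key : ∀ D, e D ≠ 0 → ∀ i ∈ D, ∀ j ∈ D, i < j → j = i + 1 := by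
    intro D hD i hi j hj hij
    by_contra hne
    have hs := h.supp D hD
    have h1 := h.far i (hs hi) j (hs hj) 1 h1m (n - 1) hnm (by omega) (by omega)
    rw [hp] at h1
    exact hD (ct_eq_zero h1 hs ⟨hi, hj⟩)
  have hpair : ∀ i ∈ Ioo 0 n, i + 1 ∈ Ioo 0 n →
      ct n e (fun D => i ∈ D ∧ i + 1 ∈ D) = e {i, i + 1} := by
    intro i hi hi'
    unfold ct
    rw [Finset.sum_eq_single {i, i + 1}]
    · intro D hD hne
      rw [Finset.mem_filter] at hD
      by_contra hD0
      apply hne
      ext k
      rw [Finset.mem_insert, Finset.mem_singleton]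
      constructor
      · intro hk
        rcases lt_trichotomy k i with hlt | hlt | hlt
        · have := key D hD0 k hk (i + 1) hD.2.2 (by omega)
          omega
        · exact Or.inl hlt
        · exact Or.inr (key D hD0 i hD.2.1 k hk hlt)
      · rintro (rfl | rfl)
        · exact hD.2.1
        · exact hD.2.2
    · intro hD
      exfalso
      apply hD
      rw [Finset.mem_filter, Finset.mem_powerset]
      refine ⟨?_, by simp⟩
      intro k hk
      rw [Finset.mem_insert, Finset.mem_singleton] at hk
      rcases hk with rfl | rfl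
      · exact hi
      · exact hi'
  have hb : ∀ i ∈ Ioo 0 n, i + 1 ∈ Ioo 0 n → e {i, i + 1} = e {1, 2} := by
    intro i hi hi'
    have := h.adj i hi 1 h1m hi' h2m
    rw [hpair i hi hi', hpair 1 h1m h2m] at this
    exact this
  -- the sets with a given element
  have hsets : ∀ D, e D ≠ 0 → ∀ i ∈ D, D = {i} ∨ D = {i, i + 1} ∨ (0 < i - 1 ∧ D = {i - 1, i - 1 + 1}) := by
    intro D hD i hi
    by_cases h1 : i + 1 ∈ D
    · right; left
      ext k
      rw [Finset.mem_insert, Finset.mem_singleton]
      constructor
      · intro hk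
        rcases lt_trichotomy k i with hlt | hlt | hlt
        · have := key D hD k hk (i + 1) h1 (by omega)
          omega
        · exact Or.inl hlt
        · exact Or.inr (key D hD i hi k hk hlt)
      · rintro (rfl | rfl)
        · exact hi
        · exact h1
    · by_cases h2 : i - 1 ∈ D ∧ 0 < i - 1
      · right; right
        refine ⟨h2.2, ?_⟩
        ext k
        rw [Finset.mem_insert, Finset.mem_singleton]
        have hii : i - 1 + 1 = i := by omega
        constructor
        · intro hk
          rcases lt_trichotomy k i with hlt | hlt | hlt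
          · left
            have := key D hD k hk i hi (by omega)
            omega
          · right; omega
          · have := key D hD i hi k hk hlt
            subst this
            exact absurd hk h1
        · rintro (rfl | rfl)
          · exact h2.1
          · rw [hii]; exact hi
      · left
        ext k
        rw [Finset.mem_singleton]
        constructor
        · intro hk
          rcases lt_trichotomy k i with hlt | hlt | hlt
          · exfalso
            apply h2
            have h3 := key D hD k hk i hi (by omega)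
            have h4 := hm.1 (h.supp D hD hk)
            have h5 : i - 1 = k := by omega
            rw [h5]
            exact ⟨hk, h4.1⟩
          · exact hlt
          · have := key D hD i hi k hk hlt
            subst this
            exact absurd hk h1
        · rintro rfl
          exact hi
  by_cases hb0 : e {1, 2} = 0
  · -- no pairs
    have hone : ∀ i ∈ Ioo 0 n, ct n e (fun D => i ∈ D) = e {i} := by
      intro i hi
      unfold ct
      rw [Finset.sum_eq_single {i}]
      · intro D hD hne
        rw [Finset.mem_filter] at hD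
        by_contra hD0
        have hs := h.supp D hD0
        rcases hsets D hD0 i hD.2 with rfl | rfl | ⟨h1, rfl⟩
        · exact hne rfl
        · exact hD0 ((hb i hi (hs (by simp))).trans hb0)
        · exact hD0 ((hb (i - 1) (hs (by simp)) (hs (by simp))).trans hb0)
      · intro hD
        exfalso
        apply hD
        rw [Finset.mem_filter, Finset.mem_powerset]
        exact ⟨Finset.singleton_subset_iff.2 hi, by simp⟩
    have hc : ∀ i ∈ Ioo 0 n, e {i} = e {1} := by
      intro i hi
      have := h.one i hi 1 h1m
      rwa [hone i hi, hone 1 h1m] at this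
    have hval : ∀ D, e D = if ∃ i ∈ Ioo 0 n, D = {i} then e {1} else 0 := by
      intro D
      split_ifs with hD
      · obtain ⟨i, hi, rfl⟩ := hD
        exact hc i hi
      · by_contra hD0
        apply hD
        have hs := h.supp D hD0
        rcases D.eq_empty_or_nonempty with rfl | ⟨i, hi⟩
        · exact absurd h0 hD0
        · rcases hsets D hD0 i hi with h1 | h1 | ⟨h1, h2⟩
          · exact ⟨i, hs hi, h1⟩
          · exfalso
            rw [h1] at hs hD0
            exact hD0 ((hb i (hs (by simp)) (hs (by simp))).trans hb0)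
          · exfalso
            rw [h2] at hs hD0
            exact hD0 ((hb (i - 1) (hs (by simp)) (hs (by simp))).trans hb0)
    have hle : (n - 1) * e {1} ≤ n - 1 := by
      refine le_trans ?_ ht
      have hinj : Set.InjOn (fun i : ℕ => ({i} : Finset ℕ)) (Ioo 0 n : Finset ℕ) :=
        fun a _ b _ hab => Finset.singleton_injective hab
      calc (n - 1) * e {1} = ∑ _i ∈ Ioo 0 n, e {1} := by simp
        _ = ∑ i ∈ Ioo 0 n, e {i} := Finset.sum_congr rfl fun i hi => (hc i hi).symm
        _ = ∑ D ∈ (Ioo 0 n).image (fun i => ({i} : Finset ℕ)), e D := by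
            rw [Finset.sum_image hinj]
        _ ≤ ∑ D ∈ (Ioo 0 n).powerset, e D := by
            refine Finset.sum_le_sum_of_subset ?_
            intro D hD
            rw [Finset.mem_image] at hD
            obtain ⟨i, hi, rfl⟩ := hD
            rw [Finset.mem_powerset]
            exact Finset.singleton_subset_iff.2 hi
    have hle1 : e {1} ≤ 1 := by
      by_contra hcon
      have : (n - 1) * 2 ≤ (n - 1) * e {1} := Nat.mul_le_mul_left _ (by omega)
      omega
    rcases Nat.le_one_iff_eq_zero_or_eq_one.1 hle1 with h1 | h1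
    · left
      intro D
      rw [hval D, h1]
      split_ifs <;> rfl
    · right
      intro D
      rw [hval D, h1]
      by_cases hD : ∃ i ∈ Ioo 0 n, D = {i}
      · rw [if_pos hD, if_pos]
        obtain ⟨i, hi, rfl⟩ := hD
        exact Finset.mem_image.2 ⟨i, hi, rfl⟩
      · rw [if_neg hD, if_neg]
        intro hD'
        obtain ⟨i, hi, rfl⟩ := Finset.mem_image.1 hD'
        exact hD ⟨i, hi, rfl⟩
  · -- pairs: too many sets
    exfalso
    have hone : ∀ i ∈ Ioo 0 n, ct n e (fun D => i ∈ D) ≥ 2 * e {1, 2} := by
      intro i hi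
      rw [h.one i hi 2 h2m]
      have hsub : ({{1, 2}, {2, 3}} : Finset (Finset ℕ)) ⊆
          ((Ioo 0 n).powerset.filter fun D => 2 ∈ D) := by
        intro D hD
        rw [Finset.mem_insert, Finset.mem_singleton] at hD
        rw [Finset.mem_filter, Finset.mem_powerset]
        rcases hD with rfl | rfl
        · refine ⟨?_, by simp⟩
          intro k hk
          simp only [Finset.mem_insert, Finset.mem_singleton] at hk
          rcases hk with rfl | rfl
          · exact h1m
          · exact h2m
        · refine ⟨?_, by simp⟩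
          intro k hk
          simp only [Finset.mem_insert, Finset.mem_singleton] at hk
          rcases hk with rfl | rfl
          · exact h2m
          · exact h3m
      have h5 := Finset.sum_le_sum_of_subset (f := e) hsub
      rw [Finset.sum_pair (by decide)] at h5
      have h6 := hb 2 h2m h3m
      norm_num at h6
      unfold ct
      beta_reduce
      omega
    have hend1 : 1 ≤ e {1} := by
      have h1 := hone 1 h1m
      have h2 : ct n e (fun D => 1 ∈ D) ≤ ∑ D ∈ ({{1}, {1, 2}} : Finset (Finset ℕ)), e D := by
        unfold ct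
        rw [← Finset.sum_filter_ne_zero]
        refine Finset.sum_le_sum_of_subset ?_
        intro D hD
        rw [Finset.mem_filter, Finset.mem_filter] at hD
        rcases hsets D hD.2 1 hD.1.2 with h3 | h3 | ⟨h3, -⟩
        · simp [h3]
        · simp [h3]
        · omega
      rw [Finset.sum_pair (by decide)] at h2
      omega
    have hendn : 1 ≤ e {n - 1} := by
      have h1 := hone (n - 1) hnm
      have hnn : ({n - 2, n - 1} : Finset ℕ) = {n - 2, n - 2 + 1} := by
        rw [show n - 2 + 1 = n - 1 by omega]
      have h2 : ct n e (fun D => n - 1 ∈ D) ≤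
          ∑ D ∈ ({{n - 1}, {n - 2, n - 2 + 1}} : Finset (Finset ℕ)), e D := by
        unfold ct
        rw [← Finset.sum_filter_ne_zero]
        refine Finset.sum_le_sum_of_subset ?_
        intro D hD
        rw [Finset.mem_filter, Finset.mem_filter] at hD
        have hs := h.supp D hD.2
        rcases hsets D hD.2 (n - 1) hD.1.2 with h3 | h3 | ⟨h3, h4⟩
        · rw [h3]; simp
        · exfalso
          rw [h3] at hs
          have := hm.1 (hs (show n - 1 + 1 ∈ _ by simp))
          omega
        · rw [h4, show n - 1 - 1 = n - 2 by omega]; simp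
      have hne : ({n - 1} : Finset ℕ) ≠ {n - 2, n - 2 + 1} := by
        intro hE
        have : n - 2 ∈ ({n - 1} : Finset ℕ) := by rw [hE]; simp
        rw [Finset.mem_singleton] at this
        omega
      rw [Finset.sum_pair hne] at h2
      have h6 := hb (n - 2) (hm.2 (by omega)) (hm.2 (by omega))
      omega
    -- the family
    set F : Finset (Finset ℕ) := insert {1} (insert {n - 1}
      ((Ico 1 (n - 1)).image fun i => ({i, i + 1} : Finset ℕ))) with hF
    have hcard : F.card = n := by
      have hinj : Set.InjOn (fun i : ℕ => ({i, i + 1} : Finset ℕ)) (Ico 1 (n - 1) : Finset ℕ) := by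
        intro a _ b _ hab
        have h1 : a ∈ ({b, b + 1} : Finset ℕ) := by
          have : ({a, a + 1} : Finset ℕ) = {b, b + 1} := hab
          rw [← this]; simp
        have h2 : b ∈ ({a, a + 1} : Finset ℕ) := by
          have : ({a, a + 1} : Finset ℕ) = {b, b + 1} := hab
          rw [this]; simp
        simp only [Finset.mem_insert, Finset.mem_singleton] at h1 h2
        omega
      rw [hF, Finset.card_insert_of_notMem, Finset.card_insert_of_notMem,
        Finset.card_image_of_injOn hinj, Nat.card_Ico]
      · omega
      · rw [Finset.mem_image]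
        rintro ⟨i, -, hi⟩
        have h1 : i ∈ ({n - 1} : Finset ℕ) := by rw [← hi]; simp
        have h2 : i + 1 ∈ ({n - 1} : Finset ℕ) := by rw [← hi]; simp
        rw [Finset.mem_singleton] at h1 h2
        omega
      · rw [Finset.mem_insert, Finset.mem_image]
        rintro (h1 | ⟨i, -, hi⟩)
        · have := Finset.singleton_injective h1
          omega
        · have h1 : i ∈ ({1} : Finset ℕ) := by rw [← hi]; simp
          have h2 : i + 1 ∈ ({1} : Finset ℕ) := by rw [← hi]; simp
          rw [Finset.mem_singleton] at h1 h2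
          omega
    have hFP : F ⊆ (Ioo 0 n).powerset := by
      intro D hD
      rw [hF, Finset.mem_insert, Finset.mem_insert, Finset.mem_image] at hD
      rw [Finset.mem_powerset]
      rcases hD with rfl | rfl | ⟨i, hi, rfl⟩
      · exact Finset.singleton_subset_iff.2 h1m
      · exact Finset.singleton_subset_iff.2 hnm
      · rw [Finset.mem_Ico] at hi
        intro k hk
        rw [Finset.mem_insert, Finset.mem_singleton] at hk
        rw [Finset.mem_Ioo]
        omega
    have hF1 : ∀ D ∈ F, 1 ≤ e D := by
      intro D hD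
      rw [hF, Finset.mem_insert, Finset.mem_insert, Finset.mem_image] at hD
      rcases hD with rfl | rfl | ⟨i, hi, rfl⟩
      · exact hend1
      · exact hendn
      · rw [Finset.mem_Ico] at hi
        have := hb i (hm.2 (by omega)) (hm.2 (by omega))
        omega
    have hfin : F.card ≤ ∑ D ∈ (Ioo 0 n).powerset, e D := by
      calc F.card = ∑ _D ∈ F, 1 := by simp
        _ ≤ ∑ D ∈ F, e D := Finset.sum_le_sum hF1
        _ ≤ _ := Finset.sum_le_sum_of_subset hFP
    omega

end Pool.Agent.R784.SP
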