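import Mathlib
import Pool.Agent.R784.SP.Reg

/-! # Induction (helper784) -/

set_option autoImplicit false

namespace Pool.Agent.R784.SP

open Finset

lemma powerset_filter_subset {X U : Finset ℕ} (hX : X ⊆ U) :
    X.powerset = U.powerset.filter fun D => D ⊆ X := by
  ext D
  rw [Finset.mem_filter, Finset.mem_powerset, Finset.mem_powerset]
  exact ⟨fun h => ⟨h.trans hX, h⟩, fun h => h.2⟩

lemma zz_eq_ct (n : ℕ) (d : Finset ℕ → ℕ) {X : Finset ℕ} (hX : X ⊆ Ioo 0 n) :
    zz d X = ct n d (fun D => D ⊆ X) := by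
  rw [zz, ct, powerset_filter_subset hX]

lemma zz_one (n : ℕ) (d : Finset ℕ → ℕ) (i : ℕ) :
    zz d (Ioo 0 n \ {i}) = ct n d (fun D => i ∉ D) := by
  rw [zz_eq_ct n d Finset.sdiff_subset]
  refine ct_congr fun D hD => ?_
  rw [Finset.subset_sdiff]
  simp [hD]

lemma zz_two (n : ℕ) (d : Finset ℕ → ℕ) (i j : ℕ) :
    zz d (Ioo 0 n \ {i, j}) = ct n d (fun D => i ∉ D ∧ j ∉ D) := by
  rw [zz_eq_ct n d Finset.sdiff_subset]
  refine ct_congr fun D hD => ?_
  rw [Finset.subset_sdiff]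
  simp [hD]

lemma ct_ite (n : ℕ) (e : Finset ℕ → ℕ) (p : Finset ℕ → Prop) [DecidablePred p] :
    ct n e p = ∑ D ∈ (Ioo 0 n).powerset, if p D then e D else 0 := by
  rw [ct, Finset.sum_filter]

lemma ct_in (n : ℕ) (e : Finset ℕ → ℕ) (i : ℕ) :
    ct n e (fun D => i ∈ D) + ct n e (fun D => i ∉ D) = ∑ D ∈ (Ioo 0 n).powerset, e D := by
  rw [ct_ite, ct_ite, ← Finset.sum_add_distrib]
  refine Finset.sum_congr rfl fun D _ => ?_
  by_cases h : i ∈ D <;> simp [h]

lemma ct_in2 (n : ℕ) (e : Finset ℕ → ℕ) (i j : ℕ) :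
    ct n e (fun D => i ∈ D ∧ j ∈ D) + (ct n e (fun D => i ∉ D) + ct n e (fun D => j ∉ D)) =
      ∑ D ∈ (Ioo 0 n).powerset, e D + ct n e (fun D => i ∉ D ∧ j ∉ D) := by
  rw [ct_ite, ct_ite, ct_ite, ct_ite, ← Finset.sum_add_distrib, ← Finset.sum_add_distrib,
    ← Finset.sum_add_distrib]
  refine Finset.sum_congr rfl fun D _ => ?_
  by_cases h : i ∈ D <;> by_cases h' : j ∈ D <;> simp [h, h']

/-- the non-extreme part of `d`. -/
def nx (n : ℕ) (d : Finset ℕ → ℕ) (D : Finset ℕ) : ℕ := if D = ∅ ∨ D = Ioo 0 n then 0 else d D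

lemma ct_nx {n : ℕ} (hn : 2 ≤ n) (d : Finset ℕ → ℕ) (p : Finset ℕ → Prop) [DecidablePred p] :
    ct n d p = ct n (nx n d) p + ((if p ∅ then d ∅ else 0) +
      (if p (Ioo 0 n) then d (Ioo 0 n) else 0)) := by
  have hne : (∅ : Finset ℕ) ≠ Ioo 0 n := by
    intro h
    have : 1 ∈ (∅ : Finset ℕ) := by rw [h, Finset.mem_Ioo]; omega
    simp at this
  have e1 : (if p ∅ then d ∅ else 0) =
      ∑ D ∈ (Ioo 0 n).powerset, if D = ∅ then (if p D then d D else 0) else 0 := by
    rw [Finset.sum_ite_eq']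
    simp
  have e2 : (if p (Ioo 0 n) then d (Ioo 0 n) else 0) =
      ∑ D ∈ (Ioo 0 n).powerset, if D = Ioo 0 n then (if p D then d D else 0) else 0 := by
    rw [Finset.sum_ite_eq']
    simp
  rw [e1, e2, ct_ite, ct_ite, ← Finset.sum_add_distrib, ← Finset.sum_add_distrib]
  refine Finset.sum_congr rfl fun D _ => ?_
  unfold nx
  by_cases h1 : D = ∅
  · subst h1
    simp [hne]
  · by_cases h2 : D = Ioo 0 n
    · subst h2
      simp [Ne.symm hne]
    · simp [h1, h2]

lemma Sy.reg {n : ℕ} (hn : 2 ≤ n) {d : Finset ℕ → ℕ} (h : Sy n d) : Reg n (nx n d) := by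
  have hm : ∀ {i : ℕ}, i ∈ Ioo 0 n ↔ 0 < i ∧ i < n := Finset.mem_Ioo
  refine ⟨?_, ?_, ?_, ?_⟩
  · intro D hD
    refine h.supp D fun h0 => hD ?_
    rw [nx, h0]
    split_ifs <;> rfl
  · intro i hi j hj
    have h1 := h.one hi hj
    rw [zz_one, zz_one] at h1
    have h2 := ct_in n d i
    have h3 := ct_in n d j
    have h4 := ct_nx hn d (fun D => i ∈ D)
    have h5 := ct_nx hn d (fun D => j ∈ D)
    simp only [Finset.notMem_empty, if_false, hi, hj, if_true] at h4 h5
    omega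
  · intro i hi j hj hi' hj'
    have h1 := h.adj hi hi' hj hj'
    rw [zz_two, zz_two] at h1
    have h2 := ct_in2 n d i (i + 1)
    have h3 := ct_in2 n d j (j + 1)
    have h6 := h.one hi hj
    have h7 := h.one hi' hj'
    rw [zz_one, zz_one] at h6 h7
    have h4 := ct_nx hn d (fun D => i ∈ D ∧ i + 1 ∈ D)
    have h5 := ct_nx hn d (fun D => j ∈ D ∧ j + 1 ∈ D)
    simp only [Finset.notMem_empty, if_false, hi, hj, hi', hj', if_true, and_self] at h4 h5
    omega
  · intro i hi j hj i' hi' j' hj' hij hij'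
    have h1 := h.far hi hj hij hi' hj' hij'
    rw [zz_two, zz_two] at h1
    have h2 := ct_in2 n d i j
    have h3 := ct_in2 n d i' j'
    have h6 := h.one hi hi'
    have h7 := h.one hj hj'
    rw [zz_one, zz_one] at h6 h7
    have h4 := ct_nx hn d (fun D => i ∈ D ∧ j ∈ D)
    have h5 := ct_nx hn d (fun D => i' ∈ D ∧ j' ∈ D)
    simp only [Finset.notMem_empty, if_false, hi, hj, hi', hj', if_true, and_self] at h4 h5
    omega

/-- the complementary set function. -/
def cp (n : ℕ) (e : Finset ℕ → ℕ) (D : Finset ℕ) : ℕ := if D ⊆ Ioo 0 n then e (Ioo 0 n \ D) else 0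

lemma ct_cp (n : ℕ) (e : Finset ℕ → ℕ) (p q : Finset ℕ → Prop) [DecidablePred p] [DecidablePred q]
    (h : ∀ D ⊆ Ioo 0 n, p D ↔ q (Ioo 0 n \ D)) : ct n (cp n e) p = ct n e q := by
  unfold ct
  refine Finset.sum_bij' (fun D _ => Ioo 0 n \ D) (fun D _ => Ioo 0 n \ D) ?_ ?_ ?_ ?_ ?_
  · intro D hD
    rw [Finset.mem_filter, Finset.mem_powerset] at hD ⊢
    exact ⟨Finset.sdiff_subset, (h D hD.1).1 hD.2⟩
  · intro D hD
    rw [Finset.mem_filter, Finset.mem_powerset] at hD ⊢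
    refine ⟨Finset.sdiff_subset, (h _ Finset.sdiff_subset).2 ?_⟩
    rw [Finset.sdiff_sdiff_eq_self hD.1]
    exact hD.2
  · intro D hD
    rw [Finset.mem_filter, Finset.mem_powerset] at hD
    exact Finset.sdiff_sdiff_eq_self hD.1
  · intro D hD
    rw [Finset.mem_filter, Finset.mem_powerset] at hD
    exact Finset.sdiff_sdiff_eq_self hD.1
  · intro D hD
    rw [Finset.mem_filter, Finset.mem_powerset] at hD
    rw [cp, if_pos hD.1]

lemma Sy.reg_cp {n : ℕ} (hn : 2 ≤ n) {d : Finset ℕ → ℕ} (h : Sy n d) :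
    Reg n (cp n (nx n d)) := by
  have hm : ∀ {i : ℕ}, i ∈ Ioo 0 n ↔ 0 < i ∧ i < n := Finset.mem_Ioo
  have k1 : ∀ i ∈ Ioo 0 n, ct n (cp n (nx n d)) (fun D => i ∈ D) =
      ct n (nx n d) (fun D => i ∉ D) := by
    intro i hi
    refine ct_cp n _ _ _ fun D _ => ?_
    simp [Finset.mem_sdiff, hi]
  have k2 : ∀ i ∈ Ioo 0 n, ∀ j ∈ Ioo 0 n, ct n (cp n (nx n d)) (fun D => i ∈ D ∧ j ∈ D) =
      ct n (nx n d) (fun D => i ∉ D ∧ j ∉ D) := by
    intro i hi j hj
    refine ct_cp n _ _ _ fun D _ => ?_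
    simp [Finset.mem_sdiff, hi, hj]
  refine ⟨?_, ?_, ?_, ?_⟩
  · intro D hD
    by_contra hD'
    exact hD (if_neg hD')
  · intro i hi j hj
    rw [k1 i hi, k1 j hj]
    have h1 := h.one hi hj
    rw [zz_one, zz_one] at h1
    have h4 := ct_nx hn d (fun D => i ∉ D)
    have h5 := ct_nx hn d (fun D => j ∉ D)
    simp only [Finset.notMem_empty, not_false_iff, hi, hj, not_true, if_false, if_true] at h4 h5
    omega
  · intro i hi j hj hi' hj'
    rw [k2 i hi _ hi', k2 j hj _ hj']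
    have h1 := h.adj hi hi' hj hj'
    rw [zz_two, zz_two] at h1
    have h4 := ct_nx hn d (fun D => i ∉ D ∧ i + 1 ∉ D)
    have h5 := ct_nx hn d (fun D => j ∉ D ∧ j + 1 ∉ D)
    simp only [Finset.notMem_empty, not_false_iff, hi, hj, hi', hj', not_true, if_false, if_true,
      and_self] at h4 h5
    omega
  · intro i hi j hj i' hi' j' hj' hij hij'
    rw [k2 i hi _ hj, k2 i' hi' _ hj']
    have h1 := h.far hi hj hij hi' hj' hij'
    rw [zz_two, zz_two] at h1
    have h4 := ct_nx hn d (fun D => i ∉ D ∧ j ∉ D)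
    have h5 := ct_nx hn d (fun D => i' ∉ D ∧ j' ∉ D)
    simp only [Finset.notMem_empty, not_false_iff, hi, hj, hi', hj', not_true, if_false, if_true,
      and_self] at h4 h5
    omega

/-- total of the non-extreme part. -/
def nt (n : ℕ) (d : Finset ℕ → ℕ) : ℕ := ∑ D ∈ (Ioo 0 n).powerset, nx n d D

/-- the possible values of the non-extreme part. -/
def Out (n : ℕ) (d : Finset ℕ → ℕ) : Prop :=
  (∀ D, nx n d D = 0) ∨
    (∀ D, nx n d D = if D ∈ (Ioo 0 n).image (fun i => ({i} : Finset ℕ)) then 1 else 0) ∨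
    (∀ D, cp n (nx n d) D = if D ∈ (Ioo 0 n).image (fun i => ({i} : Finset ℕ)) then 1 else 0)

theorem classify {n : ℕ} (hn : 4 ≤ n) {d : Finset ℕ → ℕ} (h : Sy n d) (ht : nt n d ≤ n - 1)
    (hp : ct n d (fun D => 1 ∈ D ∧ n - 1 ∈ D) = d (Ioo 0 n) ∨
      ct n d (fun D => 1 ∉ D ∧ n - 1 ∉ D) = d ∅) : Out n d := by
  have h1m : 1 ∈ Ioo 0 n := Finset.mem_Ioo.2 (by omega)
  have hnm : n - 1 ∈ Ioo 0 n := Finset.mem_Ioo.2 (by omega)
  rcases hp with hp | hp
  · have h1 := ct_nx (n := n) (by omega) d (fun D => 1 ∈ D ∧ n - 1 ∈ D)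
    simp only [Finset.notMem_empty, if_false, h1m, hnm, if_true, and_self] at h1
    rcases struct_of hn (h.reg (by omega)) (by simp [nx]) (by omega) ht with h2 | h2
    · exact Or.inl h2
    · exact Or.inr (Or.inl h2)
  · have h1 := ct_nx (n := n) (by omega) d (fun D => 1 ∉ D ∧ n - 1 ∉ D)
    simp only [Finset.notMem_empty, not_false_iff, h1m, hnm, not_true, if_false, if_true,
      and_self] at h1
    have k2 : ct n (cp n (nx n d)) (fun D => 1 ∈ D ∧ n - 1 ∈ D) =
        ct n (nx n d) (fun D => 1 ∉ D ∧ n - 1 ∉ D) := by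
      refine ct_cp n _ _ _ fun D _ => ?_
      simp only [Finset.mem_sdiff, h1m, hnm, true_and, not_not]
    have k3 : ∑ D ∈ (Ioo 0 n).powerset, cp n (nx n d) D ≤ n - 1 := by
      refine le_trans (le_of_eq ?_) ht
      have := ct_cp n (nx n d) (fun _ => True) (fun _ => True) (fun _ _ => by simp)
      simpa [ct, nt] using this
    rcases struct_of hn (h.reg_cp (by omega)) (by simp [cp, nx]) (by omega) k3 with h2 | h2
    · left
      intro D
      by_cases hD : D ⊆ Ioo 0 n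
      · have h3 := h2 (Ioo 0 n \ D)
        rw [cp, if_pos Finset.sdiff_subset, Finset.sdiff_sdiff_eq_self hD] at h3
        exact h3
      · by_contra hne
        exact hD ((h.reg (by omega)).supp D hne)
    · exact Or.inr (Or.inr h2)

/-! ### Restriction -/

/-- sum over the sets with property `q` with a given trace. -/
def dq (n : ℕ) (d : Finset ℕ → ℕ) (q : Finset ℕ → Prop) [DecidablePred q] (E : Finset ℕ) : ℕ :=
  ∑ D ∈ (Ioo 0 n).powerset with q D ∧ D ∩ Ioo 0 (n - 2) = E, d D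

lemma zz_dq (n : ℕ) (d : Finset ℕ → ℕ) (q : Finset ℕ → Prop) [DecidablePred q] (E : Finset ℕ) :
    zz (dq n d q) E = ct n d (fun D => q D ∧ D ∩ Ioo 0 (n - 2) ⊆ E) := by
  unfold zz dq ct
  rw [← Finset.sum_fiberwise_of_maps_to
    (s := (Ioo 0 n).powerset.filter fun D => q D ∧ D ∩ Ioo 0 (n - 2) ⊆ E)
    (t := E.powerset) (g := fun D => D ∩ Ioo 0 (n - 2))
    (fun D hD => Finset.mem_powerset.2 (Finset.mem_filter.1 hD).2.2)]
  refine Finset.sum_congr rfl fun E' hE' => ?_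
  refine Finset.sum_congr ?_ fun _ _ => rfl
  ext D
  rw [Finset.mem_powerset] at hE'
  simp only [Finset.mem_filter]
  constructor
  · rintro ⟨h1, h2, rfl⟩
    exact ⟨⟨h1, h2, hE'⟩, rfl⟩
  · rintro ⟨⟨h1, h2, -⟩, h3⟩
    exact ⟨h1, h2, h3⟩

lemma nt_dq {n : ℕ} (hn : 3 ≤ n) (d : Finset ℕ → ℕ) (q : Finset ℕ → Prop) [DecidablePred q] :
    nt (n - 2) (dq n d q) ≤ ct n (nx n d) q := by
  have h1 : nt (n - 2) (dq n d q) = ∑ D ∈ (Ioo 0 n).powerset with
      q D ∧ ¬ (D ∩ Ioo 0 (n - 2) = ∅ ∨ D ∩ Ioo 0 (n - 2) = Ioo 0 (n - 2)), d D := by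
    rw [← Finset.sum_fiberwise_of_maps_to
      (s := (Ioo 0 n).powerset.filter fun D =>
        q D ∧ ¬ (D ∩ Ioo 0 (n - 2) = ∅ ∨ D ∩ Ioo 0 (n - 2) = Ioo 0 (n - 2)))
      (t := (Ioo 0 (n - 2)).powerset) (g := fun D => D ∩ Ioo 0 (n - 2))
      (fun D _ => Finset.mem_powerset.2 Finset.inter_subset_right)]
    unfold nt nx dq
    refine Finset.sum_congr rfl fun E _ => ?_
    split_ifs with hE
    · symm
      refine Finset.sum_eq_zero fun D hD => ?_
      exfalso
      simp only [Finset.mem_filter] at hD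
      obtain ⟨⟨_, _, h2⟩, h3⟩ := hD
      rw [h3] at h2
      exact h2 hE
    · refine Finset.sum_congr ?_ fun _ _ => rfl
      ext D
      simp only [Finset.mem_filter]
      constructor
      · rintro ⟨h1, h2, rfl⟩
        exact ⟨⟨h1, h2, hE⟩, rfl⟩
      · rintro ⟨⟨h1, h2, -⟩, h3⟩
        exact ⟨h1, h2, h3⟩
  rw [h1, ct]
  have h2 : ∀ D ∈ (Ioo 0 n).powerset.filter (fun D =>
      q D ∧ ¬ (D ∩ Ioo 0 (n - 2) = ∅ ∨ D ∩ Ioo 0 (n - 2) = Ioo 0 (n - 2))), d D = nx n d D := by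
    intro D hD
    rw [Finset.mem_filter] at hD
    rw [nx, if_neg]
    rintro (rfl | rfl)
    · exact hD.2.2 (Or.inl (by simp))
    · refine hD.2.2 (Or.inr ?_)
      rw [Finset.inter_eq_right]
      intro i hi
      rw [Finset.mem_Ioo] at hi ⊢
      omega
  rw [Finset.sum_congr rfl h2]
  refine Finset.sum_le_sum_of_subset ?_
  intro D hD
  rw [Finset.mem_filter] at hD ⊢
  exact ⟨hD.1, hD.2.1⟩

lemma trace_of {n : ℕ} {d : Finset ℕ → ℕ} {q : Finset ℕ → Prop} [DecidablePred q]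
    (h : ∀ E, nx (n - 2) (dq n d q) E = 0) {D : Finset ℕ} (hD : D ⊆ Ioo 0 n) (hq : q D)
    (hd : d D ≠ 0) : D ∩ Ioo 0 (n - 2) = ∅ ∨ D ∩ Ioo 0 (n - 2) = Ioo 0 (n - 2) := by
  by_contra hne
  have h1 := h (D ∩ Ioo 0 (n - 2))
  rw [nx, if_neg hne, dq, Finset.sum_eq_zero_iff] at h1
  exact hd (h1 D (Finset.mem_filter.2 ⟨Finset.mem_powerset.2 hD, hq, rfl⟩))

lemma dq_supp {n : ℕ} {d : Finset ℕ → ℕ} {q : Finset ℕ → Prop} [DecidablePred q] (E : Finset ℕ)
    (h : dq n d q E ≠ 0) : E ⊆ Ioo 0 (n - 2) := by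
  unfold dq at h
  obtain ⟨D, hD, -⟩ := Finset.exists_ne_zero_of_sum_ne_zero h
  rw [Finset.mem_filter] at hD
  rw [← hD.2.2]
  exact Finset.inter_subset_right

lemma zz_ins1 {n : ℕ} (hn : 3 ≤ n) (d : Finset ℕ → ℕ) {E : Finset ℕ} (hE : E ⊆ Ioo 0 (n - 2)) :
    zz d (insert (n - 2) E) = zz (dq n d (fun D => n - 1 ∉ D)) E := by
  have hs : insert (n - 2) E ⊆ Ioo 0 n := by
    intro i hi
    rw [Finset.mem_insert] at hi
    rcases hi with rfl | hi
    · rw [Finset.mem_Ioo]; omega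
    · have := Finset.mem_Ioo.1 (hE hi)
      rw [Finset.mem_Ioo]; omega
  rw [zz_dq, zz_eq_ct n d hs]
  refine ct_congr fun D hD => ?_
  constructor
  · intro h
    refine ⟨fun h1 => ?_, fun i hi => ?_⟩
    · have h2 := h h1
      rw [Finset.mem_insert] at h2
      rcases h2 with h2 | h2
      · omega
      · have := Finset.mem_Ioo.1 (hE h2)
        omega
    · rw [Finset.mem_inter, Finset.mem_Ioo] at hi
      have h2 := h hi.1
      rw [Finset.mem_insert] at h2
      rcases h2 with h2 | h2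
      · omega
      · exact h2
  · rintro ⟨h1, h2⟩ i hi
    have h3 := Finset.mem_Ioo.1 (hD hi)
    rw [Finset.mem_insert]
    by_cases h4 : i = n - 2
    · exact Or.inl h4
    · right
      apply h2
      rw [Finset.mem_inter, Finset.mem_Ioo]
      have : i ≠ n - 1 := fun h => h1 (h ▸ hi)
      exact ⟨hi, by omega⟩

lemma zz_ins2 {n : ℕ} (hn : 3 ≤ n) (d : Finset ℕ → ℕ) {E : Finset ℕ} (hE : E ⊆ Ioo 0 (n - 2)) :
    zz d (insert (n - 1) (insert (n - 2) E)) =
      zz (dq n d (fun D => n - 1 ∈ D)) E + zz (dq n d (fun D => n - 1 ∉ D)) E := by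
  have hs : insert (n - 1) (insert (n - 2) E) ⊆ Ioo 0 n := by
    intro i hi
    rw [Finset.mem_insert, Finset.mem_insert] at hi
    rcases hi with rfl | rfl | hi
    · rw [Finset.mem_Ioo]; omega
    · rw [Finset.mem_Ioo]; omega
    · have := Finset.mem_Ioo.1 (hE hi)
      rw [Finset.mem_Ioo]; omega
  rw [zz_dq, zz_dq, zz_eq_ct n d hs, ct_ite, ct_ite, ct_ite, ← Finset.sum_add_distrib]
  refine Finset.sum_congr rfl fun D hD => ?_
  rw [Finset.mem_powerset] at hD
  have key : D ⊆ insert (n - 1) (insert (n - 2) E) ↔ D ∩ Ioo 0 (n - 2) ⊆ E := by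
    constructor
    · intro h i hi
      rw [Finset.mem_inter, Finset.mem_Ioo] at hi
      have h2 := h hi.1
      rw [Finset.mem_insert, Finset.mem_insert] at h2
      rcases h2 with h2 | h2 | h2
      · omega
      · omega
      · exact h2
    · intro h2 i hi
      have h3 := Finset.mem_Ioo.1 (hD hi)
      rw [Finset.mem_insert, Finset.mem_insert]
      by_cases h4 : i = n - 2
      · exact Or.inr (Or.inl h4)
      · by_cases h5 : i = n - 1
        · exact Or.inl h5
        · right; right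
          apply h2
          rw [Finset.mem_inter, Finset.mem_Ioo]
          exact ⟨hi, by omega⟩
  rw [if_congr key rfl rfl]
  by_cases h1 : n - 1 ∈ D <;> by_cases h2 : D ∩ Ioo 0 (n - 2) ⊆ E <;> simp [h1, h2]

lemma Sy.dq_out {n : ℕ} (hn : 3 ≤ n) {d : Finset ℕ → ℕ} (h : Sy n d) :
    Sy (n - 2) (dq n d (fun D => n - 1 ∉ D)) := by
  refine ⟨dq_supp, fun l l' hl hs => ?_⟩
  rw [← zz_ins1 hn d (psl_sub _ _), ← zz_ins1 hn d (psl_sub _ _),
    ← psl_snoc (n := n) (x := 2) hs (by omega) (by omega) (by omega),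
    ← psl_snoc (n := n) (x := 2) (by rw [← hl.sum_eq, hs]) (by omega) (by omega) (by omega)]
  refine h.symm _ _ (hl.append_right _) ?_
  rw [List.sum_append, hs, List.sum_singleton]; omega

lemma Sy.dq_in {n : ℕ} (hn : 3 ≤ n) {d : Finset ℕ → ℕ} (h : Sy n d) :
    Sy (n - 2) (dq n d (fun D => n - 1 ∈ D)) := by
  refine ⟨dq_supp, fun l l' hl hs => ?_⟩
  have h1 := (h.dq_out hn).symm l l' hl hs
  have h2 := zz_ins2 hn d (psl_sub (n - 2) l)
  have h3 := zz_ins2 hn d (psl_sub (n - 2) l')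
  have hs' : l'.sum = n - 2 := by rw [← hl.sum_eq, hs]
  have e : ∀ l : List ℕ, l.sum = n - 2 →
      insert (n - 1) (insert (n - 2) (psl (n - 2) l)) = psl n (l ++ [1] ++ [1]) := by
    intro l hl
    rw [← psl_snoc (n := n - 1) (x := 1) hl (by omega) (by omega) (by omega),
      ← psl_snoc (n := n) (x := 1) (by rw [List.sum_append, hl, List.sum_singleton]; omega)
        (by omega) (by omega) (by omega)]
  rw [e l hs] at h2
  rw [e l' hs'] at h3
  have h4 := h.symm _ _ ((hl.append_right [1]).append_right [1]) (by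
    rw [List.sum_append, List.sum_append, hs]
    simp; omega)
  omega

/-- The inductive step. -/
theorem step {n : ℕ} (hn : 7 ≤ n) {d : Finset ℕ → ℕ} (h : Sy n d) (ht : nt n d ≤ n - 1)
    (IH : ∀ d : Finset ℕ → ℕ, Sy (n - 2) d → nt (n - 2) d ≤ n - 2 - 2 → ∀ D, nx (n - 2) d D = 0) :
    ct n d (fun D => 1 ∈ D ∧ n - 1 ∈ D) = d (Ioo 0 n) ∨
      ct n d (fun D => 1 ∉ D ∧ n - 1 ∉ D) = d ∅ := by
  have h1m : 1 ∈ Ioo 0 n := Finset.mem_Ioo.2 (by omega)
  have hnm : n - 1 ∈ Ioo 0 n := Finset.mem_Ioo.2 (by omega)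
  have k1 := nt_dq (n := n) (by omega) d (fun D => n - 1 ∈ D)
  have k2 := nt_dq (n := n) (by omega) d (fun D => n - 1 ∉ D)
  have k3 := ct_in n (nx n d) (n - 1)
  unfold nt at ht
  by_cases hc : nt (n - 2) (dq n d (fun D => n - 1 ∈ D)) ≤ n - 2 - 2
  · left
    have h0 := IH _ (h.dq_in (by omega)) hc
    unfold ct
    rw [Finset.sum_eq_single (Ioo 0 n)]
    · intro D hD hne
      rw [Finset.mem_filter, Finset.mem_powerset] at hD
      by_contra hd
      apply hne
      have key : ∀ D, D ⊆ Ioo 0 n → 1 ∈ D → n - 1 ∈ D → d D ≠ 0 → ∀ i, 0 < i → i < n - 2 → i ∈ D := by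
        intro D hD h1 h2 hd i hi hi'
        rcases trace_of h0 hD h2 hd with h3 | h3
        · exfalso
          have : 1 ∈ D ∩ Ioo 0 (n - 2) := by
            rw [Finset.mem_inter, Finset.mem_Ioo]
            exact ⟨h1, by omega⟩
          rw [h3] at this
          simp at this
        · have : i ∈ D ∩ Ioo 0 (n - 2) := by
            rw [h3, Finset.mem_Ioo]
            omega
          exact (Finset.mem_inter.1 this).1
      refine Finset.Subset.antisymm hD.1 fun i hi => ?_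
      have hi' := Finset.mem_Ioo.1 hi
      by_cases hlt : i < n - 2
      · exact key D hD.1 hD.2.1 hD.2.2 hd i hi'.1 hlt
      · have h5 : n - i ∈ rv n D := by
          refine key (rv n D) (rv_sub hD.1) ?_ ?_ (by rwa [h.rev (by omega) D hD.1]) _ (by omega)
            (by omega)
          · rw [mem_rv hD.1 h1m]; exact hD.2.2
          · rw [mem_rv hD.1 hnm, show n - (n - 1) = 1 by omega]; exact hD.2.1
        rw [mem_rv hD.1 (Finset.mem_Ioo.2 (by omega)), show n - (n - i) = i by omega] at h5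
        exact h5
    · intro hD
      exfalso
      apply hD
      rw [Finset.mem_filter, Finset.mem_powerset]
      exact ⟨Finset.Subset.refl _, h1m, hnm⟩
  · right
    have hc2 : nt (n - 2) (dq n d (fun D => n - 1 ∉ D)) ≤ n - 2 - 2 := by
      omega
    have h0 := IH _ (h.dq_out (by omega)) hc2
    unfold ct
    rw [Finset.sum_eq_single ∅]
    · intro D hD hne
      rw [Finset.mem_filter, Finset.mem_powerset] at hD
      by_contra hd
      apply hne
      have key : ∀ D, D ⊆ Ioo 0 n → 1 ∉ D → n - 1 ∉ D → d D ≠ 0 → ∀ i, 0 < i → i < n - 2 → i ∉ D := by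
        intro D hD h1 h2 hd i hi hi' hiD
        rcases trace_of h0 hD h2 hd with h3 | h3
        · have : i ∈ D ∩ Ioo 0 (n - 2) := by
            rw [Finset.mem_inter, Finset.mem_Ioo]
            exact ⟨hiD, by omega⟩
          rw [h3] at this
          simp at this
        · have : 1 ∈ D ∩ Ioo 0 (n - 2) := by
            rw [h3, Finset.mem_Ioo]
            omega
          exact h1 (Finset.mem_inter.1 this).1
      rw [Finset.eq_empty_iff_forall_notMem]
      intro i hiD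
      have hi' := Finset.mem_Ioo.1 (hD.1 hiD)
      by_cases hlt : i < n - 2
      · exact key D hD.1 hD.2.1 hD.2.2 hd i hi'.1 hlt hiD
      · refine key (rv n D) (rv_sub hD.1) ?_ ?_ (by rwa [h.rev (by omega) D hD.1]) (n - i)
          (by omega) (by omega) ?_
        · rw [mem_rv hD.1 h1m]; exact hD.2.2
        · rw [mem_rv hD.1 hnm, show n - (n - 1) = 1 by omega]; exact hD.2.1
        · rw [mem_rv hD.1 (Finset.mem_Ioo.2 (by omega)), show n - (n - i) = i by omega]
          exact hiD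
    · intro hD
      exfalso
      apply hD
      rw [Finset.mem_filter, Finset.mem_powerset]
      simp

end Pool.Agent.R784.SP
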