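import Mathlib
import Pool.Agent.R784.SP.Ind

/-! # Small cases (helper784) -/

set_option autoImplicit false

namespace Pool.Agent.R784.SP

open Finset

lemma zz_insert (d : Finset ℕ → ℕ) {a : ℕ} {E : Finset ℕ} (h : a ∉ E) :
    zz d (insert a E) = zz d E + zz (fun D => d (insert a D)) E := by
  rw [zz, zz, zz, Finset.sum_powerset_insert h]

lemma zz_empty (d : Finset ℕ → ℕ) : zz d ∅ = d ∅ := by simp [zz]

lemma zz_singleton (d : Finset ℕ → ℕ) (a : ℕ) : zz d {a} = d ∅ + d {a} := by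
  rw [← insert_empty_eq, zz_insert d (by simp), zz_empty, zz_empty]

lemma zz_total {n : ℕ} (hn : 2 ≤ n) (d : Finset ℕ → ℕ) :
    zz d (Ioo 0 n) = nt n d + (d ∅ + d (Ioo 0 n)) := by
  have h := ct_nx hn d (fun _ => True)
  simpa [ct, zz, nt] using h

lemma nx_le (n : ℕ) (d : Finset ℕ → ℕ) (D : Finset ℕ) : nx n d D ≤ d D := by
  unfold nx
  split_ifs <;> omega

lemma nx_zero {n : ℕ} {d : Finset ℕ → ℕ} {D : Finset ℕ} (h : d D = 0) : nx n d D = 0 :=
  Nat.le_zero.1 (h ▸ nx_le n d D)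

/-- the linear relations for `n = 3`. -/
lemma rel3 {d : Finset ℕ → ℕ} (h : Sy 3 d) :
    (d ∅ + d {2}
      = d ∅ + d {1}) := by
  have h1 := h.symm [2, 1] [1, 2] (by decide) (by decide)
  rw [show psl 3 [2, 1] = {2} by decide,
    show psl 3 [1, 2] = {1} by decide] at h1
  simp (decide := true) only [zz_insert, zz_singleton, insert_empty_eq] at h1
  omega

lemma tot3 (d : Finset ℕ → ℕ) : nt 3 d + (d ∅ + d {1, 2})
    = d ∅ + d {1} + d {2} + d {1, 2} := by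
  have h1 := zz_total (n := 3) (by norm_num) d
  rw [show Ioo 0 3 = {1, 2} by decide] at h1
  rw [← h1]
  simp (decide := true) only [zz_insert, zz_singleton, insert_empty_eq]
  omega

lemma cases3 {D : Finset ℕ} (h : D ⊆ Ioo 0 3) :
    D = ∅ ∨ D = {1} ∨ D = {2} ∨ D = {1, 2} := by
  have h1 : D ∈ (Ioo 0 3).powerset := Finset.mem_powerset.2 h
  rw [show (Ioo 0 3).powerset = {∅, {1}, {2}, {1, 2}} by decide] at h1
  simpa only [Finset.mem_insert, Finset.mem_singleton] using h1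

/-- the linear relations for `n = 4`. -/
lemma rel4 {d : Finset ℕ → ℕ} (h : Sy 4 d) :
    (d ∅ + d {3}
      = d ∅ + d {1}) ∧
    (d ∅ + d {1} + d {3} + d {1, 3}
      = d ∅ + d {1} + d {2} + d {1, 2}) ∧
    (d ∅ + d {2} + d {3} + d {2, 3}
      = d ∅ + d {1} + d {2} + d {1, 2}) := by
  refine ⟨?_, ?_, ?_⟩
  · have h1 := h.symm [3, 1] [1, 3] (by decide) (by decide)
    rw [show psl 4 [3, 1] = {3} by decide,
      show psl 4 [1, 3] = {1} by decide] at h1
    simp (decide := true) only [zz_insert, zz_singleton, insert_empty_eq] at h1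
    omega
  · have h1 := h.symm [1, 2, 1] [1, 1, 2] (by decide) (by decide)
    rw [show psl 4 [1, 2, 1] = {1, 3} by decide,
      show psl 4 [1, 1, 2] = {1, 2} by decide] at h1
    simp (decide := true) only [zz_insert, zz_singleton, insert_empty_eq] at h1
    omega
  · have h1 := h.symm [2, 1, 1] [1, 1, 2] (by decide) (by decide)
    rw [show psl 4 [2, 1, 1] = {2, 3} by decide,
      show psl 4 [1, 1, 2] = {1, 2} by decide] at h1
    simp (decide := true) only [zz_insert, zz_singleton, insert_empty_eq] at h1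
    omega

lemma tot4 (d : Finset ℕ → ℕ) : nt 4 d + (d ∅ + d {1, 2, 3})
    = d ∅ + d {1} + d {2} + d {3} + d {1, 2} + d {1, 3} + d {2, 3} + d {1, 2, 3} := by
  have h1 := zz_total (n := 4) (by norm_num) d
  rw [show Ioo 0 4 = {1, 2, 3} by decide] at h1
  rw [← h1]
  simp (decide := true) only [zz_insert, zz_singleton, insert_empty_eq]
  omega

lemma cases4 {D : Finset ℕ} (h : D ⊆ Ioo 0 4) :
    D = ∅ ∨ D = {1} ∨ D = {2} ∨ D = {3} ∨ D = {1, 2} ∨ D = {1, 3} ∨ D = {2, 3} ∨ D = {1, 2, 3} := by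
  have h1 : D ∈ (Ioo 0 4).powerset := Finset.mem_powerset.2 h
  rw [show (Ioo 0 4).powerset = {∅, {1}, {2}, {3}, {1, 2}, {1, 3}, {2, 3}, {1, 2, 3}} by decide] at h1
  simpa only [Finset.mem_insert, Finset.mem_singleton] using h1

/-- the linear relations for `n = 5`. -/
lemma rel5 {d : Finset ℕ → ℕ} (h : Sy 5 d) :
    (d ∅ + d {3}
      = d ∅ + d {2}) ∧
    (d ∅ + d {4}
      = d ∅ + d {1}) ∧
    (d ∅ + d {1} + d {4} + d {1, 4}
      = d ∅ + d {1} + d {2} + d {1, 2}) ∧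
    (d ∅ + d {2} + d {3} + d {2, 3}
      = d ∅ + d {1} + d {3} + d {1, 3}) ∧
    (d ∅ + d {2} + d {4} + d {2, 4}
      = d ∅ + d {1} + d {3} + d {1, 3}) ∧
    (d ∅ + d {3} + d {4} + d {3, 4}
      = d ∅ + d {1} + d {2} + d {1, 2}) ∧
    (d ∅ + d {1} + d {2} + d {4} + d {1, 2} + d {1, 4} + d {2, 4} + d {1, 2, 4}
      = d ∅ + d {1} + d {2} + d {3} + d {1, 2} + d {1, 3} + d {2, 3} + d {1, 2, 3}) ∧
    (d ∅ + d {1} + d {3} + d {4} + d {1, 3} + d {1, 4} + d {3, 4} + d {1, 3, 4}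
      = d ∅ + d {1} + d {2} + d {3} + d {1, 2} + d {1, 3} + d {2, 3} + d {1, 2, 3}) ∧
    (d ∅ + d {2} + d {3} + d {4} + d {2, 3} + d {2, 4} + d {3, 4} + d {2, 3, 4}
      = d ∅ + d {1} + d {2} + d {3} + d {1, 2} + d {1, 3} + d {2, 3} + d {1, 2, 3}) := by
  refine ⟨?_, ?_, ?_, ?_, ?_, ?_, ?_, ?_, ?_⟩
  · have h1 := h.symm [3, 2] [2, 3] (by decide) (by decide)
    rw [show psl 5 [3, 2] = {3} by decide,
      show psl 5 [2, 3] = {2} by decide] at h1
    simp (decide := true) only [zz_insert, zz_singleton, insert_empty_eq] at h1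
    omega
  · have h1 := h.symm [4, 1] [1, 4] (by decide) (by decide)
    rw [show psl 5 [4, 1] = {4} by decide,
      show psl 5 [1, 4] = {1} by decide] at h1
    simp (decide := true) only [zz_insert, zz_singleton, insert_empty_eq] at h1
    omega
  · have h1 := h.symm [1, 3, 1] [1, 1, 3] (by decide) (by decide)
    rw [show psl 5 [1, 3, 1] = {1, 4} by decide,
      show psl 5 [1, 1, 3] = {1, 2} by decide] at h1
    simp (decide := true) only [zz_insert, zz_singleton, insert_empty_eq] at h1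
    omega
  · have h1 := h.symm [2, 1, 2] [1, 2, 2] (by decide) (by decide)
    rw [show psl 5 [2, 1, 2] = {2, 3} by decide,
      show psl 5 [1, 2, 2] = {1, 3} by decide] at h1
    simp (decide := true) only [zz_insert, zz_singleton, insert_empty_eq] at h1
    omega
  · have h1 := h.symm [2, 2, 1] [1, 2, 2] (by decide) (by decide)
    rw [show psl 5 [2, 2, 1] = {2, 4} by decide,
      show psl 5 [1, 2, 2] = {1, 3} by decide] at h1
    simp (decide := true) only [zz_insert, zz_singleton, insert_empty_eq] at h1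
    omega
  · have h1 := h.symm [3, 1, 1] [1, 1, 3] (by decide) (by decide)
    rw [show psl 5 [3, 1, 1] = {3, 4} by decide,
      show psl 5 [1, 1, 3] = {1, 2} by decide] at h1
    simp (decide := true) only [zz_insert, zz_singleton, insert_empty_eq] at h1
    omega
  · have h1 := h.symm [1, 1, 2, 1] [1, 1, 1, 2] (by decide) (by decide)
    rw [show psl 5 [1, 1, 2, 1] = {1, 2, 4} by decide,
      show psl 5 [1, 1, 1, 2] = {1, 2, 3} by decide] at h1
    simp (decide := true) only [zz_insert, zz_singleton, insert_empty_eq] at h1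
    omega
  · have h1 := h.symm [1, 2, 1, 1] [1, 1, 1, 2] (by decide) (by decide)
    rw [show psl 5 [1, 2, 1, 1] = {1, 3, 4} by decide,
      show psl 5 [1, 1, 1, 2] = {1, 2, 3} by decide] at h1
    simp (decide := true) only [zz_insert, zz_singleton, insert_empty_eq] at h1
    omega
  · have h1 := h.symm [2, 1, 1, 1] [1, 1, 1, 2] (by decide) (by decide)
    rw [show psl 5 [2, 1, 1, 1] = {2, 3, 4} by decide,
      show psl 5 [1, 1, 1, 2] = {1, 2, 3} by decide] at h1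
    simp (decide := true) only [zz_insert, zz_singleton, insert_empty_eq] at h1
    omega

lemma tot5 (d : Finset ℕ → ℕ) : nt 5 d + (d ∅ + d {1, 2, 3, 4})
    = d ∅ + d {1} + d {2} + d {3} + d {4} + d {1, 2} + d {1, 3} + d {1, 4} + d {2, 3} + d {2, 4} + d {3, 4} + d {1, 2, 3} + d {1, 2, 4} + d {1, 3, 4} + d {2, 3, 4} + d {1, 2, 3, 4} := by
  have h1 := zz_total (n := 5) (by norm_num) d
  rw [show Ioo 0 5 = {1, 2, 3, 4} by decide] at h1
  rw [← h1]
  simp (decide := true) only [zz_insert, zz_singleton, insert_empty_eq]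
  omega

lemma cases5 {D : Finset ℕ} (h : D ⊆ Ioo 0 5) :
    D = ∅ ∨ D = {1} ∨ D = {2} ∨ D = {3} ∨ D = {4} ∨ D = {1, 2} ∨ D = {1, 3} ∨ D = {1, 4} ∨ D = {2, 3} ∨ D = {2, 4} ∨ D = {3, 4} ∨ D = {1, 2, 3} ∨ D = {1, 2, 4} ∨ D = {1, 3, 4} ∨ D = {2, 3, 4} ∨ D = {1, 2, 3, 4} := by
  have h1 : D ∈ (Ioo 0 5).powerset := Finset.mem_powerset.2 h
  rw [show (Ioo 0 5).powerset = {∅, {1}, {2}, {3}, {4}, {1, 2}, {1, 3}, {1, 4}, {2, 3}, {2, 4}, {3, 4}, {1, 2, 3}, {1, 2, 4}, {1, 3, 4}, {2, 3, 4}, {1, 2, 3, 4}} by decide] at h1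
  simpa only [Finset.mem_insert, Finset.mem_singleton] using h1

/-- the linear relations for `n = 6`. -/
lemma rel6 {d : Finset ℕ → ℕ} (h : Sy 6 d) :
    (d ∅ + d {4}
      = d ∅ + d {2}) ∧
    (d ∅ + d {5}
      = d ∅ + d {1}) ∧
    (d ∅ + d {1} + d {4} + d {1, 4}
      = d ∅ + d {1} + d {3} + d {1, 3}) ∧
    (d ∅ + d {1} + d {5} + d {1, 5}
      = d ∅ + d {1} + d {2} + d {1, 2}) ∧
    (d ∅ + d {2} + d {3} + d {2, 3}
      = d ∅ + d {1} + d {3} + d {1, 3}) ∧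
    (d ∅ + d {2} + d {5} + d {2, 5}
      = d ∅ + d {1} + d {3} + d {1, 3}) ∧
    (d ∅ + d {3} + d {4} + d {3, 4}
      = d ∅ + d {1} + d {3} + d {1, 3}) ∧
    (d ∅ + d {3} + d {5} + d {3, 5}
      = d ∅ + d {1} + d {3} + d {1, 3}) ∧
    (d ∅ + d {4} + d {5} + d {4, 5}
      = d ∅ + d {1} + d {2} + d {1, 2}) ∧
    (d ∅ + d {1} + d {2} + d {5} + d {1, 2} + d {1, 5} + d {2, 5} + d {1, 2, 5}
      = d ∅ + d {1} + d {2} + d {3} + d {1, 2} + d {1, 3} + d {2, 3} + d {1, 2, 3}) ∧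
    (d ∅ + d {1} + d {3} + d {4} + d {1, 3} + d {1, 4} + d {3, 4} + d {1, 3, 4}
      = d ∅ + d {1} + d {2} + d {4} + d {1, 2} + d {1, 4} + d {2, 4} + d {1, 2, 4}) ∧
    (d ∅ + d {1} + d {3} + d {5} + d {1, 3} + d {1, 5} + d {3, 5} + d {1, 3, 5}
      = d ∅ + d {1} + d {2} + d {4} + d {1, 2} + d {1, 4} + d {2, 4} + d {1, 2, 4}) ∧
    (d ∅ + d {1} + d {4} + d {5} + d {1, 4} + d {1, 5} + d {4, 5} + d {1, 4, 5}
      = d ∅ + d {1} + d {2} + d {3} + d {1, 2} + d {1, 3} + d {2, 3} + d {1, 2, 3}) ∧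
    (d ∅ + d {2} + d {3} + d {4} + d {2, 3} + d {2, 4} + d {3, 4} + d {2, 3, 4}
      = d ∅ + d {1} + d {2} + d {4} + d {1, 2} + d {1, 4} + d {2, 4} + d {1, 2, 4}) ∧
    (d ∅ + d {2} + d {3} + d {5} + d {2, 3} + d {2, 5} + d {3, 5} + d {2, 3, 5}
      = d ∅ + d {1} + d {2} + d {4} + d {1, 2} + d {1, 4} + d {2, 4} + d {1, 2, 4}) ∧
    (d ∅ + d {2} + d {4} + d {5} + d {2, 4} + d {2, 5} + d {4, 5} + d {2, 4, 5}
      = d ∅ + d {1} + d {2} + d {4} + d {1, 2} + d {1, 4} + d {2, 4} + d {1, 2, 4}) ∧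
    (d ∅ + d {3} + d {4} + d {5} + d {3, 4} + d {3, 5} + d {4, 5} + d {3, 4, 5}
      = d ∅ + d {1} + d {2} + d {3} + d {1, 2} + d {1, 3} + d {2, 3} + d {1, 2, 3}) ∧
    (d ∅ + d {1} + d {2} + d {3} + d {5} + d {1, 2} + d {1, 3} + d {1, 5} + d {2, 3} + d {2, 5} + d {3, 5} + d {1, 2, 3} + d {1, 2, 5} + d {1, 3, 5} + d {2, 3, 5} + d {1, 2, 3, 5}
      = d ∅ + d {1} + d {2} + d {3} + d {4} + d {1, 2} + d {1, 3} + d {1, 4} + d {2, 3} + d {2, 4} + d {3, 4} + d {1, 2, 3} + d {1, 2, 4} + d {1, 3, 4} + d {2, 3, 4} + d {1, 2, 3, 4}) ∧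
    (d ∅ + d {1} + d {2} + d {4} + d {5} + d {1, 2} + d {1, 4} + d {1, 5} + d {2, 4} + d {2, 5} + d {4, 5} + d {1, 2, 4} + d {1, 2, 5} + d {1, 4, 5} + d {2, 4, 5} + d {1, 2, 4, 5}
      = d ∅ + d {1} + d {2} + d {3} + d {4} + d {1, 2} + d {1, 3} + d {1, 4} + d {2, 3} + d {2, 4} + d {3, 4} + d {1, 2, 3} + d {1, 2, 4} + d {1, 3, 4} + d {2, 3, 4} + d {1, 2, 3, 4}) ∧
    (d ∅ + d {1} + d {3} + d {4} + d {5} + d {1, 3} + d {1, 4} + d {1, 5} + d {3, 4} + d {3, 5} + d {4, 5} + d {1, 3, 4} + d {1, 3, 5} + d {1, 4, 5} + d {3, 4, 5} + d {1, 3, 4, 5}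
      = d ∅ + d {1} + d {2} + d {3} + d {4} + d {1, 2} + d {1, 3} + d {1, 4} + d {2, 3} + d {2, 4} + d {3, 4} + d {1, 2, 3} + d {1, 2, 4} + d {1, 3, 4} + d {2, 3, 4} + d {1, 2, 3, 4}) ∧
    (d ∅ + d {2} + d {3} + d {4} + d {5} + d {2, 3} + d {2, 4} + d {2, 5} + d {3, 4} + d {3, 5} + d {4, 5} + d {2, 3, 4} + d {2, 3, 5} + d {2, 4, 5} + d {3, 4, 5} + d {2, 3, 4, 5}
      = d ∅ + d {1} + d {2} + d {3} + d {4} + d {1, 2} + d {1, 3} + d {1, 4} + d {2, 3} + d {2, 4} + d {3, 4} + d {1, 2, 3} + d {1, 2, 4} + d {1, 3, 4} + d {2, 3, 4} + d {1, 2, 3, 4}) := by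
  refine ⟨?_, ?_, ?_, ?_, ?_, ?_, ?_, ?_, ?_, ?_, ?_, ?_, ?_, ?_, ?_, ?_, ?_, ?_, ?_, ?_, ?_⟩
  · have h1 := h.symm [4, 2] [2, 4] (by decide) (by decide)
    rw [show psl 6 [4, 2] = {4} by decide,
      show psl 6 [2, 4] = {2} by decide] at h1
    simp (decide := true) only [zz_insert, zz_singleton, insert_empty_eq] at h1
    omega
  · have h1 := h.symm [5, 1] [1, 5] (by decide) (by decide)
    rw [show psl 6 [5, 1] = {5} by decide,
      show psl 6 [1, 5] = {1} by decide] at h1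
    simp (decide := true) only [zz_insert, zz_singleton, insert_empty_eq] at h1
    omega
  · have h1 := h.symm [1, 3, 2] [1, 2, 3] (by decide) (by decide)
    rw [show psl 6 [1, 3, 2] = {1, 4} by decide,
      show psl 6 [1, 2, 3] = {1, 3} by decide] at h1
    simp (decide := true) only [zz_insert, zz_singleton, insert_empty_eq] at h1
    omega
  · have h1 := h.symm [1, 4, 1] [1, 1, 4] (by decide) (by decide)
    rw [show psl 6 [1, 4, 1] = {1, 5} by decide,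
      show psl 6 [1, 1, 4] = {1, 2} by decide] at h1
    simp (decide := true) only [zz_insert, zz_singleton, insert_empty_eq] at h1
    omega
  · have h1 := h.symm [2, 1, 3] [1, 2, 3] (by decide) (by decide)
    rw [show psl 6 [2, 1, 3] = {2, 3} by decide,
      show psl 6 [1, 2, 3] = {1, 3} by decide] at h1
    simp (decide := true) only [zz_insert, zz_singleton, insert_empty_eq] at h1
    omega
  · have h1 := h.symm [2, 3, 1] [1, 2, 3] (by decide) (by decide)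
    rw [show psl 6 [2, 3, 1] = {2, 5} by decide,
      show psl 6 [1, 2, 3] = {1, 3} by decide] at h1
    simp (decide := true) only [zz_insert, zz_singleton, insert_empty_eq] at h1
    omega
  · have h1 := h.symm [3, 1, 2] [1, 2, 3] (by decide) (by decide)
    rw [show psl 6 [3, 1, 2] = {3, 4} by decide,
      show psl 6 [1, 2, 3] = {1, 3} by decide] at h1
    simp (decide := true) only [zz_insert, zz_singleton, insert_empty_eq] at h1
    omega
  · have h1 := h.symm [3, 2, 1] [1, 2, 3] (by decide) (by decide)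
    rw [show psl 6 [3, 2, 1] = {3, 5} by decide,
      show psl 6 [1, 2, 3] = {1, 3} by decide] at h1
    simp (decide := true) only [zz_insert, zz_singleton, insert_empty_eq] at h1
    omega
  · have h1 := h.symm [4, 1, 1] [1, 1, 4] (by decide) (by decide)
    rw [show psl 6 [4, 1, 1] = {4, 5} by decide,
      show psl 6 [1, 1, 4] = {1, 2} by decide] at h1
    simp (decide := true) only [zz_insert, zz_singleton, insert_empty_eq] at h1
    omega
  · have h1 := h.symm [1, 1, 3, 1] [1, 1, 1, 3] (by decide) (by decide)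
    rw [show psl 6 [1, 1, 3, 1] = {1, 2, 5} by decide,
      show psl 6 [1, 1, 1, 3] = {1, 2, 3} by decide] at h1
    simp (decide := true) only [zz_insert, zz_singleton, insert_empty_eq] at h1
    omega
  · have h1 := h.symm [1, 2, 1, 2] [1, 1, 2, 2] (by decide) (by decide)
    rw [show psl 6 [1, 2, 1, 2] = {1, 3, 4} by decide,
      show psl 6 [1, 1, 2, 2] = {1, 2, 4} by decide] at h1
    simp (decide := true) only [zz_insert, zz_singleton, insert_empty_eq] at h1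
    omega
  · have h1 := h.symm [1, 2, 2, 1] [1, 1, 2, 2] (by decide) (by decide)
    rw [show psl 6 [1, 2, 2, 1] = {1, 3, 5} by decide,
      show psl 6 [1, 1, 2, 2] = {1, 2, 4} by decide] at h1
    simp (decide := true) only [zz_insert, zz_singleton, insert_empty_eq] at h1
    omega
  · have h1 := h.symm [1, 3, 1, 1] [1, 1, 1, 3] (by decide) (by decide)
    rw [show psl 6 [1, 3, 1, 1] = {1, 4, 5} by decide,
      show psl 6 [1, 1, 1, 3] = {1, 2, 3} by decide] at h1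
    simp (decide := true) only [zz_insert, zz_singleton, insert_empty_eq] at h1
    omega
  · have h1 := h.symm [2, 1, 1, 2] [1, 1, 2, 2] (by decide) (by decide)
    rw [show psl 6 [2, 1, 1, 2] = {2, 3, 4} by decide,
      show psl 6 [1, 1, 2, 2] = {1, 2, 4} by decide] at h1
    simp (decide := true) only [zz_insert, zz_singleton, insert_empty_eq] at h1
    omega
  · have h1 := h.symm [2, 1, 2, 1] [1, 1, 2, 2] (by decide) (by decide)
    rw [show psl 6 [2, 1, 2, 1] = {2, 3, 5} by decide,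
      show psl 6 [1, 1, 2, 2] = {1, 2, 4} by decide] at h1
    simp (decide := true) only [zz_insert, zz_singleton, insert_empty_eq] at h1
    omega
  · have h1 := h.symm [2, 2, 1, 1] [1, 1, 2, 2] (by decide) (by decide)
    rw [show psl 6 [2, 2, 1, 1] = {2, 4, 5} by decide,
      show psl 6 [1, 1, 2, 2] = {1, 2, 4} by decide] at h1
    simp (decide := true) only [zz_insert, zz_singleton, insert_empty_eq] at h1
    omega
  · have h1 := h.symm [3, 1, 1, 1] [1, 1, 1, 3] (by decide) (by decide)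
    rw [show psl 6 [3, 1, 1, 1] = {3, 4, 5} by decide,
      show psl 6 [1, 1, 1, 3] = {1, 2, 3} by decide] at h1
    simp (decide := true) only [zz_insert, zz_singleton, insert_empty_eq] at h1
    omega
  · have h1 := h.symm [1, 1, 1, 2, 1] [1, 1, 1, 1, 2] (by decide) (by decide)
    rw [show psl 6 [1, 1, 1, 2, 1] = {1, 2, 3, 5} by decide,
      show psl 6 [1, 1, 1, 1, 2] = {1, 2, 3, 4} by decide] at h1
    simp (decide := true) only [zz_insert, zz_singleton, insert_empty_eq] at h1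
    omega
  · have h1 := h.symm [1, 1, 2, 1, 1] [1, 1, 1, 1, 2] (by decide) (by decide)
    rw [show psl 6 [1, 1, 2, 1, 1] = {1, 2, 4, 5} by decide,
      show psl 6 [1, 1, 1, 1, 2] = {1, 2, 3, 4} by decide] at h1
    simp (decide := true) only [zz_insert, zz_singleton, insert_empty_eq] at h1
    omega
  · have h1 := h.symm [1, 2, 1, 1, 1] [1, 1, 1, 1, 2] (by decide) (by decide)
    rw [show psl 6 [1, 2, 1, 1, 1] = {1, 3, 4, 5} by decide,
      show psl 6 [1, 1, 1, 1, 2] = {1, 2, 3, 4} by decide] at h1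
    simp (decide := true) only [zz_insert, zz_singleton, insert_empty_eq] at h1
    omega
  · have h1 := h.symm [2, 1, 1, 1, 1] [1, 1, 1, 1, 2] (by decide) (by decide)
    rw [show psl 6 [2, 1, 1, 1, 1] = {2, 3, 4, 5} by decide,
      show psl 6 [1, 1, 1, 1, 2] = {1, 2, 3, 4} by decide] at h1
    simp (decide := true) only [zz_insert, zz_singleton, insert_empty_eq] at h1
    omega

lemma tot6 (d : Finset ℕ → ℕ) : nt 6 d + (d ∅ + d {1, 2, 3, 4, 5})
    = d ∅ + d {1} + d {2} + d {3} + d {4} + d {5} + d {1, 2} + d {1, 3} + d {1, 4} + d {1, 5} + d {2, 3} + d {2, 4} + d {2, 5} + d {3, 4} + d {3, 5} + d {4, 5} + d {1, 2, 3} + d {1, 2, 4} + d {1, 2, 5} + d {1, 3, 4} + d {1, 3, 5} + d {1, 4, 5} + d {2, 3, 4} + d {2, 3, 5} + d {2, 4, 5} + d {3, 4, 5} + d {1, 2, 3, 4} + d {1, 2, 3, 5} + d {1, 2, 4, 5} + d {1, 3, 4, 5} + d {2, 3, 4, 5} + d {1, 2, 3, 4, 5} := by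
  have h1 := zz_total (n := 6) (by norm_num) d
  rw [show Ioo 0 6 = {1, 2, 3, 4, 5} by decide] at h1
  rw [← h1]
  simp (decide := true) only [zz_insert, zz_singleton, insert_empty_eq]
  omega

lemma cases6 {D : Finset ℕ} (h : D ⊆ Ioo 0 6) :
    D = ∅ ∨ D = {1} ∨ D = {2} ∨ D = {3} ∨ D = {4} ∨ D = {5} ∨ D = {1, 2} ∨ D = {1, 3} ∨ D = {1, 4} ∨ D = {1, 5} ∨ D = {2, 3} ∨ D = {2, 4} ∨ D = {2, 5} ∨ D = {3, 4} ∨ D = {3, 5} ∨ D = {4, 5} ∨ D = {1, 2, 3} ∨ D = {1, 2, 4} ∨ D = {1, 2, 5} ∨ D = {1, 3, 4} ∨ D = {1, 3, 5} ∨ D = {1, 4, 5} ∨ D = {2, 3, 4} ∨ D = {2, 3, 5} ∨ D = {2, 4, 5} ∨ D = {3, 4, 5} ∨ D = {1, 2, 3, 4} ∨ D = {1, 2, 3, 5} ∨ D = {1, 2, 4, 5} ∨ D = {1, 3, 4, 5} ∨ D = {2, 3, 4, 5} ∨ D = {1, 2, 3, 4, 5} := by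
  have h1 : D ∈ (Ioo 0 6).powerset := Finset.mem_powerset.2 h
  rw [show (Ioo 0 6).powerset = {∅, {1}, {2}, {3}, {4}, {5}, {1, 2}, {1, 3}, {1, 4}, {1, 5}, {2, 3}, {2, 4}, {2, 5}, {3, 4}, {3, 5}, {4, 5}, {1, 2, 3}, {1, 2, 4}, {1, 2, 5}, {1, 3, 4}, {1, 3, 5}, {1, 4, 5}, {2, 3, 4}, {2, 3, 5}, {2, 4, 5}, {3, 4, 5}, {1, 2, 3, 4}, {1, 2, 3, 5}, {1, 2, 4, 5}, {1, 3, 4, 5}, {2, 3, 4, 5}, {1, 2, 3, 4, 5}} by decide] at h1
  simpa only [Finset.mem_insert, Finset.mem_singleton] using h1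

end Pool.Agent.R784.SP
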