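import Mathlib
import Pool.Agent.R784.SP.Small

/-! # Classification for small `n` (helper784) -/

set_option autoImplicit false
set_option maxHeartbeats 1000000

namespace Pool.Agent.R784.SP

open Finset

/-- the singletons. -/
def Lsing (n : ℕ) : Finset (Finset ℕ) := (Ioo 0 n).image fun i => {i}

/-- the complements of the singletons. -/
def Lco (n : ℕ) : Finset (Finset ℕ) := (Ioo 0 n).image fun i => Ioo 0 n \ {i}

def L33 : Finset (Finset ℕ) := {{3}, {1, 4}, {2, 5}, {2, 4}, {1, 3, 5}}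

def L222 : Finset (Finset ℕ) := {{1, 2, 4, 5}, {2, 3, 5}, {1, 3, 4}, {1, 3, 5}, {2, 4}}

lemma bnd5a (d : Finset ℕ → ℕ) (h : Sy 5 d) :
    4 * d {1} ≤ nt 5 d ∧
    4 * d {2} ≤ nt 5 d ∧
    5 * d {1, 2} ≤ nt 5 d ∧
    5 * d {1, 3} ≤ nt 5 d ∧
    5 * d {1, 4} ≤ nt 5 d ∧
    5 * d {2, 3} ≤ nt 5 d ∧
    4 * d {1, 2, 3} ≤ nt 5 d ∧
    4 * d {1, 2, 4} ≤ nt 5 d := by
  obtain ⟨r0, r1, r2, r3, r4, r5, r6, r7, r8⟩ := rel5 h
  have rt := tot5 d
  zify at rt r0 r1 r2 r3 r4 r5 r6 r7 r8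
  refine ⟨?_, ?_, ?_, ?_, ?_, ?_, ?_, ?_⟩
  · have q : 1 * (nt 5 d : ℤ) = 4 * (d {1} : ℤ) + 1 * (d {1, 2} : ℤ) + 5 * (d {1, 3} : ℤ) + 4 * (d {1, 2, 3} : ℤ) := by
      linear_combination 1 * rt + (2) * r0 + (1) * r1 + (-1) * r2 + (3) * r3 + (-1) * r4 + (-1) * r5 + (1) * r6 + (1) * r7 + (1) * r8
    clear * - q; omega
  · have q : 1 * (nt 5 d : ℤ) = 4 * (d {2} : ℤ) + 1 * (d {1, 2} : ℤ) + 1 * (d {1, 3} : ℤ) + 4 * (d {2, 3} : ℤ) + 4 * (d {1, 2, 3} : ℤ) := by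
      linear_combination 1 * rt + (2) * r0 + (1) * r1 + (-1) * r2 + (-1) * r3 + (-1) * r4 + (-1) * r5 + (1) * r6 + (1) * r7 + (1) * r8
    clear * - q; omega
  · have q : 1 * (nt 5 d : ℤ) = 5 * (d {1, 2} : ℤ) + 4 * (d {2} : ℤ) + 1 * (d {1, 3} : ℤ) + 4 * (d {1, 2, 4} : ℤ) := by
      linear_combination 1 * rt + (2) * r0 + (-3) * r1 + (3) * r2 + (-1) * r3 + (3) * r4 + (-1) * r5 + (-3) * r6 + (1) * r7 + (1) * r8
    clear * - q; omega
  · have q : 1 * (nt 5 d : ℤ) = 5 * (d {1, 3} : ℤ) + 4 * (d {1} : ℤ) + 1 * (d {1, 2} : ℤ) + 4 * (d {1, 2, 3} : ℤ) := by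
      linear_combination 1 * rt + (2) * r0 + (1) * r1 + (-1) * r2 + (3) * r3 + (-1) * r4 + (-1) * r5 + (1) * r6 + (1) * r7 + (1) * r8
    clear * - q; omega
  · have q : 1 * (nt 5 d : ℤ) = 5 * (d {1, 4} : ℤ) + 4 * (d {1} : ℤ) + 1 * (d {2, 3} : ℤ) + 4 * (d {1, 2, 4} : ℤ) := by
      linear_combination 1 * rt + (2) * r0 + (2) * r1 + (-2) * r2 + (-2) * r3 + (3) * r4 + (-1) * r5 + (-3) * r6 + (1) * r7 + (1) * r8
    clear * - q; omega
  · have q : 1 * (nt 5 d : ℤ) = 5 * (d {2, 3} : ℤ) + 4 * (d {2} : ℤ) + 1 * (d {1, 4} : ℤ) + 4 * (d {1, 2, 3} : ℤ) := by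
      linear_combination 1 * rt + (2) * r0 + (2) * r1 + (-2) * r2 + (-2) * r3 + (-1) * r4 + (-1) * r5 + (1) * r6 + (1) * r7 + (1) * r8
    clear * - q; omega
  · have q : 1 * (nt 5 d : ℤ) = 4 * (d {1, 2, 3} : ℤ) + 4 * (d {1} : ℤ) + 1 * (d {1, 2} : ℤ) + 5 * (d {1, 3} : ℤ) := by
      linear_combination 1 * rt + (2) * r0 + (1) * r1 + (-1) * r2 + (3) * r3 + (-1) * r4 + (-1) * r5 + (1) * r6 + (1) * r7 + (1) * r8
    clear * - q; omega
  · have q : 1 * (nt 5 d : ℤ) = 4 * (d {1, 2, 4} : ℤ) + 4 * (d {2} : ℤ) + 5 * (d {1, 2} : ℤ) + 1 * (d {1, 3} : ℤ) := by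
      linear_combination 1 * rt + (2) * r0 + (-3) * r1 + (3) * r2 + (-1) * r3 + (3) * r4 + (-1) * r5 + (-3) * r6 + (1) * r7 + (1) * r8
    clear * - q; omega

lemma bnd5 (d : Finset ℕ → ℕ) (h : Sy 5 d) :
    4 * d {1} ≤ nt 5 d ∧
    4 * d {2} ≤ nt 5 d ∧
    4 * d {3} ≤ nt 5 d ∧
    4 * d {4} ≤ nt 5 d ∧
    5 * d {1, 2} ≤ nt 5 d ∧
    5 * d {1, 3} ≤ nt 5 d ∧
    5 * d {1, 4} ≤ nt 5 d ∧
    5 * d {2, 3} ≤ nt 5 d ∧
    5 * d {2, 4} ≤ nt 5 d ∧
    5 * d {3, 4} ≤ nt 5 d ∧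
    4 * d {1, 2, 3} ≤ nt 5 d ∧
    4 * d {1, 2, 4} ≤ nt 5 d ∧
    4 * d {1, 3, 4} ≤ nt 5 d ∧
    4 * d {2, 3, 4} ≤ nt 5 d := by
  obtain ⟨b0, b1, b2, b3, b4, b5, b6, b7⟩ := bnd5a d h
  refine ⟨?_, ?_, ?_, ?_, ?_, ?_, ?_, ?_, ?_, ?_, ?_, ?_, ?_, ?_⟩
  · exact b0
  · exact b1
  · have h1 := h.rev (by norm_num) {2} (by decide)
    rw [show rv 5 {2} = {3} by decide] at h1
    rw [h1]; exact b1
  · have h1 := h.rev (by norm_num) {1} (by decide)
    rw [show rv 5 {1} = {4} by decide] at h1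
    rw [h1]; exact b0
  · exact b2
  · exact b3
  · exact b4
  · exact b5
  · have h1 := h.rev (by norm_num) {1, 3} (by decide)
    rw [show rv 5 {1, 3} = {2, 4} by decide] at h1
    rw [h1]; exact b3
  · have h1 := h.rev (by norm_num) {1, 2} (by decide)
    rw [show rv 5 {1, 2} = {3, 4} by decide] at h1
    rw [h1]; exact b2
  · exact b6
  · exact b7
  · have h1 := h.rev (by norm_num) {1, 2, 4} (by decide)
    rw [show rv 5 {1, 2, 4} = {1, 3, 4} by decide] at h1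
    rw [h1]; exact b7
  · have h1 := h.rev (by norm_num) {1, 2, 3} (by decide)
    rw [show rv 5 {1, 2, 3} = {2, 3, 4} by decide] at h1
    rw [h1]; exact b6

theorem T5 (d : Finset ℕ → ℕ) (h : Sy 5 d) (ht : nt 5 d ≤ 5 - 2) (D : Finset ℕ) :
    nx 5 d D = 0 := by
  by_cases hD : D ⊆ Ioo 0 5
  · obtain ⟨b0, b1, b2, b3, b4, b5, b6, b7, b8, b9, b10, b11, b12, b13⟩ := bnd5 d h
    norm_num at ht
    rcases cases5 hD with rfl | rfl | rfl | rfl | rfl | rfl | rfl | rfl | rfl | rfl | rfl | rfl | rfl | rfl | rfl | rfl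
    · simp [nx]
    · exact nx_zero (by clear * - ht b0; omega)
    · exact nx_zero (by clear * - ht b1; omega)
    · exact nx_zero (by clear * - ht b2; omega)
    · exact nx_zero (by clear * - ht b3; omega)
    · exact nx_zero (by clear * - ht b4; omega)
    · exact nx_zero (by clear * - ht b5; omega)
    · exact nx_zero (by clear * - ht b6; omega)
    · exact nx_zero (by clear * - ht b7; omega)
    · exact nx_zero (by clear * - ht b8; omega)
    · exact nx_zero (by clear * - ht b9; omega)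
    · exact nx_zero (by clear * - ht b10; omega)
    · exact nx_zero (by clear * - ht b11; omega)
    · exact nx_zero (by clear * - ht b12; omega)
    · exact nx_zero (by clear * - ht b13; omega)
    · rw [nx, if_pos (Or.inr (by decide))]
  · refine nx_zero ?_
    by_contra hne
    exact hD (h.supp D hne)

lemma bnd6a (d : Finset ℕ → ℕ) (h : Sy 6 d) :
    5 * d {1} ≤ nt 6 d ∧
    5 * d {2} ≤ nt 6 d ∧
    5 * d {3} ≤ nt 6 d ∧
    6 * d {1, 2} ≤ nt 6 d ∧
    8 * d {1, 3} ≤ nt 6 d ∧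
    5 * d {1, 4} ≤ nt 6 d ∧
    9 * d {1, 5} ≤ nt 6 d ∧
    6 * d {2, 3} ≤ nt 6 d ∧
    5 * d {2, 4} ≤ nt 6 d ∧
    6 * d {1, 2, 3} ≤ nt 6 d ∧
    8 * d {1, 2, 4} ≤ nt 6 d ∧
    6 * d {1, 2, 5} ≤ nt 6 d ∧
    5 * d {1, 3, 4} ≤ nt 6 d ∧
    5 * d {1, 3, 5} ≤ nt 6 d ∧
    9 * d {2, 3, 4} ≤ nt 6 d ∧
    5 * d {1, 2, 3, 4} ≤ nt 6 d ∧
    5 * d {1, 2, 3, 5} ≤ nt 6 d ∧
    5 * d {1, 2, 4, 5} ≤ nt 6 d := by
  obtain ⟨r0, r1, r2, r3, r4, r5, r6, r7, r8, r9, r10, r11, r12, r13, r14, r15, r16, r17, r18, r19, r20⟩ := rel6 h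
  have rt := tot6 d
  zify at rt r0 r1 r2 r3 r4 r5 r6 r7 r8 r9 r10 r11 r12 r13 r14 r15 r16 r17 r18 r19 r20
  refine ⟨?_, ?_, ?_, ?_, ?_, ?_, ?_, ?_, ?_, ?_, ?_, ?_, ?_, ?_, ?_, ?_, ?_, ?_⟩
  · have q : 1 * (nt 6 d : ℤ) = 5 * (d {1} : ℤ) + 1 * (d {1, 2} : ℤ) + 3 * (d {1, 4} : ℤ) + 4 * (d {1, 5} : ℤ) + 2 * (d {2, 4} : ℤ) + 1 * (d {1, 2, 3} : ℤ) + 6 * (d {1, 2, 4} : ℤ) + 3 * (d {1, 3, 4} : ℤ) + 5 * (d {1, 2, 3, 4} : ℤ) := by
      linear_combination 1 * rt + (3) * r1 + (2) * r2 + (-3) * r3 + (-3) * r4 + (1) * r5 + (-1) * r6 + (1) * r7 + (1) * r8 + (-1) * r9 + (1) * r10 + (-1) * r11 + (-1) * r12 + (4) * r13 + (-1) * r14 + (-1) * r15 + (-1) * r16 + (1) * r17 + (1) * r18 + (1) * r19 + (1) * r20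
    clear * - q; omega
  · have q : 1 * (nt 6 d : ℤ) = 5 * (d {2} : ℤ) + 6 * (d {1, 2} : ℤ) + 2 * (d {1, 4} : ℤ) + 2 * (d {2, 4} : ℤ) + 1 * (d {1, 2, 3} : ℤ) + 6 * (d {1, 2, 4} : ℤ) + 2 * (d {1, 3, 4} : ℤ) + 1 * (d {1, 3, 5} : ℤ) + 5 * (d {1, 2, 3, 4} : ℤ) := by
      linear_combination 1 * rt + (-2) * r1 + (2) * r2 + (2) * r3 + (-3) * r4 + (1) * r5 + (-2) * r6 + (2) * r7 + (1) * r8 + (-1) * r9 + (2) * r10 + (-2) * r11 + (-1) * r12 + (4) * r13 + (-1) * r14 + (-1) * r15 + (-1) * r16 + (1) * r17 + (1) * r18 + (1) * r19 + (1) * r20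
    clear * - q; omega
  · have q : 1 * (nt 6 d : ℤ) = 5 * (d {3} : ℤ) + 3 * (d {1, 2} : ℤ) + 4 * (d {1, 3} : ℤ) + 3 * (d {2, 3} : ℤ) + 1 * (d {1, 2, 3} : ℤ) + 4 * (d {1, 2, 4} : ℤ) + 5 * (d {1, 3, 4} : ℤ) + 5 * (d {1, 2, 3, 4} : ℤ) := by
      linear_combination 1 * rt + (-5) * r0 + (-1) * r1 + (5) * r2 + (1) * r3 + (-6) * r4 + (1) * r5 + (1) * r6 + (1) * r7 + (1) * r8 + (-1) * r9 + (-1) * r10 + (-1) * r11 + (-1) * r12 + (4) * r13 + (-1) * r14 + (-1) * r15 + (-1) * r16 + (1) * r17 + (1) * r18 + (1) * r19 + (1) * r20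
    clear * - q; omega
  · have q : 2 * (nt 6 d : ℤ) = 12 * (d {1, 2} : ℤ) + 7 * (d {2} : ℤ) + 3 * (d {3} : ℤ) + 1 * (d {1, 5} : ℤ) + 7 * (d {2, 4} : ℤ) + 2 * (d {1, 2, 3} : ℤ) + 15 * (d {1, 2, 4} : ℤ) + 3 * (d {1, 3, 4} : ℤ) + 10 * (d {1, 2, 3, 4} : ℤ) := by
      linear_combination 2 * rt + (-3) * r0 + (-1) * r1 + (10) * r2 + (1) * r3 + (-6) * r4 + (2) * r5 + (-5) * r6 + (2) * r7 + (2) * r8 + (-2) * r9 + (5) * r10 + (-2) * r11 + (-2) * r12 + (8) * r13 + (-2) * r14 + (-2) * r15 + (-2) * r16 + (2) * r17 + (2) * r18 + (2) * r19 + (2) * r20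
    clear * - q; omega
  · have q : 1 * (nt 6 d : ℤ) = 8 * (d {1, 3} : ℤ) + 4 * (d {1} : ℤ) + 1 * (d {3} : ℤ) + 2 * (d {1, 2} : ℤ) + 2 * (d {1, 2, 3} : ℤ) + 4 * (d {1, 3, 5} : ℤ) + 4 * (d {2, 3, 4} : ℤ) + 4 * (d {1, 2, 3, 4} : ℤ) + 1 * (d {1, 2, 4, 5} : ℤ) := by
      linear_combination 1 * rt + (-4) * r1 + (-4) * r2 + (4) * r3 + (3) * r4 + (1) * r6 + (5) * r7 + (3) * r10 + (-5) * r11 + (-1) * r13 + (-1) * r14 + (-1) * r16 + (1) * r17 + (1) * r19 + (1) * r20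
    clear * - q; omega
  · have q : 1 * (nt 6 d : ℤ) = 5 * (d {1, 4} : ℤ) + 3 * (d {1} : ℤ) + 2 * (d {2} : ℤ) + 3 * (d {1, 2} : ℤ) + 2 * (d {1, 3} : ℤ) + 1 * (d {1, 2, 3} : ℤ) + 4 * (d {1, 2, 4} : ℤ) + 5 * (d {1, 3, 4} : ℤ) + 5 * (d {1, 2, 3, 4} : ℤ) := by
      linear_combination 1 * rt + (-1) * r1 + (1) * r3 + (-3) * r4 + (1) * r5 + (1) * r6 + (1) * r7 + (1) * r8 + (-1) * r9 + (-1) * r10 + (-1) * r11 + (-1) * r12 + (4) * r13 + (-1) * r14 + (-1) * r15 + (-1) * r16 + (1) * r17 + (1) * r18 + (1) * r19 + (1) * r20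
    clear * - q; omega
  · have q : 1 * (nt 6 d : ℤ) = 9 * (d {1, 5} : ℤ) + 5 * (d {1} : ℤ) + 1 * (d {2, 3} : ℤ) + 4 * (d {1, 2, 4} : ℤ) + 1 * (d {1, 2, 5} : ℤ) + 5 * (d {1, 3, 5} : ℤ) + 5 * (d {1, 2, 3, 4} : ℤ) := by
      linear_combination 1 * rt + (2) * r1 + (-2) * r3 + (-5) * r4 + (2) * r5 + (-4) * r6 + (6) * r7 + (1) * r8 + (-2) * r9 + (4) * r10 + (-6) * r11 + (-1) * r12 + (4) * r13 + (-1) * r14 + (-1) * r15 + (-1) * r16 + (1) * r17 + (1) * r18 + (1) * r19 + (1) * r20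
    clear * - q; omega
  · have q : 2 * (nt 6 d : ℤ) = 12 * (d {2, 3} : ℤ) + 1 * (d {2} : ℤ) + 9 * (d {3} : ℤ) + 7 * (d {1, 5} : ℤ) + 1 * (d {2, 4} : ℤ) + 2 * (d {1, 2, 3} : ℤ) + 9 * (d {1, 2, 4} : ℤ) + 9 * (d {1, 3, 4} : ℤ) + 10 * (d {1, 2, 3, 4} : ℤ) := by
      linear_combination 2 * rt + (-9) * r0 + (5) * r1 + (10) * r2 + (-5) * r3 + (-18) * r4 + (2) * r5 + (1) * r6 + (2) * r7 + (2) * r8 + (-2) * r9 + (-1) * r10 + (-2) * r11 + (-2) * r12 + (8) * r13 + (-2) * r14 + (-2) * r15 + (-2) * r16 + (2) * r17 + (2) * r18 + (2) * r19 + (2) * r20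
    clear * - q; omega
  · have q : 1 * (nt 6 d : ℤ) = 5 * (d {2, 4} : ℤ) + 1 * (d {1} : ℤ) + 4 * (d {2} : ℤ) + 5 * (d {1, 2} : ℤ) + 1 * (d {1, 2, 3} : ℤ) + 6 * (d {1, 2, 4} : ℤ) + 3 * (d {2, 3, 4} : ℤ) + 5 * (d {1, 2, 3, 4} : ℤ) := by
      linear_combination 1 * rt + (-1) * r1 + (2) * r2 + (1) * r3 + (1) * r5 + (-1) * r6 + (1) * r7 + (1) * r8 + (-1) * r9 + (4) * r10 + (-1) * r11 + (-1) * r12 + (1) * r13 + (-1) * r14 + (-1) * r15 + (-1) * r16 + (1) * r17 + (1) * r18 + (1) * r19 + (1) * r20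
    clear * - q; omega
  · have q : 1 * (nt 6 d : ℤ) = 6 * (d {1, 2, 3} : ℤ) + 3 * (d {1} : ℤ) + 2 * (d {2} : ℤ) + 3 * (d {1, 2} : ℤ) + 2 * (d {1, 3} : ℤ) + 5 * (d {2, 4} : ℤ) + 4 * (d {1, 2, 4} : ℤ) + 5 * (d {1, 2, 3, 5} : ℤ) := by
      linear_combination 1 * rt + (4) * r1 + (5) * r2 + (-4) * r3 + (2) * r4 + (-4) * r5 + (1) * r6 + (-4) * r7 + (1) * r8 + (4) * r9 + (-1) * r10 + (4) * r11 + (-1) * r12 + (-1) * r13 + (4) * r14 + (-1) * r15 + (-1) * r16 + (-4) * r17 + (1) * r18 + (1) * r19 + (1) * r20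
    clear * - q; omega
  · have q : 1 * (nt 6 d : ℤ) = 8 * (d {1, 2, 4} : ℤ) + 4 * (d {2} : ℤ) + 1 * (d {3} : ℤ) + 6 * (d {1, 2} : ℤ) + 4 * (d {2, 4} : ℤ) + 2 * (d {1, 2, 3} : ℤ) + 4 * (d {1, 2, 3, 4} : ℤ) + 1 * (d {1, 2, 4, 5} : ℤ) := by
      linear_combination 1 * rt + (4) * r2 + (-1) * r4 + (-3) * r6 + (1) * r7 + (3) * r10 + (-1) * r11 + (3) * r13 + (-1) * r14 + (-1) * r16 + (1) * r17 + (1) * r19 + (1) * r20
    clear * - q; omega
  · have q : 1 * (nt 6 d : ℤ) = 6 * (d {1, 2, 5} : ℤ) + 3 * (d {2} : ℤ) + 2 * (d {3} : ℤ) + 6 * (d {1, 2} : ℤ) + 1 * (d {1, 5} : ℤ) + 3 * (d {2, 4} : ℤ) + 2 * (d {1, 2, 4} : ℤ) + 2 * (d {1, 3, 4} : ℤ) + 5 * (d {1, 2, 3, 5} : ℤ) := by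
      linear_combination 1 * rt + (-2) * r0 + (-1) * r1 + (5) * r2 + (1) * r3 + (-4) * r4 + (2) * r5 + (3) * r6 + (-4) * r7 + (1) * r8 + (-2) * r9 + (-3) * r10 + (4) * r11 + (-1) * r12 + (-1) * r13 + (4) * r14 + (-1) * r15 + (-1) * r16 + (-4) * r17 + (1) * r18 + (1) * r19 + (1) * r20
    clear * - q; omega
  · have q : 1 * (nt 6 d : ℤ) = 5 * (d {1, 3, 4} : ℤ) + 3 * (d {1} : ℤ) + 2 * (d {3} : ℤ) + 3 * (d {1, 2} : ℤ) + 4 * (d {1, 3} : ℤ) + 3 * (d {1, 4} : ℤ) + 1 * (d {1, 2, 3} : ℤ) + 4 * (d {1, 2, 4} : ℤ) + 5 * (d {1, 2, 3, 4} : ℤ) := by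
      linear_combination 1 * rt + (-2) * r0 + (-1) * r1 + (2) * r2 + (1) * r3 + (-3) * r4 + (1) * r5 + (1) * r6 + (1) * r7 + (1) * r8 + (-1) * r9 + (-1) * r10 + (-1) * r11 + (-1) * r12 + (4) * r13 + (-1) * r14 + (-1) * r15 + (-1) * r16 + (1) * r17 + (1) * r18 + (1) * r19 + (1) * r20
    clear * - q; omega
  · have q : 1 * (nt 6 d : ℤ) = 5 * (d {1, 3, 5} : ℤ) + 5 * (d {2} : ℤ) + 6 * (d {1, 2} : ℤ) + 2 * (d {1, 3} : ℤ) + 2 * (d {1, 5} : ℤ) + 1 * (d {1, 2, 3} : ℤ) + 4 * (d {1, 2, 4} : ℤ) + 5 * (d {1, 2, 3, 4} : ℤ) := by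
      linear_combination 1 * rt + (-4) * r1 + (4) * r3 + (-3) * r4 + (1) * r5 + (-4) * r6 + (6) * r7 + (1) * r8 + (-1) * r9 + (4) * r10 + (-6) * r11 + (-1) * r12 + (4) * r13 + (-1) * r14 + (-1) * r15 + (-1) * r16 + (1) * r17 + (1) * r18 + (1) * r19 + (1) * r20
    clear * - q; omega
  · have q : 1 * (nt 6 d : ℤ) = 9 * (d {2, 3, 4} : ℤ) + 5 * (d {1} : ℤ) + 4 * (d {1, 3} : ℤ) + 1 * (d {2, 3} : ℤ) + 5 * (d {2, 4} : ℤ) + 1 * (d {1, 2, 5} : ℤ) + 5 * (d {1, 2, 3, 4} : ℤ) := by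
      linear_combination 1 * rt + (-2) * r1 + (-4) * r2 + (2) * r3 + (4) * r4 + (2) * r5 + (5) * r6 + (1) * r7 + (1) * r8 + (-2) * r9 + (4) * r10 + (-1) * r11 + (-1) * r12 + (-5) * r13 + (-1) * r14 + (-1) * r15 + (-1) * r16 + (1) * r17 + (1) * r18 + (1) * r19 + (1) * r20
    clear * - q; omega
  · have q : 2 * (nt 6 d : ℤ) = 10 * (d {1, 2, 3, 4} : ℤ) + 7 * (d {2} : ℤ) + 3 * (d {3} : ℤ) + 12 * (d {1, 2} : ℤ) + 1 * (d {1, 5} : ℤ) + 7 * (d {2, 4} : ℤ) + 2 * (d {1, 2, 3} : ℤ) + 15 * (d {1, 2, 4} : ℤ) + 3 * (d {1, 3, 4} : ℤ) := by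
      linear_combination 2 * rt + (-3) * r0 + (-1) * r1 + (10) * r2 + (1) * r3 + (-6) * r4 + (2) * r5 + (-5) * r6 + (2) * r7 + (2) * r8 + (-2) * r9 + (5) * r10 + (-2) * r11 + (-2) * r12 + (8) * r13 + (-2) * r14 + (-2) * r15 + (-2) * r16 + (2) * r17 + (2) * r18 + (2) * r19 + (2) * r20
    clear * - q; omega
  · have q : 1 * (nt 6 d : ℤ) = 5 * (d {1, 2, 3, 5} : ℤ) + 3 * (d {1} : ℤ) + 2 * (d {2} : ℤ) + 3 * (d {1, 2} : ℤ) + 2 * (d {1, 3} : ℤ) + 5 * (d {2, 4} : ℤ) + 6 * (d {1, 2, 3} : ℤ) + 4 * (d {1, 2, 4} : ℤ) := by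
      linear_combination 1 * rt + (4) * r1 + (5) * r2 + (-4) * r3 + (2) * r4 + (-4) * r5 + (1) * r6 + (-4) * r7 + (1) * r8 + (4) * r9 + (-1) * r10 + (4) * r11 + (-1) * r12 + (-1) * r13 + (4) * r14 + (-1) * r15 + (-1) * r16 + (-4) * r17 + (1) * r18 + (1) * r19 + (1) * r20
    clear * - q; omega
  · have q : 1 * (nt 6 d : ℤ) = 5 * (d {1, 2, 4, 5} : ℤ) + 5 * (d {1} : ℤ) + 4 * (d {1, 3} : ℤ) + 5 * (d {1, 4} : ℤ) + 1 * (d {2, 3} : ℤ) + 4 * (d {1, 2, 3} : ℤ) + 4 * (d {1, 2, 4} : ℤ) + 2 * (d {1, 2, 5} : ℤ) := by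
      linear_combination 1 * rt + (5) * r0 + (2) * r1 + (-5) * r2 + (-2) * r3 + (4) * r4 + (-2) * r5 + (1) * r6 + (1) * r7 + (-4) * r8 + (2) * r9 + (-1) * r10 + (-1) * r11 + (4) * r12 + (-1) * r13 + (-1) * r14 + (4) * r15 + (-1) * r16 + (1) * r17 + (-4) * r18 + (1) * r19 + (1) * r20
    clear * - q; omega

lemma bnd6 (d : Finset ℕ → ℕ) (h : Sy 6 d) :
    5 * d {1} ≤ nt 6 d ∧
    5 * d {2} ≤ nt 6 d ∧
    5 * d {3} ≤ nt 6 d ∧
    5 * d {4} ≤ nt 6 d ∧
    5 * d {5} ≤ nt 6 d ∧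
    6 * d {1, 2} ≤ nt 6 d ∧
    8 * d {1, 3} ≤ nt 6 d ∧
    5 * d {1, 4} ≤ nt 6 d ∧
    9 * d {1, 5} ≤ nt 6 d ∧
    6 * d {2, 3} ≤ nt 6 d ∧
    5 * d {2, 4} ≤ nt 6 d ∧
    5 * d {2, 5} ≤ nt 6 d ∧
    6 * d {3, 4} ≤ nt 6 d ∧
    8 * d {3, 5} ≤ nt 6 d ∧
    6 * d {4, 5} ≤ nt 6 d ∧
    6 * d {1, 2, 3} ≤ nt 6 d ∧
    8 * d {1, 2, 4} ≤ nt 6 d ∧
    6 * d {1, 2, 5} ≤ nt 6 d ∧
    5 * d {1, 3, 4} ≤ nt 6 d ∧
    5 * d {1, 3, 5} ≤ nt 6 d ∧
    6 * d {1, 4, 5} ≤ nt 6 d ∧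
    9 * d {2, 3, 4} ≤ nt 6 d ∧
    5 * d {2, 3, 5} ≤ nt 6 d ∧
    8 * d {2, 4, 5} ≤ nt 6 d ∧
    6 * d {3, 4, 5} ≤ nt 6 d ∧
    5 * d {1, 2, 3, 4} ≤ nt 6 d ∧
    5 * d {1, 2, 3, 5} ≤ nt 6 d ∧
    5 * d {1, 2, 4, 5} ≤ nt 6 d ∧
    5 * d {1, 3, 4, 5} ≤ nt 6 d ∧
    5 * d {2, 3, 4, 5} ≤ nt 6 d := by
  obtain ⟨b0, b1, b2, b3, b4, b5, b6, b7, b8, b9, b10, b11, b12, b13, b14, b15, b16, b17⟩ := bnd6a d h
  refine ⟨?_, ?_, ?_, ?_, ?_, ?_, ?_, ?_, ?_, ?_, ?_, ?_, ?_, ?_, ?_, ?_, ?_, ?_, ?_, ?_, ?_, ?_, ?_, ?_, ?_, ?_, ?_, ?_, ?_, ?_⟩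
  · exact b0
  · exact b1
  · exact b2
  · have h1 := h.rev (by norm_num) {2} (by decide)
    rw [show rv 6 {2} = {4} by decide] at h1
    rw [h1]; exact b1
  · have h1 := h.rev (by norm_num) {1} (by decide)
    rw [show rv 6 {1} = {5} by decide] at h1
    rw [h1]; exact b0
  · exact b3
  · exact b4
  · exact b5
  · exact b6
  · exact b7
  · exact b8
  · have h1 := h.rev (by norm_num) {1, 4} (by decide)
    rw [show rv 6 {1, 4} = {2, 5} by decide] at h1
    rw [h1]; exact b5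
  · have h1 := h.rev (by norm_num) {2, 3} (by decide)
    rw [show rv 6 {2, 3} = {3, 4} by decide] at h1
    rw [h1]; exact b7
  · have h1 := h.rev (by norm_num) {1, 3} (by decide)
    rw [show rv 6 {1, 3} = {3, 5} by decide] at h1
    rw [h1]; exact b4
  · have h1 := h.rev (by norm_num) {1, 2} (by decide)
    rw [show rv 6 {1, 2} = {4, 5} by decide] at h1
    rw [h1]; exact b3
  · exact b9
  · exact b10
  · exact b11
  · exact b12
  · exact b13
  · have h1 := h.rev (by norm_num) {1, 2, 5} (by decide)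
    rw [show rv 6 {1, 2, 5} = {1, 4, 5} by decide] at h1
    rw [h1]; exact b11
  · exact b14
  · have h1 := h.rev (by norm_num) {1, 3, 4} (by decide)
    rw [show rv 6 {1, 3, 4} = {2, 3, 5} by decide] at h1
    rw [h1]; exact b12
  · have h1 := h.rev (by norm_num) {1, 2, 4} (by decide)
    rw [show rv 6 {1, 2, 4} = {2, 4, 5} by decide] at h1
    rw [h1]; exact b10
  · have h1 := h.rev (by norm_num) {1, 2, 3} (by decide)
    rw [show rv 6 {1, 2, 3} = {3, 4, 5} by decide] at h1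
    rw [h1]; exact b9
  · exact b15
  · exact b16
  · exact b17
  · have h1 := h.rev (by norm_num) {1, 2, 3, 5} (by decide)
    rw [show rv 6 {1, 2, 3, 5} = {1, 3, 4, 5} by decide] at h1
    rw [h1]; exact b16
  · have h1 := h.rev (by norm_num) {1, 2, 3, 4} (by decide)
    rw [show rv 6 {1, 2, 3, 4} = {2, 3, 4, 5} by decide] at h1
    rw [h1]; exact b15

theorem T6 (d : Finset ℕ → ℕ) (h : Sy 6 d) (ht : nt 6 d ≤ 6 - 2) (D : Finset ℕ) :
    nx 6 d D = 0 := by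
  by_cases hD : D ⊆ Ioo 0 6
  · obtain ⟨b0, b1, b2, b3, b4, b5, b6, b7, b8, b9, b10, b11, b12, b13, b14, b15, b16, b17, b18, b19, b20, b21, b22, b23, b24, b25, b26, b27, b28, b29⟩ := bnd6 d h
    norm_num at ht
    rcases cases6 hD with rfl | rfl | rfl | rfl | rfl | rfl | rfl | rfl | rfl | rfl | rfl | rfl | rfl | rfl | rfl | rfl | rfl | rfl | rfl | rfl | rfl | rfl | rfl | rfl | rfl | rfl | rfl | rfl | rfl | rfl | rfl | rfl
    · simp [nx]
    · exact nx_zero (by clear * - ht b0; omega)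
    · exact nx_zero (by clear * - ht b1; omega)
    · exact nx_zero (by clear * - ht b2; omega)
    · exact nx_zero (by clear * - ht b3; omega)
    · exact nx_zero (by clear * - ht b4; omega)
    · exact nx_zero (by clear * - ht b5; omega)
    · exact nx_zero (by clear * - ht b6; omega)
    · exact nx_zero (by clear * - ht b7; omega)
    · exact nx_zero (by clear * - ht b8; omega)
    · exact nx_zero (by clear * - ht b9; omega)
    · exact nx_zero (by clear * - ht b10; omega)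
    · exact nx_zero (by clear * - ht b11; omega)
    · exact nx_zero (by clear * - ht b12; omega)
    · exact nx_zero (by clear * - ht b13; omega)
    · exact nx_zero (by clear * - ht b14; omega)
    · exact nx_zero (by clear * - ht b15; omega)
    · exact nx_zero (by clear * - ht b16; omega)
    · exact nx_zero (by clear * - ht b17; omega)
    · exact nx_zero (by clear * - ht b18; omega)
    · exact nx_zero (by clear * - ht b19; omega)
    · exact nx_zero (by clear * - ht b20; omega)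
    · exact nx_zero (by clear * - ht b21; omega)
    · exact nx_zero (by clear * - ht b22; omega)
    · exact nx_zero (by clear * - ht b23; omega)
    · exact nx_zero (by clear * - ht b24; omega)
    · exact nx_zero (by clear * - ht b25; omega)
    · exact nx_zero (by clear * - ht b26; omega)
    · exact nx_zero (by clear * - ht b27; omega)
    · exact nx_zero (by clear * - ht b28; omega)
    · exact nx_zero (by clear * - ht b29; omega)
    · rw [nx, if_pos (Or.inr (by decide))]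
  · refine nx_zero ?_
    by_contra hne
    exact hD (h.supp D hne)

theorem F3 (d : Finset ℕ → ℕ) (h : Sy 3 d) (h0 : d ∅ = 0) (h1 : d (Ioo 0 3) = 0)
    (ht : nt 3 d = 3 - 1) :
    (∀ D, d D = if D ∈ Lsing 3 then 1 else 0) := by
  have r0 := rel3 h
  have rt := tot3 d
  rw [show Ioo 0 3 = {1, 2} by decide] at h1
  norm_num at ht
  have e2 : d {2} = d {1} := by omega
  have es : d {1} = 1 := by omega
  have hc : (d {1} = 1) := by clear * - es; omega
  clear rt r0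
  have c0 := hc
  intro D
  by_cases hD : D ⊆ Ioo 0 3
  · rcases cases3 hD with rfl | rfl | rfl | rfl
    · rw [if_neg (by decide)]; omega
    · rw [if_pos (by decide)]; omega
    · rw [if_pos (by decide)]; omega
    · rw [if_neg (by decide)]; omega
  · have h2 : d D = 0 := by
      by_contra hne
      exact hD (h.supp D hne)
    have h3 : Lsing 3 ⊆ (Ioo 0 3).powerset := by decide
    rw [h2, if_neg fun h4 => hD (Finset.mem_powerset.1 (h3 h4))]

theorem F4 (d : Finset ℕ → ℕ) (h : Sy 4 d) (h0 : d ∅ = 0) (h1 : d (Ioo 0 4) = 0)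
    (ht : nt 4 d = 4 - 1) :
    (∀ D, d D = if D ∈ Lsing 4 then 1 else 0) ∨ (∀ D, d D = if D ∈ Lco 4 then 1 else 0) := by
  obtain ⟨r0, r1, r2⟩ := rel4 h
  have rt := tot4 d
  rw [show Ioo 0 4 = {1, 2, 3} by decide] at h1
  norm_num at ht
  have b1 : d {1} = 0 ∨ d {1} = 1 := by omega
  have b2 : d {1, 2} = 0 ∨ d {1, 2} = 1 := by omega
  have b3 : d {2} = 0 ∨ d {2} = 1 := by omega
  have hc : (d {1} = 1 ∧ d {2} = 1 ∧ d {3} = 1 ∧ d {1, 2} = 0 ∧ d {1, 3} = 0 ∧ d {2, 3} = 0) ∨ (d {1} = 0 ∧ d {2} = 0 ∧ d {3} = 0 ∧ d {1, 2} = 1 ∧ d {1, 3} = 1 ∧ d {2, 3} = 1) := by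
    rcases b1 with b1 | b1 <;> rcases b2 with b2 | b2 <;> rcases b3 with b3 | b3 <;> omega
  clear rt r0 r1 r2
  rcases hc with ⟨c0, c1, c2, c3, c4, c5⟩ | ⟨c0, c1, c2, c3, c4, c5⟩
  · refine Or.inl fun D => ?_
    by_cases hD : D ⊆ Ioo 0 4
    · rcases cases4 hD with rfl | rfl | rfl | rfl | rfl | rfl | rfl | rfl
      · rw [if_neg (by decide)]; omega
      · rw [if_pos (by decide)]; omega
      · rw [if_pos (by decide)]; omega
      · rw [if_pos (by decide)]; omega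
      · rw [if_neg (by decide)]; omega
      · rw [if_neg (by decide)]; omega
      · rw [if_neg (by decide)]; omega
      · rw [if_neg (by decide)]; omega
    · have h2 : d D = 0 := by
        by_contra hne
        exact hD (h.supp D hne)
      have h3 : Lsing 4 ⊆ (Ioo 0 4).powerset := by decide
      rw [h2, if_neg fun h4 => hD (Finset.mem_powerset.1 (h3 h4))]
  · refine Or.inr <| fun D => ?_
    by_cases hD : D ⊆ Ioo 0 4
    · rcases cases4 hD with rfl | rfl | rfl | rfl | rfl | rfl | rfl | rfl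
      · rw [if_neg (by decide)]; omega
      · rw [if_neg (by decide)]; omega
      · rw [if_neg (by decide)]; omega
      · rw [if_neg (by decide)]; omega
      · rw [if_pos (by decide)]; omega
      · rw [if_pos (by decide)]; omega
      · rw [if_pos (by decide)]; omega
      · rw [if_neg (by decide)]; omega
    · have h2 : d D = 0 := by
        by_contra hne
        exact hD (h.supp D hne)
      have h3 : Lco 4 ⊆ (Ioo 0 4).powerset := by decide
      rw [h2, if_neg fun h4 => hD (Finset.mem_powerset.1 (h3 h4))]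

theorem F5 (d : Finset ℕ → ℕ) (h : Sy 5 d) (h0 : d ∅ = 0) (h1 : d (Ioo 0 5) = 0)
    (ht : nt 5 d = 5 - 1) :
    (∀ D, d D = if D ∈ Lsing 5 then 1 else 0) ∨ (∀ D, d D = if D ∈ Lco 5 then 1 else 0) := by
  obtain ⟨r0, r1, r2, r3, r4, r5, r6, r7, r8⟩ := rel5 h
  have rt := tot5 d
  rw [show Ioo 0 5 = {1, 2, 3, 4} by decide] at h1
  norm_num at ht
  obtain ⟨b0, b1, b2, b3, b4, b5, b6, b7, b8, b9, b10, b11, b12, b13⟩ := bnd5 d h
  rw [ht] at b0 b1 b2 b3 b4 b5 b6 b7 b8 b9 b10 b11 b12 b13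
  have z4 : d {1, 2} = 0 := by clear * - b4; omega
  have z5 : d {1, 3} = 0 := by clear * - b5; omega
  have z6 : d {1, 4} = 0 := by clear * - b6; omega
  have z7 : d {2, 3} = 0 := by clear * - b7; omega
  have z8 : d {2, 4} = 0 := by clear * - b8; omega
  have z9 : d {3, 4} = 0 := by clear * - b9; omega
  clear b0 b1 b2 b3 b4 b5 b6 b7 b8 b9 b10 b11 b12 b13
  simp only [h0, h1, ht, z4, z5, z6, z7, z8, z9, Nat.add_zero, Nat.zero_add] at rt r0 r1 r2 r3 r4 r5 r6 r7 r8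
  have e2 : d {2} = d {1} := by omega
  have e3 : d {3} = d {1} := by omega
  have e4 : d {4} = d {1} := by omega
  have e12 : d {1, 2, 4} = d {1, 2, 3} := by omega
  have e13 : d {1, 3, 4} = d {1, 2, 3} := by omega
  have e14 : d {2, 3, 4} = d {1, 2, 3} := by omega
  have es : d {1} + d {1, 2, 3} = 1 := by omega
  have hc : (d {1} = 1 ∧ d {1, 2, 3} = 0) ∨ (d {1} = 0 ∧ d {1, 2, 3} = 1) := by clear * - es; omega
  clear rt r0 r1 r2 r3 r4 r5 r6 r7 r8
  rcases hc with ⟨c0, c1⟩ | ⟨c0, c1⟩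
  · refine Or.inl fun D => ?_
    by_cases hD : D ⊆ Ioo 0 5
    · rcases cases5 hD with rfl | rfl | rfl | rfl | rfl | rfl | rfl | rfl | rfl | rfl | rfl | rfl | rfl | rfl | rfl | rfl
      · rw [if_neg (by decide)]; omega
      · rw [if_pos (by decide)]; omega
      · rw [if_pos (by decide)]; omega
      · rw [if_pos (by decide)]; omega
      · rw [if_pos (by decide)]; omega
      · rw [if_neg (by decide)]; omega
      · rw [if_neg (by decide)]; omega
      · rw [if_neg (by decide)]; omega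
      · rw [if_neg (by decide)]; omega
      · rw [if_neg (by decide)]; omega
      · rw [if_neg (by decide)]; omega
      · rw [if_neg (by decide)]; omega
      · rw [if_neg (by decide)]; omega
      · rw [if_neg (by decide)]; omega
      · rw [if_neg (by decide)]; omega
      · rw [if_neg (by decide)]; omega
    · have h2 : d D = 0 := by
        by_contra hne
        exact hD (h.supp D hne)
      have h3 : Lsing 5 ⊆ (Ioo 0 5).powerset := by decide
      rw [h2, if_neg fun h4 => hD (Finset.mem_powerset.1 (h3 h4))]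
  · refine Or.inr <| fun D => ?_
    by_cases hD : D ⊆ Ioo 0 5
    · rcases cases5 hD with rfl | rfl | rfl | rfl | rfl | rfl | rfl | rfl | rfl | rfl | rfl | rfl | rfl | rfl | rfl | rfl
      · rw [if_neg (by decide)]; omega
      · rw [if_neg (by decide)]; omega
      · rw [if_neg (by decide)]; omega
      · rw [if_neg (by decide)]; omega
      · rw [if_neg (by decide)]; omega
      · rw [if_neg (by decide)]; omega
      · rw [if_neg (by decide)]; omega
      · rw [if_neg (by decide)]; omega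
      · rw [if_neg (by decide)]; omega
      · rw [if_neg (by decide)]; omega
      · rw [if_neg (by decide)]; omega
      · rw [if_pos (by decide)]; omega
      · rw [if_pos (by decide)]; omega
      · rw [if_pos (by decide)]; omega
      · rw [if_pos (by decide)]; omega
      · rw [if_neg (by decide)]; omega
    · have h2 : d D = 0 := by
        by_contra hne
        exact hD (h.supp D hne)
      have h3 : Lco 5 ⊆ (Ioo 0 5).powerset := by decide
      rw [h2, if_neg fun h4 => hD (Finset.mem_powerset.1 (h3 h4))]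

theorem F6 (d : Finset ℕ → ℕ) (h : Sy 6 d) (h0 : d ∅ = 0) (h1 : d (Ioo 0 6) = 0)
    (ht : nt 6 d = 6 - 1) :
    (∀ D, d D = if D ∈ Lsing 6 then 1 else 0) ∨ (∀ D, d D = if D ∈ Lco 6 then 1 else 0) ∨ (∀ D, d D = if D ∈ L33 then 1 else 0) ∨ (∀ D, d D = if D ∈ L222 then 1 else 0) := by
  obtain ⟨r0, r1, r2, r3, r4, r5, r6, r7, r8, r9, r10, r11, r12, r13, r14, r15, r16, r17, r18, r19, r20⟩ := rel6 h
  have rt := tot6 d
  rw [show Ioo 0 6 = {1, 2, 3, 4, 5} by decide] at h1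
  norm_num at ht
  obtain ⟨b0, b1, b2, b3, b4, b5, b6, b7, b8, b9, b10, b11, b12, b13, b14, b15, b16, b17, b18, b19, b20, b21, b22, b23, b24, b25, b26, b27, b28, b29⟩ := bnd6 d h
  rw [ht] at b0 b1 b2 b3 b4 b5 b6 b7 b8 b9 b10 b11 b12 b13 b14 b15 b16 b17 b18 b19 b20 b21 b22 b23 b24 b25 b26 b27 b28 b29
  have z5 : d {1, 2} = 0 := by clear * - b5; omega
  have z6 : d {1, 3} = 0 := by clear * - b6; omega
  have z8 : d {1, 5} = 0 := by clear * - b8; omega
  have z9 : d {2, 3} = 0 := by clear * - b9; omega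
  have z12 : d {3, 4} = 0 := by clear * - b12; omega
  have z13 : d {3, 5} = 0 := by clear * - b13; omega
  have z14 : d {4, 5} = 0 := by clear * - b14; omega
  have z15 : d {1, 2, 3} = 0 := by clear * - b15; omega
  have z16 : d {1, 2, 4} = 0 := by clear * - b16; omega
  have z17 : d {1, 2, 5} = 0 := by clear * - b17; omega
  have z20 : d {1, 4, 5} = 0 := by clear * - b20; omega
  have z21 : d {2, 3, 4} = 0 := by clear * - b21; omega
  have z23 : d {2, 4, 5} = 0 := by clear * - b23; omega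
  have z24 : d {3, 4, 5} = 0 := by clear * - b24; omega
  clear b0 b1 b2 b3 b4 b5 b6 b7 b8 b9 b10 b11 b12 b13 b14 b15 b16 b17 b18 b19 b20 b21 b22 b23 b24 b25 b26 b27 b28 b29
  simp only [h0, h1, ht, z5, z6, z8, z9, z12, z13, z14, z15, z16, z17, z20, z21, z23, z24, Nat.add_zero, Nat.zero_add] at rt r0 r1 r2 r3 r4 r5 r6 r7 r8 r9 r10 r11 r12 r13 r14 r15 r16 r17 r18 r19 r20
  have e2 : d {2} = d {1} := by omega
  have e3 : d {3} = d {1} + d {1, 4} := by omega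
  have e4 : d {4} = d {1} := by omega
  have e5 : d {5} = d {1} := by omega
  have e11 : d {2, 4} = d {1, 4} + d {1, 3, 4} := by omega
  have e12 : d {2, 5} = d {1, 4} := by omega
  have e20 : d {1, 3, 5} = d {1, 4} + d {1, 3, 4} := by omega
  have e23 : d {2, 3, 5} = d {1, 3, 4} := by omega
  have e27 : d {1, 2, 3, 5} = d {1, 2, 3, 4} := by omega
  have e28 : d {1, 2, 4, 5} = d {1, 2, 3, 4} + d {1, 3, 4} := by omega
  have e29 : d {1, 3, 4, 5} = d {1, 2, 3, 4} := by omega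
  have e30 : d {2, 3, 4, 5} = d {1, 2, 3, 4} := by omega
  have es : d {1} + d {1, 2, 3, 4} + d {1, 4} + d {1, 3, 4} = 1 := by omega
  have hc : (d {1} = 1 ∧ d {1, 2, 3, 4} = 0 ∧ d {1, 4} = 0 ∧ d {1, 3, 4} = 0) ∨ (d {1} = 0 ∧ d {1, 2, 3, 4} = 1 ∧ d {1, 4} = 0 ∧ d {1, 3, 4} = 0) ∨ (d {1} = 0 ∧ d {1, 2, 3, 4} = 0 ∧ d {1, 4} = 1 ∧ d {1, 3, 4} = 0) ∨ (d {1} = 0 ∧ d {1, 2, 3, 4} = 0 ∧ d {1, 4} = 0 ∧ d {1, 3, 4} = 1) := by clear * - es; omega
  clear rt r0 r1 r2 r3 r4 r5 r6 r7 r8 r9 r10 r11 r12 r13 r14 r15 r16 r17 r18 r19 r20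
  rcases hc with ⟨c0, c1, c2, c3⟩ | ⟨c0, c1, c2, c3⟩ | ⟨c0, c1, c2, c3⟩ | ⟨c0, c1, c2, c3⟩
  · refine Or.inl fun D => ?_
    by_cases hD : D ⊆ Ioo 0 6
    · rcases cases6 hD with rfl | rfl | rfl | rfl | rfl | rfl | rfl | rfl | rfl | rfl | rfl | rfl | rfl | rfl | rfl | rfl | rfl | rfl | rfl | rfl | rfl | rfl | rfl | rfl | rfl | rfl | rfl | rfl | rfl | rfl | rfl | rfl
      · rw [if_neg (by decide)]; omega
      · rw [if_pos (by decide)]; omega
      · rw [if_pos (by decide)]; omega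
      · rw [if_pos (by decide)]; omega
      · rw [if_pos (by decide)]; omega
      · rw [if_pos (by decide)]; omega
      · rw [if_neg (by decide)]; omega
      · rw [if_neg (by decide)]; omega
      · rw [if_neg (by decide)]; omega
      · rw [if_neg (by decide)]; omega
      · rw [if_neg (by decide)]; omega
      · rw [if_neg (by decide)]; omega
      · rw [if_neg (by decide)]; omega
      · rw [if_neg (by decide)]; omega
      · rw [if_neg (by decide)]; omega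
      · rw [if_neg (by decide)]; omega
      · rw [if_neg (by decide)]; omega
      · rw [if_neg (by decide)]; omega
      · rw [if_neg (by decide)]; omega
      · rw [if_neg (by decide)]; omega
      · rw [if_neg (by decide)]; omega
      · rw [if_neg (by decide)]; omega
      · rw [if_neg (by decide)]; omega
      · rw [if_neg (by decide)]; omega
      · rw [if_neg (by decide)]; omega
      · rw [if_neg (by decide)]; omega
      · rw [if_neg (by decide)]; omega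
      · rw [if_neg (by decide)]; omega
      · rw [if_neg (by decide)]; omega
      · rw [if_neg (by decide)]; omega
      · rw [if_neg (by decide)]; omega
      · rw [if_neg (by decide)]; omega
    · have h2 : d D = 0 := by
        by_contra hne
        exact hD (h.supp D hne)
      have h3 : Lsing 6 ⊆ (Ioo 0 6).powerset := by decide
      rw [h2, if_neg fun h4 => hD (Finset.mem_powerset.1 (h3 h4))]
  · refine Or.inr <| Or.inl fun D => ?_
    by_cases hD : D ⊆ Ioo 0 6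
    · rcases cases6 hD with rfl | rfl | rfl | rfl | rfl | rfl | rfl | rfl | rfl | rfl | rfl | rfl | rfl | rfl | rfl | rfl | rfl | rfl | rfl | rfl | rfl | rfl | rfl | rfl | rfl | rfl | rfl | rfl | rfl | rfl | rfl | rfl
      · rw [if_neg (by decide)]; omega
      · rw [if_neg (by decide)]; omega
      · rw [if_neg (by decide)]; omega
      · rw [if_neg (by decide)]; omega
      · rw [if_neg (by decide)]; omega
      · rw [if_neg (by decide)]; omega
      · rw [if_neg (by decide)]; omega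
      · rw [if_neg (by decide)]; omega
      · rw [if_neg (by decide)]; omega
      · rw [if_neg (by decide)]; omega
      · rw [if_neg (by decide)]; omega
      · rw [if_neg (by decide)]; omega
      · rw [if_neg (by decide)]; omega
      · rw [if_neg (by decide)]; omega
      · rw [if_neg (by decide)]; omega
      · rw [if_neg (by decide)]; omega
      · rw [if_neg (by decide)]; omega
      · rw [if_neg (by decide)]; omega
      · rw [if_neg (by decide)]; omega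
      · rw [if_neg (by decide)]; omega
      · rw [if_neg (by decide)]; omega
      · rw [if_neg (by decide)]; omega
      · rw [if_neg (by decide)]; omega
      · rw [if_neg (by decide)]; omega
      · rw [if_neg (by decide)]; omega
      · rw [if_neg (by decide)]; omega
      · rw [if_pos (by decide)]; omega
      · rw [if_pos (by decide)]; omega
      · rw [if_pos (by decide)]; omega
      · rw [if_pos (by decide)]; omega
      · rw [if_pos (by decide)]; omega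
      · rw [if_neg (by decide)]; omega
    · have h2 : d D = 0 := by
        by_contra hne
        exact hD (h.supp D hne)
      have h3 : Lco 6 ⊆ (Ioo 0 6).powerset := by decide
      rw [h2, if_neg fun h4 => hD (Finset.mem_powerset.1 (h3 h4))]
  · refine Or.inr <| Or.inr <| Or.inl fun D => ?_
    by_cases hD : D ⊆ Ioo 0 6
    · rcases cases6 hD with rfl | rfl | rfl | rfl | rfl | rfl | rfl | rfl | rfl | rfl | rfl | rfl | rfl | rfl | rfl | rfl | rfl | rfl | rfl | rfl | rfl | rfl | rfl | rfl | rfl | rfl | rfl | rfl | rfl | rfl | rfl | rfl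
      · rw [if_neg (by decide)]; omega
      · rw [if_neg (by decide)]; omega
      · rw [if_neg (by decide)]; omega
      · rw [if_pos (by decide)]; omega
      · rw [if_neg (by decide)]; omega
      · rw [if_neg (by decide)]; omega
      · rw [if_neg (by decide)]; omega
      · rw [if_neg (by decide)]; omega
      · rw [if_pos (by decide)]; omega
      · rw [if_neg (by decide)]; omega
      · rw [if_neg (by decide)]; omega
      · rw [if_pos (by decide)]; omega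
      · rw [if_pos (by decide)]; omega
      · rw [if_neg (by decide)]; omega
      · rw [if_neg (by decide)]; omega
      · rw [if_neg (by decide)]; omega
      · rw [if_neg (by decide)]; omega
      · rw [if_neg (by decide)]; omega
      · rw [if_neg (by decide)]; omega
      · rw [if_neg (by decide)]; omega
      · rw [if_pos (by decide)]; omega
      · rw [if_neg (by decide)]; omega
      · rw [if_neg (by decide)]; omega
      · rw [if_neg (by decide)]; omega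
      · rw [if_neg (by decide)]; omega
      · rw [if_neg (by decide)]; omega
      · rw [if_neg (by decide)]; omega
      · rw [if_neg (by decide)]; omega
      · rw [if_neg (by decide)]; omega
      · rw [if_neg (by decide)]; omega
      · rw [if_neg (by decide)]; omega
      · rw [if_neg (by decide)]; omega
    · have h2 : d D = 0 := by
        by_contra hne
        exact hD (h.supp D hne)
      have h3 : L33 ⊆ (Ioo 0 6).powerset := by decide
      rw [h2, if_neg fun h4 => hD (Finset.mem_powerset.1 (h3 h4))]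
  · refine Or.inr <| Or.inr <| Or.inr <| fun D => ?_
    by_cases hD : D ⊆ Ioo 0 6
    · rcases cases6 hD with rfl | rfl | rfl | rfl | rfl | rfl | rfl | rfl | rfl | rfl | rfl | rfl | rfl | rfl | rfl | rfl | rfl | rfl | rfl | rfl | rfl | rfl | rfl | rfl | rfl | rfl | rfl | rfl | rfl | rfl | rfl | rfl
      · rw [if_neg (by decide)]; omega
      · rw [if_neg (by decide)]; omega
      · rw [if_neg (by decide)]; omega
      · rw [if_neg (by decide)]; omega
      · rw [if_neg (by decide)]; omega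
      · rw [if_neg (by decide)]; omega
      · rw [if_neg (by decide)]; omega
      · rw [if_neg (by decide)]; omega
      · rw [if_neg (by decide)]; omega
      · rw [if_neg (by decide)]; omega
      · rw [if_neg (by decide)]; omega
      · rw [if_pos (by decide)]; omega
      · rw [if_neg (by decide)]; omega
      · rw [if_neg (by decide)]; omega
      · rw [if_neg (by decide)]; omega
      · rw [if_neg (by decide)]; omega
      · rw [if_neg (by decide)]; omega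
      · rw [if_neg (by decide)]; omega
      · rw [if_neg (by decide)]; omega
      · rw [if_pos (by decide)]; omega
      · rw [if_pos (by decide)]; omega
      · rw [if_neg (by decide)]; omega
      · rw [if_neg (by decide)]; omega
      · rw [if_pos (by decide)]; omega
      · rw [if_neg (by decide)]; omega
      · rw [if_neg (by decide)]; omega
      · rw [if_neg (by decide)]; omega
      · rw [if_neg (by decide)]; omega
      · rw [if_pos (by decide)]; omega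
      · rw [if_neg (by decide)]; omega
      · rw [if_neg (by decide)]; omega
      · rw [if_neg (by decide)]; omega
    · have h2 : d D = 0 := by
        by_contra hne
        exact hD (h.supp D hne)
      have h3 : L222 ⊆ (Ioo 0 6).powerset := by decide
      rw [h2, if_neg fun h4 => hD (Finset.mem_powerset.1 (h3 h4))]

end Pool.Agent.R784.SP
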