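import Mathlib
import Pool.Agent.R784.SP.Small2
import Pool.Agent.R859.QS.Rot

/-! # The set function of a symmetric set of permutations (helper784) -/

set_option autoImplicit false

namespace Pool.Agent.R784.SP

open Finset Pool.Agent.R859.QS

/-- the classification. -/
theorem final {n : ℕ} (hn : 2 ≤ n) {d : Finset ℕ → ℕ} (h : Sy n d) (h0 : d ∅ = 0)
    (h1 : d (Ioo 0 n) = 0) (ht : nt n d = n - 1) :
    (∀ D, d D = if D ∈ Lsing n then 1 else 0) ∨ (∀ D, d D = if D ∈ Lco n then 1 else 0) ∨
      (n = 6 ∧ ((∀ D, d D = if D ∈ L33 then 1 else 0) ∨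
        (∀ D, d D = if D ∈ L222 then 1 else 0))) := by
  rcases Nat.lt_or_ge n 7 with hlt | hge
  · interval_cases n
    · exfalso
      have h2 := zz_total (n := 2) (by norm_num) d
      rw [show Ioo 0 2 = {1} by decide] at h2 h1
      rw [zz_singleton] at h2
      omega
    · exact Or.inl (F3 d h h0 h1 ht)
    · rcases F4 d h h0 h1 ht with h2 | h2
      · exact Or.inl h2
      · exact Or.inr (Or.inl h2)
    · rcases F5 d h h0 h1 ht with h2 | h2
      · exact Or.inl h2
      · exact Or.inr (Or.inl h2)
    · rcases F6 d h h0 h1 ht with h2 | h2 | h2 | h2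
      · exact Or.inl h2
      · exact Or.inr (Or.inl h2)
      · exact Or.inr (Or.inr ⟨rfl, Or.inl h2⟩)
      · exact Or.inr (Or.inr ⟨rfl, Or.inr h2⟩)
  · have T : ∀ n : ℕ, 5 ≤ n → ∀ d : Finset ℕ → ℕ, Sy n d → nt n d ≤ n - 2 →
        ∀ D, nx n d D = 0 := by
      intro n
      induction n using Nat.strong_induction_on with
      | _ n ih =>
        intro hn5 d h ht
        rcases Nat.lt_or_ge n 7 with hlt | hge
        · interval_cases n
          · exact T5 d h ht
          · exact T6 d h ht
        · have hs := step hge h (by omega) (ih (n - 2) (by omega) (by omega))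
          have h1m : 1 ∈ Ioo 0 n := Finset.mem_Ioo.2 (by omega)
          rcases classify (by omega) h (by omega) hs with h2 | h2 | h2
          · exact h2
          · exfalso
            have h3 : nt n d = n - 1 := by
              unfold nt
              rw [Finset.sum_congr rfl fun D _ => h2 D]
              rw [← Finset.sum_filter, Finset.sum_const, smul_eq_mul, mul_one]
              have h4 : (Ioo 0 n).powerset.filter
                  (fun D => D ∈ (Ioo 0 n).image (fun i => ({i} : Finset ℕ))) =
                  (Ioo 0 n).image (fun i => ({i} : Finset ℕ)) := by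
                ext D
                rw [Finset.mem_filter, and_iff_right_iff_imp, Finset.mem_image]
                rintro ⟨i, hi, rfl⟩
                exact Finset.mem_powerset.2 (Finset.singleton_subset_iff.2 hi)
              rw [h4, Finset.card_image_of_injective _ Finset.singleton_injective, Nat.card_Ioo]
              omega
            omega
          · exfalso
            have h3 : nt n d = n - 1 := by
              have h5 := ct_cp n (nx n d) (fun _ => True) (fun _ => True) (fun _ _ => by simp)
              have h6 : ct n (nx n d) (fun _ => True) = nt n d := by simp [ct, nt]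
              rw [← h6, ← h5]
              unfold ct
              rw [Finset.filter_true_of_mem (fun _ _ => trivial),
                Finset.sum_congr rfl fun D _ => h2 D]
              rw [← Finset.sum_filter, Finset.sum_const, smul_eq_mul, mul_one]
              have h4 : (Ioo 0 n).powerset.filter
                  (fun D => D ∈ (Ioo 0 n).image (fun i => ({i} : Finset ℕ))) =
                  (Ioo 0 n).image (fun i => ({i} : Finset ℕ)) := by
                ext D
                rw [Finset.mem_filter, and_iff_right_iff_imp, Finset.mem_image]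
                rintro ⟨i, hi, rfl⟩
                exact Finset.mem_powerset.2 (Finset.singleton_subset_iff.2 hi)
              rw [h4, Finset.card_image_of_injective _ Finset.singleton_injective, Nat.card_Ioo]
              omega
            omega
    have hs := step hge h (by omega) (T (n - 2) (by omega))
    have hnx : ∀ D, nx n d D = d D := by
      intro D
      unfold nx
      split_ifs with h2
      · rcases h2 with rfl | rfl
        · exact h0.symm
        · exact h1.symm
      · rfl
    rcases classify (by omega) h (by omega) hs with h2 | h2 | h2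
    · exfalso
      have : nt n d = 0 := Finset.sum_eq_zero fun D _ => h2 D
      omega
    · left
      intro D
      rw [← hnx D]
      exact h2 D
    · right; left
      intro D
      by_cases hD : D ⊆ Ioo 0 n
      · have h3 := h2 (Ioo 0 n \ D)
        rw [cp, if_pos Finset.sdiff_subset, Finset.sdiff_sdiff_eq_self hD, hnx] at h3
        rw [h3]
        have h4 : Ioo 0 n \ D ∈ (Ioo 0 n).image (fun i => ({i} : Finset ℕ)) ↔ D ∈ Lco n := by
          rw [Lco, Finset.mem_image, Finset.mem_image]
          constructor
          · rintro ⟨i, hi, h5⟩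
            exact ⟨i, hi, by rw [h5, Finset.sdiff_sdiff_eq_self hD]⟩
          · rintro ⟨i, hi, rfl⟩
            exact ⟨i, hi, by
              rw [Finset.sdiff_sdiff_eq_self (Finset.singleton_subset_iff.2 hi)]⟩
        by_cases h5 : D ∈ Lco n
        · rw [if_pos h5, if_pos (h4.2 h5)]
        · rw [if_neg h5, if_neg fun h6 => h5 (h4.1 h6)]
      · have h3 : d D = 0 := by
          by_contra hne
          exact hD (h.supp D hne)
        rw [h3, if_neg]
        intro h4
        rw [Lco, Finset.mem_image] at h4
        obtain ⟨i, -, rfl⟩ := h4
        exact hD Finset.sdiff_subset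

/-! ### The set function of a set of permutations -/

variable {n : ℕ}

/-- number of the permutations with given descent set. -/
def dS (S : Finset (Equiv.Perm (Fin n))) (D : Finset ℕ) : ℕ := (S.filter fun π => Des π = D).card

lemma zz_dS (S : Finset (Equiv.Perm (Fin n))) (E : Finset ℕ) :
    zz (dS S) E = (S.filter fun π => Des π ⊆ E).card := by
  rw [zz, Finset.card_eq_sum_card_fiberwise (f := fun π => Des π) (t := E.powerset)
    (fun π hπ => Finset.mem_coe.2 (Finset.mem_powerset.2 (Finset.mem_filter.1 hπ).2))]
  refine Finset.sum_congr rfl fun D hD => ?_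
  rw [Finset.mem_powerset] at hD
  unfold dS
  congr 1
  ext π
  simp only [Finset.mem_filter]
  constructor
  · rintro ⟨h1, rfl⟩
    exact ⟨⟨h1, hD⟩, rfl⟩
  · rintro ⟨⟨h1, -⟩, h2⟩
    exact ⟨h1, h2⟩

lemma getD_sum_take (l : List ℕ) (k : ℕ) : (l.take k).sum = ∑ u ∈ Finset.range k, l.getD u 0 := by
  induction k with
  | zero => simp
  | succ k ih =>
    rw [Finset.sum_range_succ, ← ih]
    by_cases hk : k < l.length
    · rw [List.take_succ_eq_append_getElem hk, List.sum_append, List.sum_singleton,
        List.getD_eq_getElem _ _ hk]
    · rw [List.take_of_length_le (by omega), List.take_of_length_le (by omega),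
        List.getD_eq_default _ _ (by omega)]
      simp

lemma card_toFinsupp (l : List ℕ) :
    Multiset.card (Finsupp.toMultiset l.toFinsupp) = l.sum := by
  induction l using List.reverseRecOn with
  | nil => simp
  | append_singleton l x ih =>
    rw [List.toFinsupp_concat_eq_toFinsupp_add_single, map_add, Multiset.card_add, ih,
      List.sum_append, List.sum_singleton, Finsupp.toMultiset_single]
    simp

lemma lt_iff_count (g : Fin n → ℕ) (hg : Monotone g) (v : ℕ) (k : Fin n) :
    g k < v ↔ k.val < (Finset.univ.filter fun i => g i < v).card := by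
  constructor
  · intro h
    have : Finset.Iic k ⊆ Finset.univ.filter fun i => g i < v := by
      intro i hi
      rw [Finset.mem_Iic] at hi
      rw [Finset.mem_filter]
      exact ⟨Finset.mem_univ _, (hg hi).trans_lt h⟩
    have h2 := Finset.card_le_card this
    rw [Fin.card_Iic] at h2
    omega
  · intro h
    by_contra hcon
    have : (Finset.univ.filter fun i => g i < v) ⊆ Finset.Iio k := by
      intro i hi
      rw [Finset.mem_filter] at hi
      rw [Finset.mem_Iio]
      by_contra hik
      exact hcon ((hg (not_lt.1 hik)).trans_lt hi.2)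
    have h2 := Finset.card_le_card this
    rw [Fin.card_Iio] at h2
    omega

lemma count_lt (g : Fin n → ℕ) (v : ℕ) :
    (Finset.univ.filter fun i => g i < v).card = ∑ u ∈ Finset.range v, cont g u := by
  rw [Finset.card_eq_sum_card_fiberwise (f := g) (t := Finset.range v)
    (fun i hi => Finset.mem_coe.2 (Finset.mem_range.2 (Finset.mem_filter.1 hi).2))]
  refine Finset.sum_congr rfl fun u hu => ?_
  rw [Finset.mem_range] at hu
  rw [cont_apply]
  congr 1
  ext i
  simp only [Finset.mem_filter, Finset.mem_univ, true_and]
  constructor
  · rintro ⟨-, h⟩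
    exact h
  · rintro rfl
    exact ⟨hu, rfl⟩

lemma coeff_list (S : Finset (Equiv.Perm (Fin n))) (l : List ℕ) (hl : l.sum = n) :
    MvPowerSeries.coeff l.toFinsupp (QF S.val) = (zz (dS S) (psl n l) : ℤ) := by
  classical
  obtain ⟨g, hg, hc⟩ := exists_mono n l.toFinsupp (by rw [card_toFinsupp, hl])
  rw [coeff_QF_comp g hg _ hc S.val, zz_dS]
  have key : ∀ z : Equiv.Perm (Fin n), comp g z ↔ Des z ⊆ psl n l := by
    intro z
    rw [des_subset_iff]
    have hcount : ∀ v, (Finset.univ.filter fun i => g i < v).card = (l.take v).sum := by
      intro v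
      rw [count_lt, hc, getD_sum_take]
      rfl
    have hj : ∀ i j : Fin n, j.val = i.val + 1 → (g i = g j ↔ j.val ∉ psl n l) := by
      intro i j hij
      constructor
      · intro h1 h2
        rw [mem_psl] at h2
        obtain ⟨-, a, ha, hs⟩ := h2
        rw [List.prefix_iff_eq_take] at ha
        have h3 := hcount a.length
        rw [← ha, hs] at h3
        have h4 := (lt_iff_count g hg a.length i).2 (by omega)
        have h5 := (lt_iff_count g hg a.length j).not.2 (by omega)
        omega
      · intro h2
        by_contra h1
        apply h2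
        have h3 : g i < g j := lt_of_le_of_ne (hg (by rw [Fin.le_def]; omega)) h1
        rw [mem_psl]
        refine ⟨⟨by omega, j.isLt⟩, l.take (g j), List.take_prefix _ _, ?_⟩
        rw [← hcount]
        have h4 := (lt_iff_count g hg (g j) i).1 h3
        have h5 := (lt_iff_count g hg (g j) j).not.1 (lt_irrefl _)
        omega
    unfold comp
    refine forall_congr' fun i => forall_congr' fun j => forall_congr' fun hij => ?_
    rw [hj i j hij]
  have h2 : (S.val.map fun z => if comp g z then (1 : ℤ) else 0).sum =
      ∑ z ∈ S, if comp g z then (1 : ℤ) else 0 := rfl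
  rw [h2, Finset.card_filter]
  push_cast
  refine Finset.sum_congr rfl fun z _ => ?_
  rw [if_congr (key z) rfl rfl]

lemma swap_toFinsupp (a b : List ℕ) (x y : ℕ) :
    (a ++ y :: x :: b).toFinsupp =
      ((a ++ x :: y :: b).toFinsupp).mapDomain (Equiv.swap a.length (a.length + 1)) := by
  ext v
  rw [Finsupp.mapDomain_equiv_apply, Equiv.symm_swap]
  simp only [List.toFinsupp_apply]
  rcases lt_trichotomy v a.length with h | h | h
  · rw [Equiv.swap_apply_of_ne_of_ne (by omega) (by omega), List.getD_append _ _ _ _ h,
      List.getD_append _ _ _ _ h]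
  · subst h
    rw [Equiv.swap_apply_left, List.getD_append_right _ _ _ _ le_rfl,
      List.getD_append_right _ _ _ _ (by omega)]
    simp
  · rw [List.getD_append_right _ _ _ _ h.le]
    by_cases h2 : v = a.length + 1
    · subst h2
      rw [Equiv.swap_apply_right, List.getD_append_right _ _ _ _ le_rfl]
      simp
    · rw [Equiv.swap_apply_of_ne_of_ne (by omega) h2, List.getD_append_right _ _ _ _ h.le]
      obtain ⟨w, hw⟩ : ∃ w, v - a.length = w + 2 := ⟨v - a.length - 2, by omega⟩
      rw [hw]
      simp

lemma coeff_perm {f : MvPowerSeries ℕ ℤ} (hf : IsSymm f) {l l' : List ℕ} (h : l.Perm l') :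
    MvPowerSeries.coeff l.toFinsupp f = MvPowerSeries.coeff l'.toFinsupp f := by
  have key : ∀ l l' : List ℕ, l.Perm l' → ∀ a : List ℕ,
      MvPowerSeries.coeff (a ++ l).toFinsupp f = MvPowerSeries.coeff (a ++ l').toFinsupp f := by
    intro l l' h
    induction h with
    | nil => intro a; rfl
    | cons x _ ih =>
      intro a
      have := ih (a ++ [x])
      simpa using this
    | swap x y l =>
      intro a
      rw [swap_toFinsupp a l x y, hf]
    | trans _ _ ih1 ih2 =>
      intro a
      rw [ih1 a, ih2 a]
  exact key l l' h []

lemma Sy_dS {S : Finset (Equiv.Perm (Fin n))} (hS : IsSymm (QF S.val)) : Sy n (dS S) := by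
  refine ⟨?_, ?_⟩
  · intro D hD
    unfold dS at hD
    obtain ⟨π, hπ⟩ := Finset.card_pos.1 (Nat.pos_of_ne_zero hD)
    rw [Finset.mem_filter] at hπ
    rw [← hπ.2]
    exact Finset.filter_subset _ _
  · intro l l' h hl
    have h1 := coeff_perm hS h
    rw [coeff_list S l hl, coeff_list S l' (by rw [← h.sum_eq, hl])] at h1
    exact_mod_cast h1

end Pool.Agent.R784.SP
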