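import Mathlib

/-! # Schur functions (helper784) -/

set_option autoImplicit false

namespace Pool.Agent.R784.SP

/-- The exponent of the monomial of a semistandard Young tableau. -/
noncomputable def tcont {μ : YoungDiagram} (T : SemistandardYoungTableau μ) : ℕ →₀ ℕ :=
  ∑ c ∈ μ.cells, Finsupp.single (T c.1 c.2) 1

/-- The Schur function `s_μ` as a formal power series in `x_0, x_1, …`: the coefficient of a
monomial is the number of semistandard Young tableaux of shape `μ` with this content. -/
noncomputable def schur (μ : YoungDiagram) : MvPowerSeries ℕ ℤ := fun m =>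
  (Nat.card {T : SemistandardYoungTableau μ // tcont T = m} : ℤ)

/-- A homogeneous power series of degree `n` is Schur-positive if it is a sum of Schur functions
`s_μ` with `μ` a partition of `n`. -/
def SchurPositive (n : ℕ) (f : MvPowerSeries ℕ ℤ) : Prop :=
  ∃ M : Multiset YoungDiagram, (∀ μ ∈ M, μ.card = n) ∧ f = (M.map schur).sum

end Pool.Agent.R784.SP
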