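import Mathlib
import Pool.Agent.R784.SP.SchurDefs
import Pool.Agent.R784.SP.QSym

/-! # Schur functions of special shapes (helper784) -/

set_option autoImplicit false

namespace Pool.Agent.R784.SP

open Finset Pool.Agent.R859.QS

section general

variable {n : ℕ}

/-- conditions on a word to be a semistandard tableau in the order `e` of the cells. -/
def CC (e : Fin n → ℕ × ℕ) (w : Fin n → ℕ) : Prop :=
  (∀ i j, (e i).1 = (e j).1 → (e i).2 < (e j).2 → w i ≤ w j) ∧
    (∀ i j, (e i).2 = (e j).2 → (e i).1 < (e j).1 → w i < w j)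

open Classical in
lemma coeff_schur (μ : YoungDiagram) (e : Fin n → ℕ × ℕ) (he : Function.Injective e)
    (hμ : ∀ c, c ∈ μ ↔ ∃ i, e i = c) (m : ℕ →₀ ℕ) :
    MvPowerSeries.coeff m (schur μ) = (((W n m).filter (CC e)).card : ℤ) := by
  have h1 : MvPowerSeries.coeff m (schur μ) =
    (Nat.card {T : SemistandardYoungTableau μ // tcont T = m} : ℤ) := rfl
  rw [h1]
  congr 1
  rw [← Fintype.card_coe, ← Nat.card_eq_fintype_card]
  have hcont : ∀ T : SemistandardYoungTableau μ,
      tcont T = cont (fun i => T (e i).1 (e i).2) := by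
    intro T
    have hcells : μ.cells = Finset.univ.image e := by
      ext c
      rw [YoungDiagram.mem_cells, hμ, Finset.mem_image]
      simp
    rw [tcont, hcells, Finset.sum_image fun a _ b _ h => he h]
    rfl
  -- the filling of a word
  let fill : (Fin n → ℕ) → ℕ → ℕ → ℕ := fun w a b => if h : ∃ i, e i = (a, b) then w h.choose else 0
  have hfill : ∀ w i, fill w (e i).1 (e i).2 = w i := by
    intro w i
    have h : ∃ j, e j = ((e i).1, (e i).2) := ⟨i, rfl⟩
    simp only [fill, dif_pos h]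
    congr 1
    exact he h.choose_spec
  refine Nat.card_congr
    { toFun := fun T => ⟨fun i => T.1 (e i).1 (e i).2, ?_⟩
      invFun := fun w => ⟨⟨fill w.1, ?_, ?_, ?_⟩, ?_⟩
      left_inv := ?_
      right_inv := ?_ }
  · rw [Finset.mem_filter, mem_W]
    refine ⟨by rw [← hcont, T.2], ?_, ?_⟩
    · intro i j h2 h3
      have h4 : ((e i).1, (e j).2) ∈ μ := by
        rw [h2]
        exact (hμ _).2 ⟨j, rfl⟩
      have h5 := T.1.row_weak h3 h4
      change T.1 (e i).1 (e i).2 ≤ T.1 (e j).1 (e j).2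
      rw [← h2]
      exact h5
    · intro i j h2 h3
      have h4 : ((e j).1, (e i).2) ∈ μ := by
        rw [h2]
        exact (hμ _).2 ⟨j, rfl⟩
      have h5 := T.1.col_strict h3 h4
      change T.1 (e i).1 (e i).2 < T.1 (e j).1 (e j).2
      rw [← h2]
      exact h5
  · intro i j1 j2 hj hc
    have hc1 : (i, j1) ∈ μ := μ.up_left_mem le_rfl hj.le hc
    obtain ⟨a, ha⟩ := (hμ _).1 hc1
    obtain ⟨b, hb⟩ := (hμ _).1 hc
    have h2 := (Finset.mem_filter.1 w.2).2.1 a b (by rw [ha, hb]) (by rw [ha, hb]; exact hj)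
    have h3 := hfill w.1 a
    have h4 := hfill w.1 b
    rw [ha] at h3
    rw [hb] at h4
    rw [h3, h4]
    exact h2
  · intro i1 i2 j hi hc
    have hc1 : (i1, j) ∈ μ := μ.up_left_mem hi.le le_rfl hc
    obtain ⟨a, ha⟩ := (hμ _).1 hc1
    obtain ⟨b, hb⟩ := (hμ _).1 hc
    have h2 := (Finset.mem_filter.1 w.2).2.2 a b (by rw [ha, hb]) (by rw [ha, hb]; exact hi)
    have h3 := hfill w.1 a
    have h4 := hfill w.1 b
    rw [ha] at h3
    rw [hb] at h4
    rw [h3, h4]
    exact h2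
  · intro i j hc
    have : ¬ ∃ a, e a = (i, j) := fun h => hc ((hμ _).2 h)
    simp only [fill, dif_neg this]
  · rw [hcont]
    have h2 := (Finset.mem_filter.1 w.2).1
    rw [mem_W] at h2
    refine Eq.trans ?_ h2
    congr 1
    funext i
    exact hfill w.1 i
  · intro T
    apply Subtype.ext
    refine SemistandardYoungTableau.ext fun i j => ?_
    by_cases h : ∃ a, e a = (i, j)
    · obtain ⟨a, ha⟩ := h
      have h3 := hfill (fun i => T.1 (e i).1 (e i).2) a
      rw [ha] at h3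
      exact h3
    · have h4 : (i, j) ∉ μ := fun hc => h ((hμ _).1 hc)
      rw [T.1.zeros h4]
      change fill _ i j = 0
      simp only [fill, dif_neg h]
  · intro w
    apply Subtype.ext
    funext i
    exact hfill w.1 i

/-- the strictness condition of a fundamental quasisymmetric function. -/
def asc (D : Finset ℕ) (w : Fin n → ℕ) : Prop :=
  ∀ j k : Fin n, k.val = j.val + 1 → j.val + 1 ∈ D → w j < w k

open Classical in
lemma coeff_fund' (D : Finset ℕ) (m : ℕ →₀ ℕ) :
    MvPowerSeries.coeff m (fund n D) =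
      (((W n m).filter fun w => Monotone w ∧ asc D w).card : ℤ) := by
  have h1 : MvPowerSeries.coeff m (fund n D) = (Nat.card {i : Fin n → ℕ // Monotone i ∧
    (∀ j k : Fin n, k.val = j.val + 1 → j.val + 1 ∈ D → i j < i k) ∧ cont i = m} : ℤ) := rfl
  rw [h1]
  congr 1
  rw [← Fintype.card_coe, ← Nat.card_eq_fintype_card]
  refine Nat.card_congr (Equiv.subtypeEquivRight fun w => ?_)
  rw [Finset.mem_filter, mem_W]
  unfold asc
  tauto

lemma cont_cons_succAbove {k : ℕ} (i : Fin (k + 1)) (w : Fin (k + 1) → ℕ) :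
    cont (Fin.cons (w i) (fun j => w (i.succAbove j)) : Fin (k + 1) → ℕ) = cont w := by
  unfold cont
  rw [Fin.sum_univ_succ, Fin.sum_univ_succAbove _ i]
  simp

lemma eq_cons_of {k : ℕ} {g w : Fin (k + 1) → ℕ} (hg : Monotone g)
    (hw : Monotone fun j : Fin k => w j.succ) (hc : cont g = cont w) {i : Fin (k + 1)}
    (hi : g i = w 0) : (Fin.cons (g i) (fun j => g (i.succAbove j)) : Fin (k + 1) → ℕ) = w := by
  have h1 : cont g = Finsupp.single (g i) 1 + cont (fun j => g (i.succAbove j)) := by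
    unfold cont
    rw [Fin.sum_univ_succAbove _ i]
  have h2 : cont w = Finsupp.single (w 0) 1 + cont (fun j : Fin k => w j.succ) := by
    unfold cont
    rw [Fin.sum_univ_succ]
  rw [h1, h2, hi] at hc
  have h3 : (fun j => g (i.succAbove j)) = fun j : Fin k => w j.succ :=
    monotone_unique _ _ (hg.comp (Fin.strictMono_succAbove i).monotone) hw (add_left_cancel hc)
  rw [h3, hi]
  exact Fin.cons_self_tail w

open Classical in
/-- counting pairs. -/
lemma sum_card_eq (s : Finset ℕ) (W : Finset (Fin n → ℕ)) (P : ℕ → (Fin n → ℕ) → Prop) :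
    (∑ i ∈ s, ((W.filter fun w => P i w).card : ℤ)) =
      (((s ×ˢ W).filter fun p => P p.1 p.2).card : ℤ) := by
  rw [Finset.card_filter, Finset.sum_product]
  push_cast
  refine Finset.sum_congr rfl fun i _ => ?_
  rw [Finset.card_filter]
  push_cast
  rfl

end general

section hooks

variable {k : ℕ}

lemma exists_sorted {n : ℕ} (w : Fin n → ℕ) : ∃ g : Fin n → ℕ, Monotone g ∧ cont g = cont w ∧
    ∀ i, ∃ j, g j = w i :=
  ⟨w ∘ Tuple.sort w, Tuple.monotone_sort w, cont_comp_perm _ _,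
    fun i => ⟨(Tuple.sort w).symm i, by simp⟩⟩

open Classical in
/-- the generating function of the singletons. -/
lemma sing_count (m : ℕ →₀ ℕ) :
    (((Ioo 0 (k + 2) ×ˢ W (k + 2) m).filter fun p : ℕ × (Fin (k + 2) → ℕ) =>
      Monotone p.2 ∧ asc {p.1} p.2).card) =
      ((W (k + 2) m).filter fun w => (Monotone fun j : Fin (k + 1) => w j.succ) ∧ w 1 < w 0).card := by
  have hm : ∀ {i : ℕ}, i ∈ Ioo 0 (k + 2) ↔ 0 < i ∧ i < k + 2 := Finset.mem_Ioo
  have hlt : ∀ p ∈ ((Ioo 0 (k + 2) ×ˢ W (k + 2) m).filter fun p : ℕ × (Fin (k + 2) → ℕ) =>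
      Monotone p.2 ∧ asc {p.1} p.2), p.1 < k + 2 := by
    intro p hp
    rw [Finset.mem_filter, Finset.mem_product] at hp
    exact (hm.1 hp.1.1).2
  refine Finset.card_bij (fun p hp => (Fin.cons (p.2 ⟨p.1, hlt p hp⟩)
    (fun j => p.2 ((⟨p.1, hlt p hp⟩ : Fin (k + 2)).succAbove j)) : Fin (k + 2) → ℕ)) ?_ ?_ ?_
  · rintro ⟨i, w⟩ hp
    have hlt' := hlt _ hp
    rw [Finset.mem_filter, Finset.mem_product, mem_W, hm] at hp
    obtain ⟨⟨⟨h0, -⟩, h1⟩, h2, h3⟩ := hp
    simp only at h0 h1 h2 h3 hlt'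
    rw [Finset.mem_filter, mem_W, cont_cons_succAbove]
    refine ⟨h1, ?_, ?_⟩
    · simp only [Fin.cons_succ]
      exact h2.comp (Fin.strictMono_succAbove _).monotone
    · have e1 : (1 : Fin (k + 2)) = Fin.succ 0 := rfl
      rw [e1, Fin.cons_succ, Fin.cons_zero, Fin.succAbove_of_castSucc_lt]
      · have h4 : w (Fin.castSucc (0 : Fin (k + 1))) ≤ w ⟨i - 1, by omega⟩ := h2 (by
          rw [Fin.le_def]; simp)
        have h5 : w ⟨i - 1, by omega⟩ < w ⟨i, hlt'⟩ := h3 _ _ (by simp; omega) (by simp; omega)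
        exact h4.trans_lt h5
      · rw [Fin.lt_def]; simpa using h0
  · rintro ⟨i, w⟩ hp ⟨i', w'⟩ hp' heq
    have hlt1 := hlt _ hp
    have hlt2 := hlt _ hp'
    rw [Finset.mem_filter, Finset.mem_product, mem_W, hm] at hp hp'
    obtain ⟨⟨⟨h0, -⟩, h1⟩, h2, h3⟩ := hp
    obtain ⟨⟨⟨h0', -⟩, h1'⟩, h2', h3'⟩ := hp'
    simp only at h0 h1 h2 h3 h0' h1' h2' h3' hlt1 hlt2 heq
    obtain rfl : w = w' := monotone_unique _ _ h2 h2' (h1.trans h1'.symm)
    have h4 := congrFun heq 0
    rw [Fin.cons_zero, Fin.cons_zero] at h4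
    have key : ∀ i i' : ℕ, ∀ (hi : i < k + 2) (hi' : i' < k + 2), asc {i'} w →
        w ⟨i, hi⟩ = w ⟨i', hi'⟩ → ¬ i < i' := by
      intro i i' hi hi' h3 h4 hii
      have h5 : w ⟨i, hi⟩ ≤ w ⟨i' - 1, by omega⟩ := h2 (by rw [Fin.le_def]; simp; omega)
      have h6 : w ⟨i' - 1, by omega⟩ < w ⟨i', hi'⟩ := h3 _ _ (by simp; omega) (by simp; omega)
      omega
    have h5 := key i i' hlt1 hlt2 h3' h4
    have h6 := key i' i hlt2 hlt1 h3 h4.symm
    have h7 : i = i' := by omega
    rw [h7]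
  · intro w hw
    rw [Finset.mem_filter, mem_W] at hw
    obtain ⟨h1, h2, h3⟩ := hw
    obtain ⟨g, hg, hc, hex⟩ := exists_sorted w
    have hne : (Finset.univ.filter fun i => g i = w 0).Nonempty := by
      obtain ⟨j, hj⟩ := hex 0
      exact ⟨j, by simpa using hj⟩
    set i := (Finset.univ.filter fun i => g i = w 0).min' hne with hi
    have hgi : g i = w 0 := (Finset.mem_filter.1 (Finset.min'_mem _ hne)).2
    have hmin : ∀ j, g j = w 0 → i ≤ j := fun j hj =>
      Finset.min'_le (Finset.univ.filter fun i => g i = w 0) j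
        (Finset.mem_filter.2 ⟨Finset.mem_univ _, hj⟩)
    have heq := eq_cons_of hg h2 hc hgi
    have hi0 : i ≠ 0 := by
      intro h0
      have h4 := congrFun heq 1
      have e1 : (1 : Fin (k + 2)) = Fin.succ 0 := rfl
      rw [h0, e1, Fin.cons_succ] at h4
      have h5 : g 0 ≤ g ((0 : Fin (k + 2)).succAbove 0) := hg (Fin.zero_le _)
      rw [h0] at hgi
      rw [← e1] at h4
      omega
    have hi0' : 0 < i.val := Nat.pos_of_ne_zero fun h => hi0 (Fin.ext h)
    refine ⟨(i.val, g), ?_, heq⟩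
    rw [Finset.mem_filter, Finset.mem_product, mem_W, hm]
    refine ⟨⟨⟨hi0', i.isLt⟩, hc.trans h1⟩, hg, ?_⟩
    intro j j' hjj hj
    rw [Finset.mem_singleton] at hj
    have hj' : j' = i := Fin.ext (by omega)
    subst hj'
    refine lt_of_le_of_ne (hg (by rw [Fin.le_def]; omega)) fun h4 => ?_
    have h5 := hmin j (h4.trans hgi)
    rw [Fin.le_def] at h5
    omega

open Classical in
/-- the generating function of the complements of the singletons. -/
lemma co_count (m : ℕ →₀ ℕ) :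
    (((Ioo 0 (k + 2) ×ˢ W (k + 2) m).filter fun p : ℕ × (Fin (k + 2) → ℕ) =>
      Monotone p.2 ∧ asc (Ioo 0 (k + 2) \ {p.1}) p.2).card) =
      ((W (k + 2) m).filter fun w =>
        (StrictMono fun j : Fin (k + 1) => w j.succ) ∧ w 1 ≤ w 0).card := by
  have hm : ∀ {i : ℕ}, i ∈ Ioo 0 (k + 2) ↔ 0 < i ∧ i < k + 2 := Finset.mem_Ioo
  have hlt : ∀ p ∈ ((Ioo 0 (k + 2) ×ˢ W (k + 2) m).filter fun p : ℕ × (Fin (k + 2) → ℕ) =>
      Monotone p.2 ∧ asc (Ioo 0 (k + 2) \ {p.1}) p.2), p.1 < k + 2 := by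
    intro p hp
    rw [Finset.mem_filter, Finset.mem_product] at hp
    exact (hm.1 hp.1.1).2
  have hasc : ∀ (i : ℕ) (w : Fin (k + 2) → ℕ), asc (Ioo 0 (k + 2) \ {i}) w ↔
      ∀ j j' : Fin (k + 2), j'.val = j.val + 1 → j'.val ≠ i → w j < w j' := by
    intro i w
    unfold asc
    refine forall_congr' fun j => forall_congr' fun j' => forall_congr' fun hjj => ?_
    rw [Finset.mem_sdiff, Finset.mem_Ioo, Finset.mem_singleton]
    constructor
    · intro h h1
      exact h ⟨by omega, by omega⟩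
    · intro h h1
      exact h (by omega)
  refine Finset.card_bij (fun p hp => (Fin.cons (p.2 ⟨p.1, hlt p hp⟩)
    (fun j => p.2 ((⟨p.1, hlt p hp⟩ : Fin (k + 2)).succAbove j)) : Fin (k + 2) → ℕ)) ?_ ?_ ?_
  · rintro ⟨i, w⟩ hp
    have hlt' := hlt _ hp
    rw [Finset.mem_filter, Finset.mem_product, mem_W, hm] at hp
    obtain ⟨⟨⟨h0, -⟩, h1⟩, h2, h3⟩ := hp
    simp only at h0 h1 h2 h3 hlt'
    rw [hasc] at h3
    rw [Finset.mem_filter, mem_W, cont_cons_succAbove]
    refine ⟨h1, ?_, ?_⟩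
    · simp only [Fin.cons_succ]
      intro a b hab
      have h4 : (⟨i, hlt'⟩ : Fin (k + 2)).succAbove a < (⟨i, hlt'⟩ : Fin (k + 2)).succAbove b :=
        Fin.strictMono_succAbove _ hab
      have h5 : (⟨i, hlt'⟩ : Fin (k + 2)).succAbove b ≠ ⟨i, hlt'⟩ := Fin.succAbove_ne _ _
      set c := (⟨i, hlt'⟩ : Fin (k + 2)).succAbove b with hc
      rw [Fin.lt_def] at h4
      have h6 : w ⟨c.val - 1, by omega⟩ < w c := h3 _ _ (by simp; omega) (fun h => h5 (Fin.ext h))
      refine lt_of_le_of_lt (h2 ?_) h6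
      rw [Fin.le_def]
      simp only
      omega
    · have e1 : (1 : Fin (k + 2)) = Fin.succ 0 := rfl
      rw [e1, Fin.cons_succ, Fin.cons_zero, Fin.succAbove_of_castSucc_lt]
      · exact h2 (by rw [Fin.le_def]; simp)
      · rw [Fin.lt_def]; simpa using h0
  · rintro ⟨i, w⟩ hp ⟨i', w'⟩ hp' heq
    have hlt1 := hlt _ hp
    have hlt2 := hlt _ hp'
    rw [Finset.mem_filter, Finset.mem_product, mem_W, hm] at hp hp'
    obtain ⟨⟨⟨h0, -⟩, h1⟩, h2, h3⟩ := hp
    obtain ⟨⟨⟨h0', -⟩, h1'⟩, h2', h3'⟩ := hp'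
    simp only at h0 h1 h2 h3 h0' h1' h2' h3' hlt1 hlt2 heq
    rw [hasc] at h3 h3'
    obtain rfl : w = w' := monotone_unique _ _ h2 h2' (h1.trans h1'.symm)
    have h4 := congrFun heq 0
    rw [Fin.cons_zero, Fin.cons_zero] at h4
    have key : ∀ i i' : ℕ, ∀ (hi : i < k + 2) (hi' : i' < k + 2),
        (∀ j j' : Fin (k + 2), j'.val = j.val + 1 → j'.val ≠ i → w j < w j') →
        w ⟨i, hi⟩ = w ⟨i', hi'⟩ → ¬ i < i' := by
      intro i i' hi hi' h3 h4 hii
      have h5 : w ⟨i, hi⟩ ≤ w ⟨i' - 1, by omega⟩ := h2 (by rw [Fin.le_def]; simp; omega)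
      have h6 : w ⟨i' - 1, by omega⟩ < w ⟨i', hi'⟩ := h3 _ _ (by simp; omega) (by simp; omega)
      omega
    have h5 := key i i' hlt1 hlt2 h3 h4
    have h6 := key i' i hlt2 hlt1 h3' h4.symm
    have h7 : i = i' := by omega
    rw [h7]
  · intro w hw
    rw [Finset.mem_filter, mem_W] at hw
    obtain ⟨h1, h2, h3⟩ := hw
    obtain ⟨g, hg, hc, hex⟩ := exists_sorted w
    have hne : (Finset.univ.filter fun i => g i = w 0).Nonempty := by
      obtain ⟨j, hj⟩ := hex 0
      exact ⟨j, by simpa using hj⟩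
    set i := (Finset.univ.filter fun i => g i = w 0).max' hne with hi
    have hgi : g i = w 0 := (Finset.mem_filter.1 (Finset.max'_mem _ hne)).2
    have hmax : ∀ j, g j = w 0 → j ≤ i := fun j hj =>
      Finset.le_max' (Finset.univ.filter fun i => g i = w 0) j
        (Finset.mem_filter.2 ⟨Finset.mem_univ _, hj⟩)
    have heq := eq_cons_of hg h2.monotone hc hgi
    have htail : ∀ j : Fin (k + 1), g (i.succAbove j) = w j.succ := by
      intro j
      have h4 := congrFun heq j.succ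
      rwa [Fin.cons_succ] at h4
    have hi0 : i ≠ 0 := by
      intro h0
      have h4 := htail 0
      have e1 : Fin.succ (0 : Fin (k + 1)) = 1 := rfl
      rw [h0, e1] at h4
      have h5 : g 0 ≤ g ((0 : Fin (k + 2)).succAbove 0) := hg (Fin.zero_le _)
      rw [h0] at hgi
      have h6 := hmax ((0 : Fin (k + 2)).succAbove 0) (by omega)
      rw [h0] at h6
      have h7 : (0 : Fin (k + 2)).succAbove 0 ≠ 0 := Fin.succAbove_ne _ _
      exact h7 (le_antisymm h6 (Fin.zero_le _))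
    have hi0' : 0 < i.val := Nat.pos_of_ne_zero fun h => hi0 (Fin.ext h)
    refine ⟨(i.val, g), ?_, heq⟩
    rw [Finset.mem_filter, Finset.mem_product, mem_W, hm]
    refine ⟨⟨⟨hi0', i.isLt⟩, hc.trans h1⟩, hg, ?_⟩
    simp only
    rw [hasc]
    intro j j' hjj hj
    have hj' : j' ≠ i := fun h => hj (by rw [h])
    by_cases hji : j = i
    · refine lt_of_le_of_ne (hg (by rw [Fin.le_def]; omega)) fun h4 => ?_
      have h5 := hmax j' (by rw [← h4, hji, hgi])
      rw [Fin.le_def] at h5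
      rw [hji] at hjj
      omega
    · obtain ⟨a, ha⟩ := Fin.exists_succAbove_eq hji
      obtain ⟨b, hb⟩ := Fin.exists_succAbove_eq hj'
      have hab : a < b := by
        by_contra hcon
        have h6 := (Fin.strictMono_succAbove i).monotone (not_lt.1 hcon)
        rw [ha, hb, Fin.le_def] at h6
        omega
      rw [← ha, ← hb, htail, htail]
      exact h2 hab

end hooks

end Pool.Agent.R784.SP
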