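import Mathlib
import Pool.Agent.R784.SP.Sch

/-! # Symmetric sets of `n - 1` permutations (helper784) -/

set_option autoImplicit false

namespace Pool.Agent.R784.SP

open Finset Pool.Agent.R859.QS

/-! ### Hooks -/

def e1 (k : ℕ) : Fin (k + 2) → ℕ × ℕ := Fin.cons (1, 0) fun j : Fin (k + 1) => (0, (j : ℕ))

def e2 (k : ℕ) : Fin (k + 2) → ℕ × ℕ := Fin.cons (0, 1) fun j : Fin (k + 1) => ((j : ℕ), 0)

lemma e1_inj (k : ℕ) : Function.Injective (e1 k) := by
  intro a b h
  induction a using Fin.cases with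
  | zero =>
    induction b using Fin.cases with
    | zero => rfl
    | succ b => simp [e1] at h
  | succ a =>
    induction b using Fin.cases with
    | zero => simp [e1] at h
    | succ b =>
      simp only [e1, Fin.cons_succ, Prod.mk.injEq, true_and] at h
      rw [Fin.ext h]

lemma e2_inj (k : ℕ) : Function.Injective (e2 k) := by
  intro a b h
  induction a using Fin.cases with
  | zero =>
    induction b using Fin.cases with
    | zero => rfl
    | succ b => simp [e2] at h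
  | succ a =>
    induction b using Fin.cases with
    | zero => simp [e2] at h
    | succ b =>
      simp only [e2, Fin.cons_succ, Prod.mk.injEq, and_true] at h
      rw [Fin.ext h]

lemma CC_e1 {k : ℕ} (w : Fin (k + 2) → ℕ) :
    CC (e1 k) w ↔ (Monotone fun j : Fin (k + 1) => w j.succ) ∧ w 1 < w 0 := by
  constructor
  · rintro ⟨h1, h2⟩
    refine ⟨?_, ?_⟩
    · intro a b hab
      rcases hab.eq_or_lt with rfl | hlt
      · exact le_rfl
      · exact h1 a.succ b.succ (by simp [e1]) (by simpa [e1] using hlt)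
    · exact h2 1 0 (by rw [show (1 : Fin (k + 2)) = Fin.succ 0 from rfl]; simp [e1])
        (by rw [show (1 : Fin (k + 2)) = Fin.succ 0 from rfl]; simp [e1])
  · rintro ⟨h1, h2⟩
    refine ⟨?_, ?_⟩
    · intro i j h3 h4
      induction i using Fin.cases with
      | zero =>
        induction j using Fin.cases with
        | zero => simp at h4
        | succ j => simp [e1] at h3
      | succ i =>
        induction j using Fin.cases with
        | zero => simp [e1] at h3
        | succ j =>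
          refine h1 ?_
          simp only [e1, Fin.cons_succ] at h4
          exact (Fin.lt_def.2 h4).le
    · intro i j h3 h4
      induction i using Fin.cases with
      | zero =>
        induction j using Fin.cases with
        | zero => simp at h4
        | succ j => simp [e1] at h4
      | succ i =>
        induction j using Fin.cases with
        | zero =>
          simp only [e1, Fin.cons_succ, Fin.cons_zero] at h3
          have : i = 0 := Fin.ext h3
          subst this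
          exact h2
        | succ j => simp [e1] at h4

lemma CC_e2 {k : ℕ} (w : Fin (k + 2) → ℕ) :
    CC (e2 k) w ↔ (StrictMono fun j : Fin (k + 1) => w j.succ) ∧ w 1 ≤ w 0 := by
  constructor
  · rintro ⟨h1, h2⟩
    refine ⟨?_, ?_⟩
    · intro a b hab
      exact h2 a.succ b.succ (by simp [e2]) (by simpa [e2] using hab)
    · exact h1 1 0 (by rw [show (1 : Fin (k + 2)) = Fin.succ 0 from rfl]; simp [e2])
        (by rw [show (1 : Fin (k + 2)) = Fin.succ 0 from rfl]; simp [e2])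
  · rintro ⟨h1, h2⟩
    refine ⟨?_, ?_⟩
    · intro i j h3 h4
      induction i using Fin.cases with
      | zero =>
        induction j using Fin.cases with
        | zero => simp at h4
        | succ j => simp [e2] at h4
      | succ i =>
        induction j using Fin.cases with
        | zero =>
          simp only [e2, Fin.cons_succ, Fin.cons_zero] at h3
          have : i = 0 := Fin.ext h3
          subst this
          exact h2
        | succ j => simp [e2] at h4
    · intro i j h3 h4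
      induction i using Fin.cases with
      | zero =>
        induction j using Fin.cases with
        | zero => simp at h4
        | succ j => simp [e2] at h3
      | succ i =>
        induction j using Fin.cases with
        | zero => simp [e2] at h3
        | succ j =>
          refine h1 ?_
          simp only [e2, Fin.cons_succ] at h4
          exact Fin.lt_def.2 h4

lemma exists_mu1 (k : ℕ) : ∃ μ : YoungDiagram, μ.rowLens = [k + 1, 1] ∧
    ∀ c, c ∈ μ ↔ ∃ i, e1 k i = c := by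
  have hw : ([k + 1, 1] : List ℕ).SortedGE := by
    simp [List.sortedGE_iff_pairwise]
  refine ⟨YoungDiagram.ofRowLens [k + 1, 1] hw, YoungDiagram.rowLens_ofRowLens_eq_self
    (by simp), ?_⟩
  rintro ⟨a, b⟩
  rw [YoungDiagram.mem_ofRowLens]
  constructor
  · rintro ⟨h, h'⟩
    simp only [List.length_cons, List.length_nil] at h
    interval_cases a
    · simp only [List.getElem_cons_zero] at h'
      exact ⟨Fin.succ ⟨b, h'⟩, by rw [e1, Fin.cons_succ]⟩
    · simp only [List.getElem_cons_succ, List.getElem_cons_zero] at h'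
      exact ⟨0, by simp [e1]; omega⟩
  · rintro ⟨i, hi⟩
    induction i using Fin.cases with
    | zero =>
      simp only [e1, Fin.cons_zero, Prod.mk.injEq] at hi
      obtain ⟨rfl, rfl⟩ := hi
      exact ⟨by simp, by simp⟩
    | succ i =>
      simp only [e1, Fin.cons_succ, Prod.mk.injEq] at hi
      obtain ⟨rfl, rfl⟩ := hi
      exact ⟨by simp, by simp; omega⟩

lemma exists_mu2 (k : ℕ) : ∃ μ : YoungDiagram, μ.rowLens = 2 :: List.replicate k 1 ∧
    ∀ c, c ∈ μ ↔ ∃ i, e2 k i = c := by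
  have hw : (2 :: List.replicate k 1 : List ℕ).SortedGE := by
    rw [List.sortedGE_iff_pairwise, List.pairwise_cons]
    refine ⟨fun x hx => ?_, ?_⟩
    · rw [List.eq_of_mem_replicate hx]; norm_num
    · exact List.pairwise_replicate.2 (Or.inr le_rfl)
  refine ⟨YoungDiagram.ofRowLens _ hw, YoungDiagram.rowLens_ofRowLens_eq_self
    (fun x hx => ?_), ?_⟩
  · rw [List.mem_cons] at hx
    rcases hx with rfl | hx
    · norm_num
    · rw [List.eq_of_mem_replicate hx]; norm_num
  rintro ⟨a, b⟩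
  rw [YoungDiagram.mem_ofRowLens]
  constructor
  · rintro ⟨h, h'⟩
    simp only [List.length_cons, List.length_replicate] at h
    rcases Nat.eq_zero_or_pos a with rfl | ha
    · simp only [List.getElem_cons_zero] at h'
      interval_cases b
      · exact ⟨Fin.succ 0, by simp [e2]⟩
      · exact ⟨0, by simp [e2]⟩
    · obtain ⟨a', rfl⟩ : ∃ a', a = a' + 1 := ⟨a - 1, by omega⟩
      simp only [List.getElem_cons_succ, List.getElem_replicate] at h'
      have hb : b = 0 := by omega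
      subst hb
      have h2 : a' + 1 < k + 1 := by simpa using h
      exact ⟨Fin.succ ⟨a' + 1, h2⟩, by rw [e2, Fin.cons_succ]⟩
  · rintro ⟨i, hi⟩
    induction i using Fin.cases with
    | zero =>
      simp only [e2, Fin.cons_zero, Prod.mk.injEq] at hi
      obtain ⟨rfl, rfl⟩ := hi
      exact ⟨by simp, by simp⟩
    | succ i =>
      simp only [e2, Fin.cons_succ, Prod.mk.injEq] at hi
      obtain ⟨rfl, rfl⟩ := hi
      refine ⟨by simp; omega, ?_⟩
      rcases Nat.eq_zero_or_pos i.val with h | h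
      · simp [h]
      · obtain ⟨a', ha⟩ : ∃ a', i.val = a' + 1 := ⟨i.val - 1, by omega⟩
        simp [ha]

lemma schur_mu1 {k : ℕ} {μ : YoungDiagram} (hμ : ∀ c, c ∈ μ ↔ ∃ i, e1 k i = c) :
    schur μ = ∑ D ∈ Lsing (k + 2), fund (k + 2) D := by
  classical
  ext m
  rw [coeff_schur μ (e1 k) (e1_inj k) hμ, map_sum, Lsing,
    Finset.sum_image fun a _ b _ h => Finset.singleton_injective h]
  simp only [coeff_fund']
  have h := sum_card_eq (Ioo 0 (k + 2)) (W (k + 2) m) (fun i w => Monotone w ∧ asc {i} w)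
  have e : (W (k + 2) m).filter (CC (e1 k)) =
      (W (k + 2) m).filter fun w => (Monotone fun j : Fin (k + 1) => w j.succ) ∧ w 1 < w 0 := by
    ext w
    rw [Finset.mem_filter, Finset.mem_filter, CC_e1]
  rw [e, ← sing_count m]
  symm
  convert h

lemma schur_mu2 {k : ℕ} {μ : YoungDiagram} (hμ : ∀ c, c ∈ μ ↔ ∃ i, e2 k i = c) :
    schur μ = ∑ D ∈ Lco (k + 2), fund (k + 2) D := by
  classical
  have hinj : Set.InjOn (fun i => Ioo 0 (k + 2) \ {i}) (Ioo 0 (k + 2) : Finset ℕ) := by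
    intro a ha b hb hab
    have h1 : Ioo 0 (k + 2) \ {a} = Ioo 0 (k + 2) \ {b} := hab
    by_contra hne
    have h2 : a ∈ Ioo 0 (k + 2) \ {b} := by
      rw [Finset.mem_sdiff, Finset.mem_singleton]
      exact ⟨ha, hne⟩
    rw [← h1, Finset.mem_sdiff] at h2
    exact h2.2 (Finset.mem_singleton_self a)
  ext m
  rw [coeff_schur μ (e2 k) (e2_inj k) hμ, map_sum, Lco, Finset.sum_image hinj]
  simp only [coeff_fund']
  have h := sum_card_eq (Ioo 0 (k + 2)) (W (k + 2) m)
    (fun i w => Monotone w ∧ asc (Ioo 0 (k + 2) \ {i}) w)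
  have e : (W (k + 2) m).filter (CC (e2 k)) =
      (W (k + 2) m).filter fun w =>
        (StrictMono fun j : Fin (k + 1) => w j.succ) ∧ w 1 ≤ w 0 := by
    ext w
    rw [Finset.mem_filter, Finset.mem_filter, CC_e2]
  rw [e, ← co_count m]
  symm
  convert h

/-! ### The two special shapes for `n = 6` -/

/-- conditions on a permutation. -/
def A33 : Finset (Equiv.Perm (Fin 6)) := Finset.univ.filter fun σ =>
  σ⁻¹ 1 < σ⁻¹ 0 ∧ σ⁻¹ 3 < σ⁻¹ 2 ∧ σ⁻¹ 5 < σ⁻¹ 4 ∧ σ⁻¹ 1 < σ⁻¹ 3 ∧ σ⁻¹ 3 < σ⁻¹ 5 ∧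
    σ⁻¹ 0 < σ⁻¹ 2 ∧ σ⁻¹ 2 < σ⁻¹ 4

/-- conditions on a permutation. -/
def A222 : Finset (Equiv.Perm (Fin 6)) := Finset.univ.filter fun σ =>
  σ⁻¹ 2 < σ⁻¹ 1 ∧ σ⁻¹ 1 < σ⁻¹ 0 ∧ σ⁻¹ 5 < σ⁻¹ 4 ∧ σ⁻¹ 4 < σ⁻¹ 3 ∧ σ⁻¹ 2 < σ⁻¹ 5 ∧
    σ⁻¹ 1 < σ⁻¹ 4 ∧ σ⁻¹ 0 < σ⁻¹ 3

set_option maxRecDepth 100000 in
lemma A33_des : A33.val.map Des = L33.val := by
  decide +kernel

set_option maxRecDepth 100000 in
lemma A222_des : A222.val.map Des = L222.val := by
  decide +kernel

def e33 : Fin 6 → ℕ × ℕ := ![(1, 0), (0, 0), (1, 1), (0, 1), (1, 2), (0, 2)]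

def e222 : Fin 6 → ℕ × ℕ := ![(2, 0), (1, 0), (0, 0), (2, 1), (1, 1), (0, 1)]

lemma CC_e33 (w : Fin 6 → ℕ) : CC e33 w ↔ w 1 < w 0 ∧ w 3 < w 2 ∧ w 5 < w 4 ∧ w 1 ≤ w 3 ∧
    w 3 ≤ w 5 ∧ w 0 ≤ w 2 ∧ w 2 ≤ w 4 := by
  constructor
  · rintro ⟨h1, h2⟩
    exact ⟨h2 1 0 (by decide) (by decide), h2 3 2 (by decide) (by decide),
      h2 5 4 (by decide) (by decide), h1 1 3 (by decide) (by decide),
      h1 3 5 (by decide) (by decide), h1 0 2 (by decide) (by decide),
      h1 2 4 (by decide) (by decide)⟩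
  · rintro ⟨h1, h2, h3, h4, h5, h6, h7⟩
    refine ⟨?_, ?_⟩
    · intro i j
      fin_cases i <;> fin_cases j <;> simp [e33] <;> omega
    · intro i j
      fin_cases i <;> fin_cases j <;> simp [e33] <;> omega

lemma CC_e222 (w : Fin 6 → ℕ) : CC e222 w ↔ w 2 < w 1 ∧ w 1 < w 0 ∧ w 5 < w 4 ∧ w 4 < w 3 ∧
    w 2 ≤ w 5 ∧ w 1 ≤ w 4 ∧ w 0 ≤ w 3 := by
  constructor
  · rintro ⟨h1, h2⟩
    exact ⟨h2 2 1 (by decide) (by decide), h2 1 0 (by decide) (by decide),
      h2 5 4 (by decide) (by decide), h2 4 3 (by decide) (by decide),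
      h1 2 5 (by decide) (by decide), h1 1 4 (by decide) (by decide),
      h1 0 3 (by decide) (by decide)⟩
  · rintro ⟨h1, h2, h3, h4, h5, h6, h7⟩
    refine ⟨?_, ?_⟩
    · intro i j
      fin_cases i <;> fin_cases j <;> simp [e222] <;> omega
    · intro i j
      fin_cases i <;> fin_cases j <;> simp [e222] <;> omega

lemma mem_A33 (w : Fin 6 → ℕ) : Tuple.sort w ∈ A33 ↔ CC e33 w := by
  rw [A33, Finset.mem_filter, CC_e33]
  simp only [Finset.mem_univ, true_and, inv_sort_lt]
  constructor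
  · rintro ⟨h1, h2, h3, h4, h5, h6, h7⟩
    refine ⟨?_, ?_, ?_, ?_, ?_, ?_, ?_⟩ <;> omega
  · rintro ⟨h1, h2, h3, h4, h5, h6, h7⟩
    refine ⟨?_, ?_, ?_, ?_, ?_, ?_, ?_⟩ <;> omega

lemma mem_A222 (w : Fin 6 → ℕ) : Tuple.sort w ∈ A222 ↔ CC e222 w := by
  rw [A222, Finset.mem_filter, CC_e222]
  simp only [Finset.mem_univ, true_and, inv_sort_lt]
  constructor
  · rintro ⟨h1, h2, h3, h4, h5, h6, h7⟩
    refine ⟨?_, ?_, ?_, ?_, ?_, ?_, ?_⟩ <;> omega
  · rintro ⟨h1, h2, h3, h4, h5, h6, h7⟩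
    refine ⟨?_, ?_, ?_, ?_, ?_, ?_, ?_⟩ <;> omega

lemma schur_of {n : ℕ} {μ : YoungDiagram} {e : Fin n → ℕ × ℕ} (he : Function.Injective e)
    (hμ : ∀ c, c ∈ μ ↔ ∃ i, e i = c) {A : Finset (Equiv.Perm (Fin n))}
    (hA : ∀ w, Tuple.sort w ∈ A ↔ CC e w) {L : Finset (Finset ℕ)}
    (hL : A.val.map Des = L.val) : schur μ = ∑ D ∈ L, fund n D := by
  classical
  have h1 : ∑ D ∈ L, fund n D = QF A.val := by
    have h2 : QF A.val = ((A.val.map Des).map (fund n)).sum := by
      rw [Multiset.map_map]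
      rfl
    rw [h2, hL]
    rfl
  rw [h1]
  ext m
  rw [coeff_schur μ e he hμ, coeff_QF, Finset.card_filter]
  push_cast
  refine Finset.sum_congr rfl fun w _ => ?_
  rw [Multiset.count_eq_of_nodup A.nodup]
  by_cases h : CC e w
  · rw [if_pos h, if_pos (show Tuple.sort w ∈ A.val from (hA w).2 h)]
    rfl
  · rw [if_neg h, if_neg fun h2 : Tuple.sort w ∈ A.val => h ((hA w).1 h2)]
    rfl

lemma card_of {n : ℕ} {μ : YoungDiagram} {e : Fin n → ℕ × ℕ} (he : Function.Injective e)
    (hμ : ∀ c, c ∈ μ ↔ ∃ i, e i = c) : μ.card = n := by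
  classical
  have hcells : μ.cells = Finset.univ.image e := by
    ext c
    rw [YoungDiagram.mem_cells, hμ, Finset.mem_image]
    simp
  rw [YoungDiagram.card, hcells, Finset.card_image_of_injective _ he, Finset.card_univ,
    Fintype.card_fin]

lemma exists_mu33 : ∃ μ : YoungDiagram, μ.rowLens = [3, 3] ∧ μ.card = 6 ∧
    schur μ = ∑ D ∈ L33, fund 6 D := by
  have hw : ([3, 3] : List ℕ).SortedGE := by
    simp [List.sortedGE_iff_pairwise]
  suffices hc : ∀ c, c ∈ YoungDiagram.ofRowLens [3, 3] hw ↔ ∃ i, e33 i = c from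
    ⟨YoungDiagram.ofRowLens [3, 3] hw, YoungDiagram.rowLens_ofRowLens_eq_self
    (by simp), card_of (e := e33) (by decide) hc,
    schur_of (e := e33) (by decide) hc mem_A33 A33_des⟩
  rintro ⟨a, b⟩
  rw [YoungDiagram.mem_ofRowLens]
  constructor
  · rintro ⟨h, h'⟩
    simp only [List.length_cons, List.length_nil] at h
    interval_cases a
    · simp only [List.getElem_cons_zero] at h'
      interval_cases b
      · exact ⟨1, rfl⟩
      · exact ⟨3, rfl⟩
      · exact ⟨5, rfl⟩
    · simp only [List.getElem_cons_succ, List.getElem_cons_zero] at h'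
      interval_cases b
      · exact ⟨0, rfl⟩
      · exact ⟨2, rfl⟩
      · exact ⟨4, rfl⟩
  · rintro ⟨i, hi⟩
    rw [← hi]
    fin_cases i <;> simp [e33]

lemma exists_mu222 : ∃ μ : YoungDiagram, μ.rowLens = [2, 2, 2] ∧ μ.card = 6 ∧
    schur μ = ∑ D ∈ L222, fund 6 D := by
  have hw : ([2, 2, 2] : List ℕ).SortedGE := by
    simp [List.sortedGE_iff_pairwise]
  suffices hc : ∀ c, c ∈ YoungDiagram.ofRowLens [2, 2, 2] hw ↔ ∃ i, e222 i = c from
    ⟨YoungDiagram.ofRowLens [2, 2, 2] hw, YoungDiagram.rowLens_ofRowLens_eq_self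
    (by simp), card_of (e := e222) (by decide) hc,
    schur_of (e := e222) (by decide) hc mem_A222 A222_des⟩
  rintro ⟨a, b⟩
  rw [YoungDiagram.mem_ofRowLens]
  constructor
  · rintro ⟨h, h'⟩
    simp only [List.length_cons, List.length_nil] at h
    interval_cases a
    · simp only [List.getElem_cons_zero] at h'
      interval_cases b
      · exact ⟨2, rfl⟩
      · exact ⟨5, rfl⟩
    · simp only [List.getElem_cons_succ, List.getElem_cons_zero] at h'
      interval_cases b
      · exact ⟨1, rfl⟩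
      · exact ⟨4, rfl⟩
    · simp only [List.getElem_cons_succ, List.getElem_cons_zero] at h'
      interval_cases b
      · exact ⟨0, rfl⟩
      · exact ⟨3, rfl⟩
  · rintro ⟨i, hi⟩
    rw [← hi]
    fin_cases i <;> simp [e222]

/-! ### The theorem -/

section main

variable {n : ℕ}

lemma QF_of_dS (S : Finset (Equiv.Perm (Fin n))) {L : Finset (Finset ℕ)}
    (hL : ∀ D, dS S D = if D ∈ L then 1 else 0) : QF S.val = ∑ D ∈ L, fund n D := by
  classical
  have h1 : QF S.val = ∑ π ∈ S, fund n (Des π) := rfl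
  rw [h1, ← Finset.sum_fiberwise_of_maps_to (s := S) (t := (Ioo 0 n).powerset) (g := fun π => Des π)
    (fun π _ => Finset.mem_powerset.2 (Finset.filter_subset _ _))]
  have h2 : ∀ D ∈ (Ioo 0 n).powerset, ∑ π ∈ S with Des π = D, fund n (Des π) =
      if D ∈ L then fund n D else 0 := by
    intro D _
    have h3 : ∑ π ∈ S with Des π = D, fund n (Des π) = ∑ π ∈ S with Des π = D, fund n D := by
      refine Finset.sum_congr rfl fun π hπ => ?_
      rw [(Finset.mem_filter.1 hπ).2]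
    rw [h3, Finset.sum_const]
    have h4 := hL D
    unfold dS at h4
    rw [h4]
    split_ifs
    · rw [one_smul]
    · rw [zero_smul]
  rw [Finset.sum_congr rfl h2, ← Finset.sum_filter]
  refine Finset.sum_congr ?_ fun _ _ => rfl
  ext D
  rw [Finset.mem_filter, and_iff_right_iff_imp, Finset.mem_powerset]
  intro hD
  have h4 := hL D
  rw [if_pos hD] at h4
  unfold dS at h4
  obtain ⟨π, hπ⟩ := Finset.card_pos.1 (h4 ▸ Nat.one_pos)
  rw [← (Finset.mem_filter.1 hπ).2]
  exact Finset.filter_subset _ _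

lemma strictMono_of {f : Fin n → Fin n} (h : ∀ i j : Fin n, j.val = i.val + 1 → f i < f j) :
    StrictMono f := by
  intro a b hab
  obtain ⟨a, ha⟩ := a
  obtain ⟨b, hb⟩ := b
  rw [Fin.mk_lt_mk] at hab
  obtain ⟨c, rfl⟩ : ∃ c, b = a + 1 + c := ⟨b - (a + 1), by omega⟩
  induction c with
  | zero => exact h _ _ (by simp)
  | succ c ih =>
    exact (ih (by omega) (by omega)).trans (h ⟨a + 1 + c, by omega⟩ ⟨a + 1 + (c + 1), hb⟩
      (by simp; omega))

lemma eq_id_of {f : Fin n → Fin n} (h : StrictMono f) : f = id := by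
  have hs : Function.Surjective f := Finite.injective_iff_surjective.1 h.injective
  exact (StrictMono.range_inj h strictMono_id).1 (by rw [hs.range_eq, Set.range_id])

lemma des_empty {π : Equiv.Perm (Fin n)} (h : Des π = ∅) : π = 1 := by
  have h1 := (des_subset_iff π ∅).1 (by rw [h])
  have h2 := eq_id_of (strictMono_of fun i j hij => h1 i j hij (Finset.notMem_empty _))
  ext i
  rw [h2]
  rfl

lemma des_full {π : Equiv.Perm (Fin n)} (h : Des π = Ioo 0 n) : π = Fin.revPerm := by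
  have h1 : ∀ i j : Fin n, j.val = i.val + 1 → (Fin.rev ∘ π) i < (Fin.rev ∘ π) j := by
    intro i j hij
    have h2 : j.val ∈ Des π := by
      rw [h, Finset.mem_Ioo]
      omega
    rw [Des, Finset.mem_filter] at h2
    obtain ⟨-, a, b, ha, hb, hlt⟩ := h2
    obtain rfl : a = i := Fin.ext (by omega)
    obtain rfl : b = j := Fin.ext (by omega)
    exact Fin.rev_lt_rev.2 hlt
  have h2 := eq_id_of (strictMono_of h1)
  ext i
  have h3 := congrFun h2 i
  simp only [Function.comp_apply, id] at h3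
  have h4 := congrArg Fin.rev h3
  rw [Fin.rev_rev] at h4
  rw [h4]
  rfl

/-- **Theorem.** -/
theorem main (n : ℕ) (hn : 2 ≤ n) (S : Finset (Equiv.Perm (Fin n))) (hS : IsSymm (QF S.val))
    (hcard : S.card = n - 1) (h1 : (1 : Equiv.Perm (Fin n)) ∉ S)
    (h2 : (Fin.revPerm : Equiv.Perm (Fin n)) ∉ S) :
    SchurPositive n (QF S.val) ∧ ∃ μ : YoungDiagram, QF S.val = schur μ ∧
      (μ.rowLens = [n - 1, 1] ∨ μ.rowLens = 2 :: List.replicate (n - 2) 1 ∨
        n = 6 ∧ (μ.rowLens = [3, 3] ∨ μ.rowLens = [2, 2, 2])) := by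
  have hd0 : dS S ∅ = 0 := by
    by_contra hne
    unfold dS at hne
    obtain ⟨π, hπ⟩ := Finset.card_pos.1 (Nat.pos_of_ne_zero hne)
    rw [Finset.mem_filter] at hπ
    rw [des_empty hπ.2] at hπ
    exact h1 hπ.1
  have hd1 : dS S (Ioo 0 n) = 0 := by
    by_contra hne
    unfold dS at hne
    obtain ⟨π, hπ⟩ := Finset.card_pos.1 (Nat.pos_of_ne_zero hne)
    rw [Finset.mem_filter] at hπ
    rw [des_full hπ.2] at hπ
    exact h2 hπ.1
  have htot : nt n (dS S) = n - 1 := by
    have h3 := zz_total hn (dS S)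
    rw [hd0, hd1, zz_dS] at h3
    have h4 : S.filter (fun π => Des π ⊆ Ioo 0 n) = S :=
      Finset.filter_true_of_mem fun π _ => Finset.filter_subset _ _
    rw [h4, hcard] at h3
    omega
  have hex : ∃ μ : YoungDiagram, μ.card = n ∧ QF S.val = schur μ ∧
      (μ.rowLens = [n - 1, 1] ∨ μ.rowLens = 2 :: List.replicate (n - 2) 1 ∨
        n = 6 ∧ (μ.rowLens = [3, 3] ∨ μ.rowLens = [2, 2, 2])) := by
    rcases final hn (Sy_dS hS) hd0 hd1 htot with h | h | ⟨rfl, h | h⟩
    · obtain ⟨k, rfl⟩ : ∃ k, n = k + 2 := ⟨n - 2, by omega⟩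
      obtain ⟨μ, hμ, hc⟩ := exists_mu1 k
      exact ⟨μ, card_of (e1_inj k) hc, by rw [QF_of_dS S h, schur_mu1 hc], Or.inl (by rw [hμ]; rfl)⟩
    · obtain ⟨k, rfl⟩ : ∃ k, n = k + 2 := ⟨n - 2, by omega⟩
      obtain ⟨μ, hμ, hc⟩ := exists_mu2 k
      exact ⟨μ, card_of (e2_inj k) hc, by rw [QF_of_dS S h, schur_mu2 hc], Or.inr (Or.inl (by rw [hμ]; rfl))⟩
    · obtain ⟨μ, hμ, hk, hs⟩ := exists_mu33
      exact ⟨μ, hk, by rw [QF_of_dS S h, hs], Or.inr (Or.inr ⟨rfl, Or.inl hμ⟩)⟩
    · obtain ⟨μ, hμ, hk, hs⟩ := exists_mu222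
      exact ⟨μ, hk, by rw [QF_of_dS S h, hs], Or.inr (Or.inr ⟨rfl, Or.inr hμ⟩)⟩
  obtain ⟨μ, hk, hμ, hr⟩ := hex
  refine ⟨⟨{μ}, ?_, by rw [hμ, Multiset.map_singleton, Multiset.sum_singleton]⟩, μ, hμ, hr⟩
  intro ν hν
  rw [Multiset.mem_singleton] at hν
  rw [hν, hk]

end main

end Pool.Agent.R784.SP
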